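import Mathlib
import Pool.Agent.W126.SplitConv

/-!
Minor models inside a vertex set, elimination of vertices of small degree, and reduction to
minimum degree three.
-/

set_option autoImplicit false
set_option linter.unusedSectionVars false

namespace Pool.Agent.Q276.Tw

open SimpleGraph Finset
open Pool.Agent.W126.TAC Pool.Agent.W126.Split

section

variable {V : Type} [Fintype V] [DecidableEq V] {G : SimpleGraph V}

/-- a model of `H` in the subgraph of `G` induced by `S` -/
def Mod {W : Type} (H : SimpleGraph W) (G : SimpleGraph V) (S : Finset V) : Prop :=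
  ∃ B : W → Finset V, (∀ x, B x ⊆ S) ∧ (∀ x, (B x).Nonempty) ∧ (∀ x, Conn G (B x)) ∧
    (∀ x y, x ≠ y → Disjoint (B x) (B y)) ∧
    ∀ x y, H.Adj x y → ∃ u ∈ B x, ∃ v ∈ B y, G.Adj u v

lemma Mod.mono {W : Type} {H : SimpleGraph W} {S S' : Finset V} (h : Mod H G S) (hS : S ⊆ S') :
    Mod H G S' := by
  obtain ⟨B, h1, h2⟩ := h
  exact ⟨B, fun x => (h1 x).trans hS, h2⟩

lemma conn_singleton (v : V) : Conn G {v} := by
  intro u hu w hw
  rw [mem_singleton] at hu hw
  subst hu hw
  exact ⟨Walk.nil, by simp⟩

/-- the union of two connected sets joined by an edge is connected -/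
lemma conn_union {K L : Finset V} (hK : Conn G K) (hL : Conn G L) {x y : V} (hx : x ∈ K)
    (hy : y ∈ L) (hxy : G.Adj x y) : Conn G (K ∪ L) := by
  have key : ∀ u ∈ K, ∀ v ∈ L, ∃ p : G.Walk u v, ∀ z ∈ p.support, z ∈ K ∪ L := by
    intro u hu v hv
    obtain ⟨p, hp⟩ := hK u hu x hx
    obtain ⟨q, hq⟩ := hL y hy v hv
    refine ⟨p.append (Walk.cons hxy q), ?_⟩
    intro z hz
    rw [Walk.mem_support_append_iff, Walk.support_cons, List.mem_cons] at hz
    rcases hz with hz | hz | hz
    · exact mem_union_left _ (hp z hz)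
    · rw [hz]; exact mem_union_left _ hx
    · exact mem_union_right _ (hq z hz)
  intro u hu v hv
  rcases mem_union.1 hu with h1 | h1 <;> rcases mem_union.1 hv with h2 | h2
  · obtain ⟨p, hp⟩ := hK u h1 v h2
    exact ⟨p, fun z hz => mem_union_left _ (hp z hz)⟩
  · exact key u h1 v h2
  · obtain ⟨p, hp⟩ := key v h2 u h1
    refine ⟨p.reverse, fun z hz => hp z ?_⟩
    rwa [Walk.support_reverse, List.mem_reverse] at hz
  · obtain ⟨p, hp⟩ := hL u h1 v h2
    exact ⟨p, fun z hz => mem_union_right _ (hp z hz)⟩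

/-- the support of a walk is connected -/
lemma conn_support : ∀ {u v : V} (p : G.Walk u v), Conn G p.support.toFinset
  | _, _, Walk.nil => by
    simpa using conn_singleton (G := G) _
  | u, v, Walk.cons (v := c) h p => by
    have h1 := conn_union (conn_singleton (G := G) u) (conn_support p) (mem_singleton_self u)
      (List.mem_toFinset.2 (Walk.start_mem_support p)) h
    have h2 : (Walk.cons h p).support.toFinset = {u} ∪ p.support.toFinset := by
      rw [Walk.support_cons, List.toFinset_cons, insert_eq]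
    rw [h2]
    exact h1

/-- transitivity of minors -/
lemma Mod.trans {V' : Type} [Fintype V'] [DecidableEq V'] {G' : SimpleGraph V'} {W : Type}
    {H : SimpleGraph W} {S : Finset V} {S' : Finset V'} (h : Mod H G' S') (C : V' → Finset V)
    (h1 : ∀ u ∈ S', C u ⊆ S) (h2 : ∀ u ∈ S', (C u).Nonempty) (h3 : ∀ u ∈ S', Conn G (C u))
    (h4 : ∀ u ∈ S', ∀ w ∈ S', u ≠ w → Disjoint (C u) (C w))
    (h5 : ∀ u ∈ S', ∀ w ∈ S', G'.Adj u w → ∃ x ∈ C u, ∃ y ∈ C w, G.Adj x y) : Mod H G S := by
  obtain ⟨B, b1, b2, b3, b4, b5⟩ := h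
  have key : ∀ (K : Finset V'), K ⊆ S' → ∀ {u w : V'} (p : G'.Walk u w),
      (∀ z ∈ p.support, z ∈ K) → ∀ x ∈ C u, ∀ y ∈ C w,
        ∃ q : G.Walk x y, ∀ z ∈ q.support, z ∈ K.biUnion C := by
    intro K hK u w p
    induction p with
    | @nil u =>
      intro hp x hx y hy
      have hu : u ∈ K := hp u (by simp)
      obtain ⟨q, hq⟩ := h3 _ (hK hu) x hx y hy
      exact ⟨q, fun z hz => mem_biUnion.2 ⟨_, hu, hq z hz⟩⟩
    | @cons u c w hadj p ih =>
      intro hp x hx y hy
      have hu : u ∈ K := hp u (by simp)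
      have hc : c ∈ K := hp c (by simp)
      obtain ⟨a, ha, b, hb, hab⟩ := h5 u (hK hu) c (hK hc) hadj
      obtain ⟨q1, hq1⟩ := h3 _ (hK hu) x hx a ha
      obtain ⟨q2, hq2⟩ := ih (fun z hz => hp z (by simp [hz])) b hb y hy
      refine ⟨q1.append (Walk.cons hab q2), ?_⟩
      intro z hz
      rw [Walk.mem_support_append_iff, Walk.support_cons, List.mem_cons] at hz
      rcases hz with hz | hz | hz
      · exact mem_biUnion.2 ⟨_, hu, hq1 z hz⟩
      · rw [hz]; exact mem_biUnion.2 ⟨_, hu, ha⟩
      · exact hq2 z hz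
  refine ⟨fun x => (B x).biUnion C, ?_, ?_, ?_, ?_, ?_⟩
  · intro x z hz
    rw [mem_biUnion] at hz
    obtain ⟨u, hu, hz⟩ := hz
    exact h1 u (b1 x hu) hz
  · intro x
    obtain ⟨u, hu⟩ := b2 x
    obtain ⟨z, hz⟩ := h2 u (b1 x hu)
    exact ⟨z, mem_biUnion.2 ⟨u, hu, hz⟩⟩
  · intro x a ha b hb
    rw [mem_biUnion] at ha hb
    obtain ⟨u, hu, ha⟩ := ha
    obtain ⟨w, hw, hb⟩ := hb
    obtain ⟨p, hp⟩ := b3 x u hu w hw
    exact key (B x) (b1 x) p hp a ha b hb
  · intro x y hxy
    rw [Finset.disjoint_left]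
    intro z hz hz'
    rw [mem_biUnion] at hz hz'
    obtain ⟨u, hu, hz⟩ := hz
    obtain ⟨w, hw, hz'⟩ := hz'
    have huw : u ≠ w := by
      rintro rfl
      exact Finset.disjoint_left.1 (b4 x y hxy) hu hw
    exact Finset.disjoint_left.1 (h4 u (b1 x hu) w (b1 y hw) huw) hz hz'
  · intro x y hxy
    obtain ⟨u, hu, w, hw, huw⟩ := b5 x y hxy
    obtain ⟨a, ha, b, hb, hab⟩ := h5 u (b1 x hu) w (b1 y hw) huw
    exact ⟨a, mem_biUnion.2 ⟨u, hu, ha⟩, b, mem_biUnion.2 ⟨w, hw, hb⟩, hab⟩

/-- elimination of a vertex: if the neighbours of `v` form a clique in `G'`, then a decomposition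
of `G'` without `v` gives one of `G` -/
lemma bw_elim {G' : SimpleGraph V} {S Q : Finset V} {v : V} {k : ℕ} (hQ : Q ⊆ S.erase v)
    (hN : ∀ u ∈ S, G.Adj v u → u ∈ Q)
    (hG : ∀ x ∈ S.erase v, ∀ y ∈ S.erase v, G.Adj x y → G'.Adj x y)
    (hcl : ∀ x ∈ Q, ∀ y ∈ Q, x ≠ y → G'.Adj x y) (hk : Q.card + 1 ≤ k)
    (h : Bw G' (S.erase v) k) : Bw G S k := by
  obtain ⟨ι, hι, T, bag, hT, hsub, hcov, hedge, hconn, hcard⟩ := h
  -- a bag containing `Q`
  obtain ⟨i0, hi0⟩ : ∃ i0, Q ⊆ bag i0 := by
    rcases Q.eq_empty_or_nonempty with rfl | hne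
    · obtain ⟨i⟩ := hT.connected.nonempty
      exact ⟨i, empty_subset _⟩
    · obtain ⟨t, ht⟩ := helly hT Q hne (fun x => {i | x ∈ bag i})
        (fun x _ => pathConvex_of_walks hT (fun a b ha hb => hconn x a b ha hb)) (by
          intro x hx y hy
          by_cases hxy : x = y
          · subst hxy
            obtain ⟨i, hi⟩ := hcov x (hQ hx)
            exact ⟨i, hi, hi⟩
          · obtain ⟨i, hi, hi'⟩ := hedge x (hQ hx) y (hQ hy) (hcl x hx y hy hxy)
            exact ⟨i, hi, hi'⟩)
      exact ⟨t, fun x hx => ht x hx⟩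
  have hvb : ∀ i, v ∉ bag i := fun i hi => (mem_erase.1 (hsub i hi)).1 rfl
  have hU : (⊥ : SimpleGraph Unit).IsTree := by
    rw [SimpleGraph.isTree_iff_connected_and_card]
    refine ⟨?_, by simp⟩
    refine SimpleGraph.Connected.mk ?_
    intro x y
    exact SimpleGraph.Reachable.refl _
  by_cases hvS : v ∈ S
  swap
  · -- `v` is not in `S`
    rw [erase_eq_of_notMem hvS] at hsub hcov hedge hG
    exact ⟨ι, hι, T, bag, hT, hsub, hcov, fun x hx y hy hxy =>
      hedge x hx y hy (hG x hx y hy hxy), hconn, hcard⟩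
  refine ⟨ι ⊕ Unit, inferInstance, glue T ⊥ i0 (), Sum.elim bag (fun _ => insert v Q),
    glue_isTree hT hU, ?_, ?_, ?_, ?_, ?_⟩
  · rintro (i | i)
    · exact (hsub i).trans (erase_subset _ _)
    · exact insert_subset hvS (hQ.trans (erase_subset _ _))
  · intro x hx
    by_cases hxv : x = v
    · exact ⟨Sum.inr (), by rw [hxv]; exact mem_insert_self _ _⟩
    · obtain ⟨i, hi⟩ := hcov x (mem_erase.2 ⟨hxv, hx⟩)
      exact ⟨Sum.inl i, hi⟩
  · intro x hx y hy hxy
    by_cases hxv : x = v
    · subst hxv
      exact ⟨Sum.inr (), mem_insert_self _ _, mem_insert_of_mem (hN y hy hxy)⟩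
    · by_cases hyv : y = v
      · subst hyv
        exact ⟨Sum.inr (), mem_insert_of_mem (hN x hx hxy.symm), mem_insert_self _ _⟩
      · obtain ⟨i, hi, hi'⟩ := hedge x (mem_erase.2 ⟨hxv, hx⟩) y (mem_erase.2 ⟨hyv, hy⟩)
          (hG x (mem_erase.2 ⟨hxv, hx⟩) y (mem_erase.2 ⟨hyv, hy⟩) hxy)
        exact ⟨Sum.inl i, hi, hi'⟩
  · have hlr : ∀ x i, x ∈ bag i → x ∈ insert v Q →
        ∃ p : (glue T (⊥ : SimpleGraph Unit) i0 ()).Walk (Sum.inl i) (Sum.inr ()),
          ∀ z ∈ p.support, x ∈ (Sum.elim bag (fun _ => insert v Q) : ι ⊕ Unit → Finset V) z := by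
      intro x i hi hx
      have hxQ : x ∈ Q := by
        rcases mem_insert.1 hx with rfl | h
        · exact absurd hi (hvb i)
        · exact h
      obtain ⟨p, hp⟩ := hconn x i i0 hi (hi0 hxQ)
      obtain ⟨q, hq⟩ := walk_inl (T' := (⊥ : SimpleGraph Unit)) (a := i0) (b := ()) p
      have hadj : (glue T (⊥ : SimpleGraph Unit) i0 ()).Adj (Sum.inl i0) (Sum.inr ()) := ⟨rfl, rfl⟩
      refine ⟨q.append (Walk.cons hadj Walk.nil), ?_⟩
      intro z hz
      rw [Walk.mem_support_append_iff] at hz
      rcases hz with hz | hz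
      · obtain ⟨y, hy, rfl⟩ := hq z hz
        exact hp y hy
      · simp only [Walk.support_cons, Walk.support_nil, List.mem_cons, List.not_mem_nil,
          or_false] at hz
        rcases hz with rfl | rfl
        · exact hi0 hxQ
        · exact hx
    rintro x (i | i) (j | j) hi hj
    · obtain ⟨p, hp⟩ := hconn x i j hi hj
      obtain ⟨q, hq⟩ := walk_inl (T' := (⊥ : SimpleGraph Unit)) (a := i0) (b := ()) p
      refine ⟨q, fun z hz => ?_⟩
      obtain ⟨y, hy, rfl⟩ := hq z hz
      exact hp y hy
    · exact hlr x i hi hj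
    · obtain ⟨p, hp⟩ := hlr x j hj hi
      refine ⟨p.reverse, fun z hz => hp z ?_⟩
      rwa [Walk.support_reverse, List.mem_reverse] at hz
    · exact ⟨Walk.nil, by
        intro z hz
        rw [Walk.support_nil, List.mem_singleton] at hz
        rw [hz]
        exact hi⟩
  · rintro (i | i)
    · exact hcard i
    · exact (card_insert_le _ _).trans hk

end

/-- the reduction to minimum degree three -/
theorem reduce : ∀ (n : ℕ) {V : Type} [Fintype V] [DecidableEq V] (G : SimpleGraph V)
    (S : Finset V) (k : ℕ), S.card = n → 3 ≤ k → ¬ Bw G S k →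
    ∃ (G' : SimpleGraph V) (S' : Finset V), ¬ Bw G' S' k ∧
      (∀ v ∈ S', ∃ a ∈ S', ∃ b ∈ S', ∃ c ∈ S', a ≠ b ∧ a ≠ c ∧ b ≠ c ∧
        G'.Adj v a ∧ G'.Adj v b ∧ G'.Adj v c) ∧
      ∀ (W : Type) (H : SimpleGraph W) (S'' : Finset V), S'' ⊆ S' → Mod H G' S'' → Mod H G S := by
  intro n
  induction n using Nat.strong_induction_on with
  | _ n ih =>
    intro V _ _ G S k hn hk hb
    by_cases hdeg : ∀ v ∈ S, ∃ a ∈ S, ∃ b ∈ S, ∃ c ∈ S, a ≠ b ∧ a ≠ c ∧ b ≠ c ∧
        G.Adj v a ∧ G.Adj v b ∧ G.Adj v c
    · exact ⟨G, S, hb, hdeg, fun W H S'' hS h => h.mono hS⟩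
    · push Not at hdeg
      obtain ⟨v, hv, hno⟩ := hdeg
      classical
      -- the neighbours of `v`
      set Q := S.filter (fun u => G.Adj v u) with hQ
      have hQc : Q.card ≤ 2 := by
        by_contra hlt
        push Not at hlt
        obtain ⟨a, b, c, ha, hb', hc, h1, h2, h3⟩ := two_lt_card_iff.1 hlt
        rw [hQ, mem_filter] at ha hb' hc
        exact hno a ha.1 b hb'.1 c hc.1 h1 h2 h3 ha.2 hb'.2 hc.2
      have hQS : Q ⊆ S.erase v := by
        intro u hu
        rw [hQ, mem_filter] at hu
        exact mem_erase.2 ⟨fun h => by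
          subst h
          exact G.loopless.irrefl _ hu.2, hu.1⟩
      have hNQ : ∀ u ∈ S, G.Adj v u → u ∈ Q := fun u hu huv => mem_filter.2 ⟨hu, huv⟩
      -- the new graph
      let G' : SimpleGraph V :=
        { Adj := fun x y => G.Adj x y ∨ (x ∈ Q ∧ y ∈ Q ∧ x ≠ y)
          symm := ⟨by
            rintro x y (h | ⟨h1, h2, h3⟩)
            · exact Or.inl h.symm
            · exact Or.inr ⟨h2, h1, h3.symm⟩⟩
          loopless := ⟨by
            rintro x (h | ⟨_, _, h⟩)
            · exact G.loopless.irrefl _ h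
            · exact h rfl⟩ }
      have hb' : ¬ Bw G' (S.erase v) k := by
        intro h
        exact hb (bw_elim hQS hNQ (fun x _ y _ hxy => Or.inl hxy)
          (fun x hx y hy hxy => Or.inr ⟨hx, hy, hxy⟩) (by omega) h)
      have hcard : (S.erase v).card < n := by
        rw [card_erase_of_mem hv]
        have : 0 < S.card := card_pos.2 ⟨v, hv⟩
        omega
      obtain ⟨G'', S'', h1, h2, h3⟩ := ih _ hcard G' (S.erase v) k rfl hk hb'
      refine ⟨G'', S'', h1, h2, fun W H T hT hM => ?_⟩
      have h4 := h3 W H T hT hM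
      -- the branch sets
      rcases Q.eq_empty_or_nonempty with hQe | ⟨a, ha⟩
      · refine h4.trans (fun u => {u}) ?_ ?_ ?_ ?_ ?_
        · intro u hu
          rw [singleton_subset_iff]
          exact mem_of_mem_erase hu
        · intro u _
          exact singleton_nonempty u
        · intro u _
          exact conn_singleton u
        · intro u _ w _ huw
          simpa using huw
        · intro u _ w _ huw
          rcases huw with huw | ⟨h5, -, -⟩
          · exact ⟨u, mem_singleton_self _, w, mem_singleton_self _, huw⟩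
          · rw [hQe] at h5
            exact absurd h5 (notMem_empty _)
      · have hva : G.Adj v a := (mem_filter.1 ha).2
        have haS := hQS ha
        refine h4.trans (fun u => if u = a then {a} ∪ {v} else {u}) ?_ ?_ ?_ ?_ ?_
        · intro u hu
          split_ifs with h5
          · intro z hz
            rw [mem_union, mem_singleton, mem_singleton] at hz
            rcases hz with rfl | rfl
            · exact mem_of_mem_erase haS
            · exact hv
          · rw [singleton_subset_iff]
            exact mem_of_mem_erase hu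
        · intro u _
          split_ifs
          · exact ⟨a, by simp⟩
          · exact singleton_nonempty u
        · intro u _
          split_ifs
          · exact conn_union (conn_singleton a) (conn_singleton v) (mem_singleton_self _)
              (mem_singleton_self _) hva.symm
          · exact conn_singleton u
        · intro u hu w hw huw
          have hu' := (mem_erase.1 hu).1
          have hw' := (mem_erase.1 hw).1
          split_ifs with h5 h6 h6
          · exact absurd (h5.trans h6.symm) huw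
          · rw [Finset.disjoint_left]
            intro z hz hz'
            rw [mem_singleton] at hz'
            rw [mem_union, mem_singleton, mem_singleton] at hz
            rcases hz with rfl | rfl
            · exact h6 hz'.symm
            · exact hw' hz'.symm
          · rw [Finset.disjoint_left]
            intro z hz hz'
            rw [mem_singleton] at hz
            rw [mem_union, mem_singleton, mem_singleton] at hz'
            rcases hz' with rfl | rfl
            · exact h5 hz.symm
            · exact hu' hz.symm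
          · simpa using huw
        · intro u hu w hw huw
          have hmem : ∀ z, z ∈ (if z = a then ({a} ∪ {v} : Finset V) else {z}) := by
            intro z
            split_ifs with h
            · rw [h]; simp
            · simp
          rcases huw with huw | ⟨h5, h6, h7⟩
          · exact ⟨u, hmem u, w, hmem w, huw⟩
          · -- both in `Q`
            have hQ2 : ∀ x ∈ Q, ∀ y ∈ Q, x ≠ y → x = a ∨ y = a := by
              intro x hx y hy hxy
              by_contra hcon
              push Not at hcon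
              have : 2 < Q.card := two_lt_card_iff.2 ⟨x, y, a, hx, hy, ha, hxy, hcon.1, hcon.2⟩
              omega
            rcases hQ2 u h5 w h6 h7 with rfl | rfl
            · exact ⟨v, by simp, w, hmem w, (mem_filter.1 h6).2⟩
            · exact ⟨u, hmem u, v, by simp, (mem_filter.1 h5).2.symm⟩

end Pool.Agent.Q276.Tw
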