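import Mathlib
import Pool.Agent.Q276.Tw

/-!
A graph of treewidth at least three has a cycle of length at least four.
-/

set_option autoImplicit false
set_option linter.unusedSectionVars false

namespace Pool.Agent.Q276.Tw

open SimpleGraph Finset
open Pool.Agent.W126.TAC Pool.Agent.W126.Split

variable {V : Type} [Fintype V] [DecidableEq V] {G : SimpleGraph V}

/-- the cycle with four vertices -/
def c4 : SimpleGraph (Fin 4) where
  Adj i j := j = i + 1 ∨ i = j + 1
  symm := ⟨fun _ _ h => h.symm⟩
  loopless := ⟨by decide⟩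

lemma exists_longest (S : Finset V) (hS : S.Nonempty) :
    ∃ (u w : V) (p : G.Walk u w), p.IsPath ∧ (∀ z ∈ p.support, z ∈ S) ∧
      ∀ (u' w' : V) (q : G.Walk u' w'), q.IsPath → (∀ z ∈ q.support, z ∈ S) →
        q.length ≤ p.length := by
  set L : Set ℕ := {n | ∃ (u w : V) (p : G.Walk u w), p.IsPath ∧ (∀ z ∈ p.support, z ∈ S) ∧
    p.length = n} with hL
  have hne : L.Nonempty := by
    obtain ⟨v, hv⟩ := hS
    exact ⟨0, v, v, Walk.nil, Walk.IsPath.nil, by simpa using hv, rfl⟩
  have hbd : BddAbove L := by
    refine ⟨Fintype.card V, ?_⟩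
    rintro n ⟨u, w, p, hp, -, rfl⟩
    exact hp.length_lt.le
  obtain ⟨u, w, p, hp, hpS, hpl⟩ := Nat.sSup_mem hne hbd
  refine ⟨u, w, p, hp, hpS, fun u' w' q hq hqS => ?_⟩
  rw [hpl]
  exact le_csSup hbd ⟨u', w', q, hq, hqS, rfl⟩

/-- minimum degree three gives a cycle of length at least four -/
theorem c4_of_degree (S : Finset V) (hS : S.Nonempty)
    (hdeg : ∀ v ∈ S, ∃ a ∈ S, ∃ b ∈ S, ∃ c ∈ S, a ≠ b ∧ a ≠ c ∧ b ≠ c ∧
      G.Adj v a ∧ G.Adj v b ∧ G.Adj v c) : Mod c4 G S := by
  obtain ⟨u, w, p, hp, hpS, hmax⟩ := exists_longest (G := G) S hS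
  have hu : u ∈ S := hpS u (Walk.start_mem_support p)
  have hnb : ∀ x ∈ S, G.Adj u x → x ∈ p.support := by
    intro x hx hux
    by_contra hno
    have h1 := hmax x w (Walk.cons hux.symm p) (by
      rw [Walk.cons_isPath_iff]
      exact ⟨hp, hno⟩) (by
      intro z hz
      rw [Walk.support_cons, List.mem_cons] at hz
      rcases hz with rfl | hz
      · exact hx
      · exact hpS z hz)
    rw [Walk.length_cons] at h1
    omega
  obtain ⟨a, ha, b, hb, c, hc, hab, hac, hbc, h1, h2, h3⟩ := hdeg u hu
  have ha' := hnb a ha h1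
  have hb' := hnb b hb h2
  have hc' := hnb c hc h3
  clear hmax hnb
  -- the first step
  cases p with
  | nil =>
    rw [Walk.support_nil, List.mem_singleton] at ha'
    subst ha'
    exact absurd h1 (G.loopless.irrefl _)
  | @cons _ u1 _ e1 p =>
    rw [Walk.support_cons, List.mem_cons] at ha' hb' hc'
    have ha' := ha'.resolve_left h1.ne'
    have hb' := hb'.resolve_left h2.ne'
    have hc' := hc'.resolve_left h3.ne'
    rw [Walk.cons_isPath_iff] at hp
    cases p with
    | nil =>
      rw [Walk.support_nil, List.mem_singleton] at ha' hb'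
      exact absurd (ha'.trans hb'.symm) hab
    | @cons _ u2 _ e2 p =>
      rw [Walk.support_cons, List.mem_cons] at ha' hb' hc'
      rw [Walk.cons_isPath_iff] at hp
      obtain ⟨x, hx, hux, hx1, hx2⟩ : ∃ x ∈ p.support, G.Adj u x ∧ x ≠ u1 ∧ x ≠ u2 := by
        by_cases ha1 : a = u1
        · have hb2 : b ≠ u1 := fun h => hab (ha1.trans h.symm)
          have hc2 : c ≠ u1 := fun h => hac (ha1.trans h.symm)
          by_cases hb3 : b = u2
          · exact ⟨c, hc'.resolve_left hc2, h3, hc2, fun h => hbc (hb3.trans h.symm)⟩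
          · exact ⟨b, hb'.resolve_left hb2, h2, hb2, hb3⟩
        · by_cases ha2 : a = u2
          · by_cases hb1 : b = u1
            · have hc1 : c ≠ u1 := fun h => hbc (hb1.trans h.symm)
              exact ⟨c, hc'.resolve_left hc1, h3, hc1, fun h => hac (ha2.trans h.symm)⟩
            · exact ⟨b, hb'.resolve_left hb1, h2, hb1, fun h => hab (ha2.trans h.symm)⟩
          · exact ⟨a, ha'.resolve_left ha1, h1, ha1, ha2⟩
      cases p with
      | nil =>
        rw [Walk.support_nil, List.mem_singleton] at hx
        exact absurd hx hx2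
      | @cons _ u3 _ e3 p =>
        rw [Walk.support_cons, List.mem_cons] at hx
        have hx := hx.resolve_left hx2
        rw [Walk.cons_isPath_iff] at hp
        obtain ⟨⟨⟨hp1, hp2⟩, hp3⟩, hp4⟩ := hp
        simp only [Walk.support_cons, List.mem_cons, not_or] at hp3 hp4 hpS
        set D := (p.takeUntil x hx).support.toFinset with hD
        have hsub : ∀ z ∈ D, z ∈ p.support := by
          intro z hz
          rw [hD, List.mem_toFinset] at hz
          exact Walk.support_takeUntil_subset_support p hx hz
        have hD3 : u3 ∈ D := by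
          rw [hD, List.mem_toFinset]
          exact Walk.start_mem_support _
        have hDx : x ∈ D := by
          rw [hD, List.mem_toFinset]
          exact Walk.end_mem_support _
        have hDc : Conn G D := conn_support _
        clear_value D
        refine ⟨![{u}, {u1}, {u2}, D], ?_, ?_, ?_, ?_, ?_⟩
        · intro i
          fin_cases i
          · simpa using hu
          · simpa using hpS u1 (by simp)
          · simpa using hpS u2 (by simp)
          · intro z hz
            exact hpS z (Or.inr (Or.inr (Or.inr (hsub z hz))))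
        · intro i
          fin_cases i
          · exact singleton_nonempty _
          · exact singleton_nonempty _
          · exact singleton_nonempty _
          · exact ⟨_, hD3⟩
        · intro i
          fin_cases i
          · exact conn_singleton _
          · exact conn_singleton _
          · exact conn_singleton _
          · exact hDc
        · have k1 : u ≠ u1 := hp4.1
          have k2 : u ≠ u2 := hp4.2.1
          have k3 : u ∉ D := fun h => hp4.2.2 (hsub _ h)
          have k4 : u1 ≠ u2 := hp3.1
          have k5 : u1 ∉ D := fun h => hp3.2 (hsub _ h)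
          have k6 : u2 ∉ D := fun h => hp2 (hsub _ h)
          intro i j hij
          fin_cases i <;> fin_cases j <;> first | exact absurd rfl hij | skip
          all_goals simp [k1, k2, k3, k4, k5, k6, k1.symm, k2.symm, k4.symm]
        · have m0 : u ∈ (![{u}, {u1}, {u2}, D] : Fin 4 → Finset V) 0 := by simp
          have m1 : u1 ∈ (![{u}, {u1}, {u2}, D] : Fin 4 → Finset V) 1 := by simp
          have m2 : u2 ∈ (![{u}, {u1}, {u2}, D] : Fin 4 → Finset V) 2 := by simp
          have m3 : u3 ∈ (![{u}, {u1}, {u2}, D] : Fin 4 → Finset V) 3 := hD3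
          have m4 : x ∈ (![{u}, {u1}, {u2}, D] : Fin 4 → Finset V) 3 := hDx
          have key : ∀ i : Fin 4, ∃ a ∈ (![{u}, {u1}, {u2}, D] : Fin 4 → Finset V) i,
              ∃ b ∈ (![{u}, {u1}, {u2}, D] : Fin 4 → Finset V) (i + 1), G.Adj a b := by
            intro i
            fin_cases i
            · exact ⟨u, m0, u1, m1, e1⟩
            · exact ⟨u1, m1, u2, m2, e2⟩
            · exact ⟨u2, m2, u3, m3, e3⟩
            · exact ⟨x, m4, u, m0, hux.symm⟩
          rintro i j (rfl | rfl)
          · exact key i
          · obtain ⟨a, ha, b, hb, hab⟩ := key j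
            exact ⟨b, hb, a, ha, hab.symm⟩

/-- treewidth at least three gives a cycle of length at least four -/
theorem c4_of_bw {S : Finset V} {k : ℕ} (hk : 3 ≤ k) (h : ¬ Bw G S k) : Mod c4 G S := by
  obtain ⟨G', S', h1, h2, h3⟩ := reduce _ G S k rfl hk h
  refine h3 _ c4 S' Subset.rfl (c4_of_degree S' ?_ h2)
  rw [nonempty_iff_ne_empty]
  rintro rfl
  exact h1 ((bw_card ∅).mono Subset.rfl (by simp))

/-- splitting a connected set -/
lemma exists_split {K : Finset V} (hK : Conn G K) {x y : V} (hx : x ∈ K) (hy : y ∈ K)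
    (hxy : x ≠ y) : ∃ L : Finset V, L ⊆ K ∧ x ∉ L ∧ y ∈ L ∧ Conn G L ∧ ∃ z ∈ L, G.Adj x z := by
  obtain ⟨p, hp⟩ := hK x hx y hy
  have h1 : ∀ z ∈ (p.toPath : G.Walk x y).support, z ∈ K := fun z hz =>
    hp z (p.support_toPath_subset_support hz)
  have h2 := p.toPath.2
  generalize (p.toPath : G.Walk x y) = q at h1 h2
  cases q with
  | nil => exact absurd rfl hxy
  | @cons _ c _ e q =>
    rw [Walk.cons_isPath_iff] at h2
    refine ⟨q.support.toFinset, ?_, ?_, ?_, conn_support q, c, ?_, e⟩
    · intro z hz
      rw [List.mem_toFinset] at hz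
      exact h1 z (by simp [hz])
    · rw [List.mem_toFinset]
      exact h2.2
    · rw [List.mem_toFinset]
      exact Walk.end_mem_support q
    · rw [List.mem_toFinset]
      exact Walk.start_mem_support q

/-- a model of a triangle is a triangle or contains a model of a cycle with four vertices -/
theorem tri_or_c4 (B : Fin 3 → Finset V) (h2 : ∀ i, Conn G (B i))
    (h3 : ∀ i j, i ≠ j → Disjoint (B i) (B j))
    (h4 : ∀ i j, i ≠ j → ∃ u ∈ B i, ∃ v ∈ B j, G.Adj u v) :
    (∃ τ : Fin 3 → V, (∀ i, τ i ∈ B i) ∧ ∀ i j, i ≠ j → G.Adj (τ i) (τ j)) ∨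
      Mod c4 G (univ.biUnion B) := by
  have hadj := fun i : Fin 3 => h4 i (i + 1) (by revert i; decide)
  choose x hx y hy hxy using hadj
  -- `x i ∈ B i`, `y i ∈ B (i + 1)`
  by_cases hall : ∀ i, x (i + 1) = y i
  · left
    refine ⟨x, hx, ?_⟩
    have key : ∀ i, G.Adj (x i) (x (i + 1)) := fun i => by
      rw [hall i]
      exact hxy i
    intro i j hij
    have h0 := key 0
    have h1 := key 1
    have h2 := key 2
    fin_cases i <;> fin_cases j <;> first | exact absurd rfl hij | skip
    · exact h0
    · exact h2.symm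
    · exact h0.symm
    · exact h1
    · exact h2
    · exact h1.symm
  · right
    push Not at hall
    obtain ⟨i, hi⟩ := hall
    obtain ⟨L, hL1, hL2, hL3, hL4, z, hz, hxz⟩ := exists_split (h2 (i + 1)) (hx (i + 1)) (hy i) hi
    have hsub : ∀ j, B j ⊆ univ.biUnion B := fun j => subset_biUnion_of_mem B (mem_univ j)
    have n1 : i ≠ i + 1 := (by decide : ∀ i : Fin 3, i ≠ i + 1) i
    have n2 : i + 1 ≠ i + 2 := (by decide : ∀ i : Fin 3, i + 1 ≠ i + 2) i
    have n3 : i + 2 ≠ i := (by decide : ∀ i : Fin 3, i + 2 ≠ i) i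
    have e12 : i + 1 + 1 = i + 2 := (by decide : ∀ i : Fin 3, i + 1 + 1 = i + 2) i
    have e23 : i + 2 + 1 = i := (by decide : ∀ i : Fin 3, i + 2 + 1 = i) i
    -- the cycle: B i, L, {x (i + 1)}, B (i + 2)
    refine ⟨![B i, L, {x (i + 1)}, B (i + 2)], ?_, ?_, ?_, ?_, ?_⟩
    · intro j
      fin_cases j
      · exact hsub i
      · exact hL1.trans (hsub _)
      · change ({x (i + 1)} : Finset V) ⊆ _
        rw [singleton_subset_iff]
        exact hsub _ (hx _)
      · exact hsub _
    · intro j
      fin_cases j
      · exact ⟨_, hx i⟩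
      · exact ⟨_, hL3⟩
      · exact singleton_nonempty _
      · exact ⟨_, hx (i + 2)⟩
    · intro j
      fin_cases j
      · exact h2 i
      · exact hL4
      · exact conn_singleton _
      · exact h2 _
    · have d1 : Disjoint (B i) L := (h3 _ _ n1).mono_right hL1
      have d2 : Disjoint (B i) {x (i + 1)} :=
        (h3 _ _ n1).mono_right (singleton_subset_iff.2 (hx _))
      have d3 : Disjoint (B i) (B (i + 2)) := h3 _ _ n3.symm
      have d4 : Disjoint L {x (i + 1)} := by
        rw [disjoint_singleton_right]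
        exact hL2
      have d5 : Disjoint L (B (i + 2)) := (h3 _ _ n2).mono_left hL1
      have d6 : Disjoint {x (i + 1)} (B (i + 2)) :=
        (h3 _ _ n2).mono_left (singleton_subset_iff.2 (hx _))
      intro j k hjk
      fin_cases j <;> fin_cases k <;> first | exact absurd rfl hjk | skip
      · exact d1
      · exact d2
      · exact d3
      · exact d1.symm
      · exact d4
      · exact d5
      · exact d2.symm
      · exact d4.symm
      · exact d6
      · exact d3.symm
      · exact d5.symm
      · exact d6.symm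
    · have hx1 := hxy i
      have hx2 := hxy (i + 1)
      have hx3 := hxy (i + 2)
      have hy2 := hy (i + 1)
      rw [e12] at hy2
      have hy3 := hy (i + 2)
      rw [e23] at hy3
      have key : ∀ j : Fin 4, ∃ a ∈ (![B i, L, {x (i + 1)}, B (i + 2)] : Fin 4 → Finset V) j,
          ∃ b ∈ (![B i, L, {x (i + 1)}, B (i + 2)] : Fin 4 → Finset V) (j + 1), G.Adj a b := by
        intro j
        fin_cases j
        · exact ⟨x i, hx i, y i, hL3, hx1⟩
        · exact ⟨z, hz, x (i + 1), mem_singleton_self _, hxz.symm⟩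
        · exact ⟨x (i + 1), mem_singleton_self _, y (i + 1), hy2, hx2⟩
        · exact ⟨x (i + 2), hx _, y (i + 2), hy3, hx3⟩
      rintro j k (rfl | rfl)
      · exact key j
      · obtain ⟨a, ha, b, hb, hab⟩ := key k
        exact ⟨b, hb, a, ha, hab.symm⟩

end Pool.Agent.Q276.Tw
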