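import Mathlib
import Pool.Agent.Q276.Four

/-!
Degrees and numbers of edges inside vertex sets; a decomposition has a vertex of small degree;
a set with at least as many edges as vertices contains a cycle.
-/

set_option autoImplicit false
set_option linter.unusedSectionVars false

namespace Pool.Agent.Q276.Tw

open SimpleGraph Finset
open Pool.Agent.W126.TAC Pool.Agent.W126.Split

variable {V : Type} [Fintype V] [DecidableEq V] {G : SimpleGraph V}

open Classical in
/-- the number of neighbours of `v` in `S` -/
noncomputable def dg (G : SimpleGraph V) (S : Finset V) (v : V) : ℕ :=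
  (S.filter (fun u => G.Adj v u)).card

/-- twice the number of edges inside `U` -/
noncomputable def e2 (G : SimpleGraph V) (U : Finset V) : ℕ := ∑ v ∈ U, dg G U v

lemma dg_mono {S S' : Finset V} (h : S ⊆ S') (v : V) : dg G S v ≤ dg G S' v := by
  classical
  unfold dg
  exact card_le_card (filter_subset_filter _ h)

lemma dg_erase {U : Finset V} {v : V} (hv : v ∈ U) (a : V) :
    dg G U a = dg G (U.erase v) a + (open Classical in if G.Adj a v then 1 else 0) := by
  classical
  unfold dg
  rw [filter_erase]
  by_cases h : G.Adj a v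
  · rw [if_pos h, card_erase_add_one (mem_filter.2 ⟨hv, h⟩)]
  · rw [if_neg h, erase_eq_of_notMem (fun h' => h (mem_filter.1 h').2), add_zero]

lemma e2_erase {U : Finset V} {v : V} (hv : v ∈ U) :
    e2 G U = e2 G (U.erase v) + 2 * dg G U v := by
  classical
  unfold e2
  rw [← add_sum_erase U _ hv]
  have h1 : ∑ a ∈ U.erase v, dg G U a = ∑ a ∈ U.erase v, dg G (U.erase v) a + dg G U v := by
    rw [sum_congr rfl (fun a _ => dg_erase hv a), sum_add_distrib]
    congr 1
    rw [← card_filter]
    unfold dg
    congr 1
    ext a
    rw [mem_filter, mem_filter, mem_erase]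
    constructor
    · rintro ⟨⟨_, h1⟩, h2⟩
      exact ⟨h1, h2.symm⟩
    · rintro ⟨h1, h2⟩
      exact ⟨⟨h2.ne', h1⟩, h2.symm⟩
  rw [h1]
  ring

lemma one_lt_dg {U : Finset V} {v : V} (h : 2 ≤ dg G U v) :
    ∃ a ∈ U, ∃ b ∈ U, a ≠ b ∧ G.Adj v a ∧ G.Adj v b := by
  classical
  unfold dg at h
  obtain ⟨a, ha, b, hb, hab⟩ := one_lt_card.1 h
  rw [mem_filter] at ha hb
  exact ⟨a, ha.1, b, hb.1, hab, ha.2, hb.2⟩

/-- the triangle -/
abbrev k3 : SimpleGraph (Fin 3) := ⊤

/-- minimum degree two gives a cycle -/
theorem k3_of_degree (S : Finset V) (hS : S.Nonempty)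
    (hdeg : ∀ v ∈ S, ∃ a ∈ S, ∃ b ∈ S, a ≠ b ∧ G.Adj v a ∧ G.Adj v b) : Mod k3 G S := by
  obtain ⟨u, w, p, hp, hpS, hmax⟩ := exists_longest (G := G) S hS
  have hu : u ∈ S := hpS u (Walk.start_mem_support p)
  have hnb : ∀ x ∈ S, G.Adj u x → x ∈ p.support := by
    intro x hx hux
    by_contra hno
    have h1 := hmax x w (Walk.cons hux.symm p) (by
      rw [Walk.cons_isPath_iff]
      exact ⟨hp, hno⟩) (by
      intro z hz
      rw [Walk.support_cons, List.mem_cons] at hz
      rcases hz with rfl | hz
      · exact hx
      · exact hpS z hz)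
    rw [Walk.length_cons] at h1
    omega
  obtain ⟨a, ha, b, hb, hab, h1, h2⟩ := hdeg u hu
  have ha' := hnb a ha h1
  have hb' := hnb b hb h2
  clear hmax hnb
  -- the first step
  cases p with
  | nil =>
    rw [Walk.support_nil, List.mem_singleton] at ha'
    subst ha'
    exact absurd h1 (G.loopless.irrefl _)
  | @cons _ u1 _ e1 p =>
    rw [Walk.support_cons, List.mem_cons] at ha' hb'
    have ha' := ha'.resolve_left h1.ne'
    have hb' := hb'.resolve_left h2.ne'
    rw [Walk.cons_isPath_iff] at hp
    obtain ⟨x, hx, hux, hx1⟩ : ∃ x ∈ p.support, G.Adj u x ∧ x ≠ u1 := by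
      by_cases ha1 : a = u1
      · exact ⟨b, hb', h2, fun h => hab (ha1.trans h.symm)⟩
      · exact ⟨a, ha', h1, ha1⟩
    cases p with
    | nil =>
      rw [Walk.support_nil, List.mem_singleton] at hx
      exact absurd hx hx1
    | @cons _ u2 _ e2 p =>
      rw [Walk.support_cons, List.mem_cons] at hx
      have hx := hx.resolve_left hx1
      rw [Walk.cons_isPath_iff] at hp
      obtain ⟨⟨hp1, hp2⟩, hp3⟩ := hp
      simp only [Walk.support_cons, List.mem_cons, not_or] at hp3 hpS
      set D := (p.takeUntil x hx).support.toFinset with hD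
      have hsub : ∀ z ∈ D, z ∈ p.support := by
        intro z hz
        rw [hD, List.mem_toFinset] at hz
        exact Walk.support_takeUntil_subset_support p hx hz
      have hD3 : u2 ∈ D := by
        rw [hD, List.mem_toFinset]
        exact Walk.start_mem_support _
      have hDx : x ∈ D := by
        rw [hD, List.mem_toFinset]
        exact Walk.end_mem_support _
      have hDc : Conn G D := conn_support _
      clear_value D
      refine ⟨![{u}, {u1}, D], ?_, ?_, ?_, ?_, ?_⟩
      · intro i
        fin_cases i
        · simpa using hu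
        · simpa using hpS u1 (by simp)
        · intro z hz
          exact hpS z (Or.inr (Or.inr (hsub z hz)))
      · intro i
        fin_cases i
        · exact singleton_nonempty _
        · exact singleton_nonempty _
        · exact ⟨_, hD3⟩
      · intro i
        fin_cases i
        · exact conn_singleton _
        · exact conn_singleton _
        · exact hDc
      · have k1 : u ≠ u1 := hp3.1
        have k3 : u ∉ D := fun h => hp3.2 (hsub _ h)
        have k5 : u1 ∉ D := fun h => hp2 (hsub _ h)
        intro i j hij
        fin_cases i <;> fin_cases j <;> first | exact absurd rfl hij | skip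
        all_goals simp [k1, k3, k5, k1.symm]
      · have key : ∀ i j : Fin 3, i < j → ∃ a ∈ (![{u}, {u1}, D] : Fin 3 → Finset V) i,
            ∃ b ∈ (![{u}, {u1}, D] : Fin 3 → Finset V) j, G.Adj a b := by
          intro i j hij
          fin_cases i <;> fin_cases j <;> first | exact absurd hij (by decide) | skip
          · exact ⟨u, mem_singleton_self _, u1, mem_singleton_self _, e1⟩
          · exact ⟨u, mem_singleton_self _, x, hDx, hux⟩
          · exact ⟨u1, mem_singleton_self _, u2, hD3, e2⟩
        intro i j hij
        rcases lt_or_gt_of_ne (show i ≠ j from hij) with h | h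
        · exact key i j h
        · obtain ⟨a, ha, b, hb, hab⟩ := key j i h
          exact ⟨b, hb, a, ha, hab.symm⟩

/-- a set with at least as many edges as vertices contains a cycle -/
theorem k3_of_e2 : ∀ (n : ℕ) (U : Finset V), U.card = n → U.Nonempty → 2 * U.card ≤ e2 G U →
    Mod k3 G U := by
  classical
  intro n
  induction n with
  | zero =>
    intro U hn hU
    rw [card_eq_zero] at hn
    subst hn
    exact absurd hU not_nonempty_empty
  | succ n ih =>
    intro U hn hU h
    by_cases hlow : ∃ v ∈ U, dg G U v ≤ 1
    · obtain ⟨v, hv, hd⟩ := hlow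
      have h1 := e2_erase (G := G) hv
      have h2 : (U.erase v).card = n := by rw [card_erase_of_mem hv]; omega
      have h3 : (U.erase v).Nonempty := by
        rw [nonempty_iff_ne_empty]
        intro he
        rw [he] at h1
        have h4 : e2 G (∅ : Finset V) = 0 := by simp [e2]
        rw [h4] at h1
        rw [he] at h2
        simp at h2
        subst h2
        have h5 : dg G U v = 0 := by
          obtain ⟨x, hx⟩ := card_eq_one.1 hn
          subst hx
          rw [mem_singleton] at hv
          subst hv
          unfold dg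
          rw [card_eq_zero, filter_eq_empty_iff]
          intro y hy
          rw [mem_singleton] at hy
          subst hy
          exact G.loopless.irrefl _
        omega
      exact (ih _ h2 h3 (by omega)).mono (erase_subset _ _)
    · push Not at hlow
      exact k3_of_degree U hU (fun v hv => one_lt_dg (hlow v hv))

/-! ### A vertex of small degree -/

theorem order_short {I : Type} [DecidableEq I] {T : SimpleGraph I} {o a w : I} (p : T.Walk o a)
    (hp : p.length = T.dist o a) (hw : w ∈ p.support) (hne : w ≠ a) : T.dist o w < T.dist o a := by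
  have h1 := congrArg SimpleGraph.Walk.length (p.take_spec hw)
  rw [SimpleGraph.Walk.length_append] at h1
  have h2 := SimpleGraph.dist_le (p.takeUntil w hw)
  have h3 : 0 < (p.dropUntil w hw).length := by
    rw [Nat.pos_iff_ne_zero]
    intro h0
    exact hne (SimpleGraph.Walk.eq_of_length_eq_zero h0)
  omega

theorem order_path {I : Type} [DecidableEq I] {T : SimpleGraph I} (hT : T.IsTree) {o a j : I}
    (S : I → Prop) (hS : ∀ i j (q : T.Walk i j), q.IsPath → S i → S j → ∀ l ∈ q.support, S l)
    (hmin : ∀ i, S i → T.dist o a ≤ T.dist o i) (ha : S a) (hj : S j) :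
    ∃ (p : T.Walk o a) (q : T.Walk a j), p.length = T.dist o a ∧ q.IsPath ∧ (p.append q).IsPath := by
  obtain ⟨p, hp, hpl⟩ := hT.connected.exists_path_of_dist o a
  obtain ⟨q, hq, -⟩ := hT.connected.exists_path_of_dist a j
  refine ⟨p, q, hpl, hq, ?_⟩
  rw [SimpleGraph.Walk.isPath_def, SimpleGraph.Walk.support_append]
  have hqs := hq.support_nodup
  rw [← SimpleGraph.Walk.cons_tail_support, List.nodup_cons] at hqs
  rw [List.nodup_append]
  refine ⟨hp.support_nodup, hqs.2, ?_⟩
  intro w hw w' hw' heq
  subst heq
  have h1 : S w := hS a j q hq ha hj w (List.mem_of_mem_tail hw')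
  have h2 := hmin w h1
  by_cases hwa : w = a
  · subst hwa; exact hqs.1 hw'
  · have := order_short p hpl hw hwa
    omega

/-- some vertex has its neighbours in one bag -/
theorem low_deg {S : Finset V} {h : ℕ} (hB : Bw G S h) (hS : S.Nonempty) :
    ∃ v ∈ S, dg G S v + 1 ≤ h := by
  classical
  obtain ⟨ι, hι, T, bag, hT, hsub, hcov, hedge, hconn, hcard⟩ := hB
  obtain ⟨o⟩ := hT.connected.nonempty
  have hcon : ∀ x i j (q : T.Walk i j), q.IsPath → x ∈ bag i → x ∈ bag j →
      ∀ l ∈ q.support, x ∈ bag l := by
    intro x i j q hq hi hj l hl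
    exact pathConvex_of_walks hT (S := {i | x ∈ bag i}) (fun a b ha hb => hconn x a b ha hb)
      i j hi hj q hq l hl
  have htop : ∀ v : V, ∃ i, v ∈ S → v ∈ bag i ∧ ∀ j, v ∈ bag j → T.dist o i ≤ T.dist o j := by
    intro v
    by_cases hv : v ∈ S
    · obtain ⟨i0, hi0⟩ := hcov v hv
      obtain ⟨i, hi, him⟩ := exists_min_image (univ.filter fun i => v ∈ bag i)
        (fun i => T.dist o i) ⟨i0, by simpa using hi0⟩
      exact ⟨i, fun _ => ⟨by simpa using hi, fun j hj => him j (by simpa using hj)⟩⟩
    · exact ⟨o, fun h => absurd h hv⟩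
  choose top htop using htop
  obtain ⟨v, hv, hmax⟩ := exists_max_image S (fun v => T.dist o (top v)) hS
  refine ⟨v, hv, ?_⟩
  have hkey : ∀ x ∈ S, G.Adj v x → x ∈ bag (top v) := by
    intro x hx hvx
    obtain ⟨j, hj1, hj2⟩ := hedge v hv x hx hvx
    obtain ⟨p, q, hpl, hq, hpq⟩ := order_path hT (fun i => v ∈ bag i) (hcon v) (htop v hv).2
      (htop v hv).1 hj1
    obtain ⟨p', q', hpl', hq', hpq'⟩ :=
      order_path hT (fun i => x ∈ bag i) (hcon x) (htop x hx).2 (htop x hx).1 hj2
    have heq : p.append q = p'.append q' :=
      congrArg Subtype.val ((hT.isAcyclic.subsingleton_path o j).elim ⟨p.append q, hpq⟩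
        ⟨p'.append q', hpq'⟩)
    have hmem : top v ∈ (p'.append q').support := by
      rw [← heq, SimpleGraph.Walk.mem_support_append_iff]
      exact Or.inl p.end_mem_support
    rw [SimpleGraph.Walk.mem_support_append_iff] at hmem
    have hd := hmax x hx
    rcases hmem with h | h
    · by_cases hvx : top v = top x
      · rw [hvx]; exact (htop x hx).1
      · have := order_short p' hpl' h hvx
        omega
    · exact hcon x (top x) j q' hq' (htop x hx).1 hj2 _ h
  have h1 : insert v (S.filter (fun u => G.Adj v u)) ⊆ bag (top v) := by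
    intro x hx
    rw [mem_insert, mem_filter] at hx
    rcases hx with rfl | hx
    · exact (htop x hv).1
    · exact hkey x hx.1 hx.2
  have h2 := card_le_card h1
  rw [card_insert_of_notMem (by
    rw [mem_filter]
    exact fun h => G.loopless.irrefl _ h.2)] at h2
  exact h2.trans (hcard _)

end Pool.Agent.Q276.Tw
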