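import Mathlib
import Pool.Agent.Q276.Deg

/-!
A graph with minimum degree at least `d + 2` in which small sets span fewer edges than vertices
has a minor of minimum degree at least `d (d + 1) ^ k`.
-/

set_option autoImplicit false
set_option linter.unusedSectionVars false

namespace Pool.Agent.Q276.Tw

open SimpleGraph Finset
open Pool.Agent.W126.TAC Pool.Agent.W126.Split

variable {V : Type} [Fintype V] [DecidableEq V] {G : SimpleGraph V}

/-- every nonempty set of at most `g` vertices spans fewer edges than vertices -/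
def Sparse (G : SimpleGraph V) (S : Finset V) (g : ℕ) : Prop :=
  ∀ U : Finset V, U ⊆ S → U.Nonempty → U.card ≤ g → e2 G U < 2 * U.card

open Classical in
lemma e2_eq (U : Finset V) :
    e2 G U = ((U ×ˢ U).filter (fun p => G.Adj p.1 p.2)).card := by
  unfold e2
  rw [card_filter, sum_product]
  refine sum_congr rfl fun v _ => ?_
  unfold dg
  rw [card_filter]

/-! ### Ranked forests -/

/-- the set of ancestors -/
def anc (par : V → V) : ℕ → V → Finset V
  | 0, v => {v}
  | n + 1, v => insert v (anc par n (par v))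

/-- the root -/
def rt (par : V → V) : ℕ → V → V
  | 0, v => v
  | n + 1, v => rt par n (par v)

/-- parents in a ranked forest on the set `D` -/
def Rk (G : SimpleGraph V) (D : Finset V) (rk : V → ℕ) (par : V → V) : Prop :=
  ∀ v ∈ D, rk v ≠ 0 → par v ∈ D ∧ G.Adj v (par v) ∧ rk (par v) + 1 = rk v

section Rk

variable {D : Finset V} {rk : V → ℕ} {par : V → V}

lemma self_mem_anc (n : ℕ) (v : V) : v ∈ anc par n v := by
  cases n with
  | zero => exact mem_singleton_self _
  | succ n => exact mem_insert_self _ _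

lemma card_anc_le : ∀ (n : ℕ) (v : V), (anc par n v).card ≤ n + 1
  | 0, v => by simp [anc]
  | n + 1, v => (card_insert_le _ _).trans (Nat.succ_le_succ (card_anc_le n (par v)))

lemma anc_sub (h : Rk G D rk par) : ∀ (n : ℕ) (v : V), v ∈ D → rk v = n → anc par n v ⊆ D
  | 0, v, hv, _ => by
    rw [anc, singleton_subset_iff]
    exact hv
  | n + 1, v, hv, hn => by
    obtain ⟨h1, -, h3⟩ := h v hv (by omega)
    exact insert_subset hv (anc_sub h n (par v) h1 (by omega))

lemma anc_closed (h : Rk G D rk par) : ∀ (n : ℕ) (v : V), v ∈ D → rk v = n →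
    ∀ u ∈ anc par n v, rk u ≠ 0 → par u ∈ anc par n v
  | 0, v, hv, hn, u, hu, hu0 => by
    rw [anc, mem_singleton] at hu
    subst hu
    exact absurd hn hu0
  | n + 1, v, hv, hn, u, hu, hu0 => by
    obtain ⟨h1, -, h3⟩ := h v hv (by omega)
    rw [anc, mem_insert] at hu
    rcases hu with rfl | hu
    · exact mem_insert_of_mem (self_mem_anc n _)
    · exact mem_insert_of_mem (anc_closed h n (par v) h1 (by omega) u hu hu0)

lemma anc_rt (h : Rk G D rk par) : ∀ (n : ℕ) (v : V), v ∈ D → rk v = n →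
    ∀ u ∈ anc par n v, rt par (rk u) u = rt par n v
  | 0, v, hv, hn, u, hu => by
    rw [anc, mem_singleton] at hu
    subst hu
    rw [hn]
  | n + 1, v, hv, hn, u, hu => by
    obtain ⟨h1, -, h3⟩ := h v hv (by omega)
    rw [anc, mem_insert] at hu
    rcases hu with rfl | hu
    · rw [hn]
    · rw [anc_rt h n (par v) h1 (by omega) u hu]
      rfl

lemma rk_rt (h : Rk G D rk par) : ∀ (n : ℕ) (v : V), v ∈ D → rk v = n →
    rk (rt par n v) = 0 ∧ rt par n v ∈ D
  | 0, v, hv, hn => ⟨hn, hv⟩
  | n + 1, v, hv, hn => by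
    obtain ⟨h1, -, h3⟩ := h v hv (by omega)
    exact rk_rt h n (par v) h1 (by omega)

lemma rt_mem_anc : ∀ (n : ℕ) (v : V), rt par n v ∈ anc par n v
  | 0, v => mem_singleton_self _
  | n + 1, v => mem_insert_of_mem (rt_mem_anc n (par v))

lemma rt_par (h : Rk G D rk par) {v : V} (hv : v ∈ D) (h0 : rk v ≠ 0) :
    rt par (rk (par v)) (par v) = rt par (rk v) v := by
  obtain ⟨h1, -, h3⟩ := h v hv h0
  obtain ⟨n, hn⟩ : ∃ n, rk v = n + 1 := ⟨rk v - 1, by omega⟩
  rw [hn, show rk (par v) = n by omega]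
  rfl

/-- the walk to the root -/
lemma anc_walk (h : Rk G D rk par) : ∀ (n : ℕ) (v : V), v ∈ D → rk v = n →
    ∃ p : G.Walk (rt par n v) v, p.length ≤ n ∧ ∀ z ∈ p.support, z ∈ anc par n v
  | 0, v, hv, hn => by
      change ∃ p : G.Walk v v, p.length ≤ 0 ∧ ∀ z ∈ p.support, z ∈ anc par 0 v
      refine ⟨Walk.nil, le_rfl, ?_⟩
      intro z hz
      rw [Walk.support_nil, List.mem_singleton] at hz
      rw [hz]
      exact mem_singleton_self _
  | n + 1, v, hv, hn => by
    obtain ⟨h1, h2, h3⟩ := h v hv (by omega)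
    obtain ⟨p, hp, hpS⟩ := anc_walk h n (par v) h1 (by omega)
    change ∃ p : G.Walk (rt par n (par v)) v, p.length ≤ n + 1 ∧
      ∀ z ∈ p.support, z ∈ anc par (n + 1) v
    refine ⟨p.append (Walk.cons h2.symm Walk.nil), ?_, ?_⟩
    · rw [Walk.length_append, Walk.length_cons, Walk.length_nil]
      omega
    · intro z hz
      rw [Walk.mem_support_append_iff] at hz
      rcases hz with hz | hz
      · exact mem_insert_of_mem (hpS z hz)
      · simp only [Walk.support_cons, Walk.support_nil, List.mem_cons, List.not_mem_nil,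
          or_false] at hz
        rcases hz with rfl | rfl
        · exact mem_insert_of_mem (self_mem_anc _ _)
        · exact mem_insert_self _ _

lemma forest_count (h : Rk G D rk par) {U : Finset V} (hUD : U ⊆ D)
    (hU : ∀ u ∈ U, rk u ≠ 0 → par u ∈ U) (E : Finset (V × V))
    (hE : ∀ p ∈ E, p.1 ∈ U ∧ p.2 ∈ U ∧ G.Adj p.1 p.2 ∧ ¬ (rk p.1 ≠ 0 ∧ p.2 = par p.1) ∧
      ¬ (rk p.2 ≠ 0 ∧ p.1 = par p.2)) :
    2 * U.card + E.card ≤ e2 G U + 2 * (U.filter (fun u => rk u = 0)).card := by
  classical
  set P1 := (U.filter (fun u => ¬ rk u = 0)).image (fun u => (u, par u)) with hP1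
  set P2 := (U.filter (fun u => ¬ rk u = 0)).image (fun u => (par u, u)) with hP2
  have c1 : P1.card = (U.filter (fun u => ¬ rk u = 0)).card :=
    card_image_of_injective _ (fun a b hab => congrArg Prod.fst hab)
  have c2 : P2.card = (U.filter (fun u => ¬ rk u = 0)).card :=
    card_image_of_injective _ (fun a b hab => congrArg Prod.snd hab)
  have c3 : (U.filter (fun u => rk u = 0)).card + (U.filter (fun u => ¬ rk u = 0)).card =
      U.card := card_filter_add_card_filter_not _
  have d12 : Disjoint P1 P2 := by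
    rw [Finset.disjoint_left]
    intro p h1 h2
    rw [hP1, mem_image] at h1
    rw [hP2, mem_image] at h2
    obtain ⟨u, hu, rfl⟩ := h1
    obtain ⟨w, hw, hw2⟩ := h2
    rw [mem_filter] at hu hw
    rw [Prod.mk.injEq] at hw2
    have e1 := (h u (hUD hu.1) hu.2).2.2
    have e2 := (h w (hUD hw.1) hw.2).2.2
    rw [hw2.1] at e2
    rw [hw2.2] at e2
    omega
  have d3 : Disjoint (P1 ∪ P2) E := by
    rw [Finset.disjoint_left]
    intro p h1 h2
    obtain ⟨-, -, -, h3, h4⟩ := hE p h2
    rw [mem_union, hP1, hP2, mem_image, mem_image] at h1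
    rcases h1 with ⟨u, hu, rfl⟩ | ⟨u, hu, rfl⟩
    · exact h3 ⟨(mem_filter.1 hu).2, rfl⟩
    · exact h4 ⟨(mem_filter.1 hu).2, rfl⟩
  have hsub : (P1 ∪ P2) ∪ E ⊆ (U ×ˢ U).filter (fun p => G.Adj p.1 p.2) := by
    intro p hp
    rw [mem_union, mem_union, hP1, hP2, mem_image, mem_image] at hp
    rw [mem_filter, mem_product]
    rcases hp with (⟨u, hu, rfl⟩ | ⟨u, hu, rfl⟩) | hp
    · rw [mem_filter] at hu
      exact ⟨⟨hu.1, hU u hu.1 hu.2⟩, (h u (hUD hu.1) hu.2).2.1⟩
    · rw [mem_filter] at hu
      exact ⟨⟨hU u hu.1 hu.2, hu.1⟩, (h u (hUD hu.1) hu.2).2.1.symm⟩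
    · obtain ⟨h1, h2, h3, -, -⟩ := hE p hp
      exact ⟨⟨h1, h2⟩, h3⟩
  have h4 := card_le_card hsub
  rw [card_union_of_disjoint d3, card_union_of_disjoint d12, ← e2_eq] at h4
  omega

/-- edges inside a tree go to the parents -/
lemma noextra (h : Rk G D rk par) {g m : ℕ} (hs : Sparse G D g) (hg : 2 * (m + 1) ≤ g)
    {a b : V} (ha : a ∈ D) (hb : b ∈ D) (hma : rk a ≤ m) (hmb : rk b ≤ m)
    (hab : G.Adj a b) (hr : rt par (rk a) a = rt par (rk b) b) :
    (rk a ≠ 0 ∧ b = par a) ∨ (rk b ≠ 0 ∧ a = par b) := by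
  classical
  by_contra hcon
  push Not at hcon
  obtain ⟨hc1, hc2⟩ := hcon
  set U := anc par (rk a) a ∪ anc par (rk b) b with hU
  have hUD : U ⊆ D := union_subset (anc_sub h _ a ha rfl) (anc_sub h _ b hb rfl)
  have haU : a ∈ U := mem_union_left _ (self_mem_anc _ _)
  have hbU : b ∈ U := mem_union_right _ (self_mem_anc _ _)
  have h1 := forest_count h hUD (by
    intro u hu h0
    rw [hU, mem_union] at hu
    rcases hu with hu | hu
    · exact mem_union_left _ (anc_closed h _ a ha rfl u hu h0)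
    · exact mem_union_right _ (anc_closed h _ b hb rfl u hu h0)) {(a, b), (b, a)} (by
    intro p hp
    rw [mem_insert, mem_singleton] at hp
    rcases hp with rfl | rfl
    · exact ⟨haU, hbU, hab, fun h' => hc1 h'.1 h'.2, fun h' => hc2 h'.1 h'.2⟩
    · exact ⟨hbU, haU, hab.symm, fun h' => hc2 h'.1 h'.2, fun h' => hc1 h'.1 h'.2⟩)
  rw [card_pair (fun h' => hab.ne (congrArg Prod.fst h'))] at h1
  have h2 : (U.filter (fun u => rk u = 0)).card ≤ 1 := by
    rw [card_le_one]
    have key : ∀ u ∈ U.filter (fun u => rk u = 0), u = rt par (rk a) a := by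
      intro u hu
      rw [mem_filter, hU, mem_union] at hu
      obtain ⟨hu | hu, h0⟩ := hu
      · have := anc_rt h _ a ha rfl u hu
        rw [h0] at this
        exact this
      · have := anc_rt h _ b hb rfl u hu
        rw [h0] at this
        rw [hr]
        exact this
    intro u hu w hw
    rw [key u hu, key w hw]
  have h3 : U.card ≤ g := by
    refine (card_union_le _ _).trans ?_
    have e1 := card_anc_le (par := par) (rk a) a
    have e2 := card_anc_le (par := par) (rk b) b
    omega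
  have h4 := hs U hUD ⟨a, haU⟩ h3
  omega

/-- two trees are joined by at most one edge -/
lemma nodouble (h : Rk G D rk par) {g m : ℕ} (hs : Sparse G D g) (hg : 4 * (m + 1) ≤ g)
    (hm : ∀ v ∈ D, rk v ≤ m) {a b a' b' : V} (ha : a ∈ D) (hb : b ∈ D) (ha' : a' ∈ D)
    (hb' : b' ∈ D) (hab : G.Adj a b) (hab' : G.Adj a' b')
    (hra : rt par (rk a) a = rt par (rk a') a') (hrb : rt par (rk b) b = rt par (rk b') b')
    (hne : rt par (rk a) a ≠ rt par (rk b) b) : (a, b) = (a', b') := by
  classical
  by_contra hcon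
  set x := rt par (rk a) a with hx
  set y := rt par (rk b) b with hy
  set U := (anc par (rk a) a ∪ anc par (rk a') a') ∪ (anc par (rk b) b ∪ anc par (rk b') b')
    with hU
  have hUD : U ⊆ D := union_subset
    (union_subset (anc_sub h _ a ha rfl) (anc_sub h _ a' ha' rfl))
    (union_subset (anc_sub h _ b hb rfl) (anc_sub h _ b' hb' rfl))
  have haU : a ∈ U := mem_union_left _ (mem_union_left _ (self_mem_anc _ _))
  have haU' : a' ∈ U := mem_union_left _ (mem_union_right _ (self_mem_anc _ _))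
  have hbU : b ∈ U := mem_union_right _ (mem_union_left _ (self_mem_anc _ _))
  have hbU' : b' ∈ U := mem_union_right _ (mem_union_right _ (self_mem_anc _ _))
  have hpar : ∀ u ∈ D, ∀ w ∈ D, rt par (rk u) u ≠ rt par (rk w) w → ¬ (rk u ≠ 0 ∧ w = par u) := by
    rintro u hu w hw huw ⟨h0, rfl⟩
    exact huw (rt_par h hu h0).symm
  have hne' : rt par (rk a') a' ≠ rt par (rk b') b' := by rw [← hra, ← hrb]; exact hne
  have h1 := forest_count h hUD (by
    intro u hu h0
    rw [hU, mem_union, mem_union, mem_union] at hu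
    rcases hu with (hu | hu) | (hu | hu)
    · exact mem_union_left _ (mem_union_left _ (anc_closed h _ a ha rfl u hu h0))
    · exact mem_union_left _ (mem_union_right _ (anc_closed h _ a' ha' rfl u hu h0))
    · exact mem_union_right _ (mem_union_left _ (anc_closed h _ b hb rfl u hu h0))
    · exact mem_union_right _ (mem_union_right _ (anc_closed h _ b' hb' rfl u hu h0)))
    ({(a, b), (a', b')} ∪ {(b, a), (b', a')}) (by
    intro p hp
    rw [mem_union, mem_insert, mem_singleton, mem_insert, mem_singleton] at hp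
    rcases hp with (rfl | rfl) | (rfl | rfl)
    · exact ⟨haU, hbU, hab, hpar a ha b hb hne, hpar b hb a ha hne.symm⟩
    · exact ⟨haU', hbU', hab', hpar a' ha' b' hb' hne', hpar b' hb' a' ha' hne'.symm⟩
    · exact ⟨hbU, haU, hab.symm, hpar b hb a ha hne.symm, hpar a ha b hb hne⟩
    · exact ⟨hbU', haU', hab'.symm, hpar b' hb' a' ha' hne'.symm, hpar a' ha' b' hb' hne'⟩)
  have hcard : ({(a, b), (a', b')} ∪ {(b, a), (b', a')} : Finset (V × V)).card = 4 := by
    rw [card_union_of_disjoint, card_pair hcon, card_pair]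
    · intro h'
      rw [Prod.mk.injEq] at h'
      exact hcon (by rw [h'.1, h'.2])
    · rw [Finset.disjoint_left]
      intro p hp hp'
      rw [mem_insert, mem_singleton] at hp hp'
      rcases hp with rfl | rfl <;> rcases hp' with h' | h' <;> rw [Prod.mk.injEq] at h'
      · exact hab.ne h'.1
      · apply hne
        rw [hx, h'.1, ← hrb]
      · apply hne
        rw [hra, h'.1]
      · exact hab'.ne h'.1
  rw [hcard] at h1
  have h2 : (U.filter (fun u => rk u = 0)).card ≤ 2 := by
    have key : U.filter (fun u => rk u = 0) ⊆ {x, y} := by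
      intro u hu
      rw [mem_insert, mem_singleton]
      rw [mem_filter, hU, mem_union, mem_union, mem_union] at hu
      obtain ⟨(hu | hu) | (hu | hu), h0⟩ := hu
      · have := anc_rt h _ a ha rfl u hu
        rw [h0] at this
        exact Or.inl this
      · have := anc_rt h _ a' ha' rfl u hu
        rw [h0, ← hra] at this
        exact Or.inl this
      · have := anc_rt h _ b hb rfl u hu
        rw [h0] at this
        exact Or.inr this
      · have := anc_rt h _ b' hb' rfl u hu
        rw [h0, ← hrb] at this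
        exact Or.inr this
    exact (card_le_card key).trans card_le_two
  have h3 : U.card ≤ g := by
    refine (card_union_le _ _).trans ?_
    have e1 := card_anc_le (par := par) (rk a) a
    have e2 := card_anc_le (par := par) (rk b) b
    have e3 := card_anc_le (par := par) (rk a') a'
    have e4 := card_anc_le (par := par) (rk b') b'
    have f1 := card_union_le (anc par (rk a) a) (anc par (rk a') a')
    have f2 := card_union_le (anc par (rk b) b) (anc par (rk b') b')
    have m1 := hm a ha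
    have m2 := hm b hb
    have m3 := hm a' ha'
    have m4 := hm b' hb'
    omega
  have h4 := hs U hUD ⟨a, haU⟩ h3
  omega

/-- a tree has few edges -/
lemma e2_tree {T : Finset V}
    (hT : ∀ a ∈ T, ∀ b ∈ T, G.Adj a b → (rk a ≠ 0 ∧ b = par a) ∨ (rk b ≠ 0 ∧ a = par b))
    {r : V} (hr : r ∈ T) (hr0 : rk r = 0) : e2 G T + 2 ≤ 2 * T.card := by
  classical
  have hsub : (T ×ˢ T).filter (fun p => G.Adj p.1 p.2) ⊆
      (T.filter (fun u => ¬ rk u = 0)).image (fun u => (u, par u)) ∪
      (T.filter (fun u => ¬ rk u = 0)).image (fun u => (par u, u)) := by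
    rintro ⟨a, b⟩ hp
    rw [mem_filter, mem_product] at hp
    obtain ⟨⟨ha, hb⟩, hab⟩ := hp
    rw [mem_union, mem_image, mem_image]
    rcases hT a ha b hb hab with ⟨h1, h2⟩ | ⟨h1, h2⟩
    · exact Or.inl ⟨a, mem_filter.2 ⟨ha, h1⟩, by rw [← h2]⟩
    · exact Or.inr ⟨b, mem_filter.2 ⟨hb, h1⟩, by rw [← h2]⟩
  have h1 := (card_le_card hsub).trans (card_union_le _ _)
  rw [← e2_eq] at h1
  have h2 : (T.filter (fun u => ¬ rk u = 0)).card + 1 ≤ T.card := by
    have : T.filter (fun u => ¬ rk u = 0) ⊆ T.erase r := by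
      intro u hu
      rw [mem_filter] at hu
      rw [mem_erase]
      exact ⟨fun h' => hu.2 (by rw [h', hr0]), hu.1⟩
    have h3 := card_le_card this
    rw [card_erase_of_mem hr] at h3
    have : 0 < T.card := card_pos.2 ⟨r, hr⟩
    omega
  have h3 := card_image_le (s := T.filter (fun u => ¬ rk u = 0)) (f := fun u => (u, par u))
  have h4 := card_image_le (s := T.filter (fun u => ¬ rk u = 0)) (f := fun u => (par u, u))
  omega

end Rk

/-! ### Balls -/

open Classical in
/-- the vertices at distance at most `n` from `X` -/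
noncomputable def bl (G : SimpleGraph V) (X : Finset V) (n : ℕ) : Finset V :=
  univ.filter (fun v => ∃ x ∈ X, ∃ p : G.Walk x v, p.length ≤ n)

lemma mem_bl {X : Finset V} {n : ℕ} {v : V} :
    v ∈ bl G X n ↔ ∃ x ∈ X, ∃ p : G.Walk x v, p.length ≤ n := by
  classical
  unfold bl
  rw [mem_filter]
  exact ⟨fun h => h.2, fun h => ⟨mem_univ _, h⟩⟩

lemma bl_zero (X : Finset V) : bl G X 0 = X := by
  ext v
  rw [mem_bl]
  constructor
  · rintro ⟨x, hx, p, hp⟩
    have := p.eq_of_length_eq_zero (by omega)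
    rwa [← this]
  · intro hv
    exact ⟨v, hv, Walk.nil, le_rfl⟩

lemma bl_mono {X : Finset V} {m n : ℕ} (h : m ≤ n) : bl G X m ⊆ bl G X n := by
  intro v hv
  rw [mem_bl] at hv ⊢
  obtain ⟨x, hx, p, hp⟩ := hv
  exact ⟨x, hx, p, hp.trans h⟩

lemma bl_step {X : Finset V} {n : ℕ} {u v : V} (hu : u ∈ bl G X n) (huv : G.Adj u v) :
    v ∈ bl G X (n + 1) := by
  rw [mem_bl] at hu ⊢
  obtain ⟨x, hx, p, hp⟩ := hu
  refine ⟨x, hx, p.append (Walk.cons huv Walk.nil), ?_⟩
  rw [Walk.length_append, Walk.length_cons, Walk.length_nil]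
  omega

lemma bl_succ {X : Finset V} {n : ℕ} {v : V} (hv : v ∈ bl G X (n + 1)) (hv' : v ∉ bl G X n) :
    ∃ u ∈ bl G X n, G.Adj v u := by
  rw [mem_bl] at hv
  obtain ⟨x, hx, p, hp⟩ := hv
  have hlen : p.length = n + 1 := by
    by_contra hne
    exact hv' (mem_bl.2 ⟨x, hx, p, by omega⟩)
  -- the last step of the walk
  have key : ∀ {v w : V} (q : G.Walk v w), ∀ m, q.length = m + 1 →
      ∃ u, G.Adj v u ∧ ∃ q' : G.Walk u w, q'.length = m := by
    intro v w q m hq
    cases q with
    | nil => simp at hq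
    | cons h q => exact ⟨_, h, q, by simpa using hq⟩
  obtain ⟨u, hvu, q, hq⟩ := key p.reverse n (by rw [Walk.length_reverse, hlen])
  exact ⟨u, mem_bl.2 ⟨x, hx, q.reverse, by rw [Walk.length_reverse, hq]⟩, hvu⟩

/-- the distance from `X` -/
noncomputable def rk (G : SimpleGraph V) (X : Finset V) (v : V) : ℕ := sInf {n | v ∈ bl G X n}

open Classical in
/-- a neighbour that is closer to `X` -/
noncomputable def pr (G : SimpleGraph V) (X : Finset V) (v : V) : V :=
  if h : ∃ u, G.Adj v u ∧ u ∈ bl G X (rk G X v - 1) then h.choose else v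

lemma rk_le {X : Finset V} {n : ℕ} {v : V} (h : v ∈ bl G X n) : rk G X v ≤ n := Nat.sInf_le h

lemma mem_rk {X : Finset V} {n : ℕ} {v : V} (h : v ∈ bl G X n) : v ∈ bl G X (rk G X v) :=
  Nat.sInf_mem (s := {n | v ∈ bl G X n}) ⟨n, h⟩

lemma rk_spec (X : Finset V) (m : ℕ) : Rk G (bl G X m) (rk G X) (pr G X) := by
  intro v hv h0
  obtain ⟨n, hn⟩ : ∃ n, rk G X v = n + 1 := ⟨rk G X v - 1, by omega⟩
  have h1 := mem_rk hv
  have h2 := rk_le hv
  rw [hn] at h1
  have h3 : v ∉ bl G X n := fun h => by
    have := rk_le h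
    omega
  have hex : ∃ u, G.Adj v u ∧ u ∈ bl G X (rk G X v - 1) := by
    obtain ⟨u, hu, hvu⟩ := bl_succ h1 h3
    exact ⟨u, hvu, by rw [hn]; exact hu⟩
  have hpr : pr G X v = hex.choose := by
    unfold pr
    exact dif_pos hex
  obtain ⟨h4, h5⟩ := hex.choose_spec
  rw [← hpr] at h4 h5
  rw [hn, Nat.add_sub_cancel] at h5
  refine ⟨bl_mono (by omega) h5, h4, ?_⟩
  have h6 := rk_le h5
  by_contra hne
  obtain ⟨l, hl⟩ : ∃ l, n = l + 1 := ⟨n - 1, by omega⟩
  have h7 : pr G X v ∈ bl G X l := bl_mono (by omega) (mem_rk h5)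
  apply h3
  rw [hl]
  exact bl_step h7 h4.symm

/-- the size of balls -/
lemma card_bl {d g k : ℕ} (hd : ∀ v, d + 2 ≤ dg G univ v) (hs : Sparse G univ g)
    (hg : 2 * (k + 1) ≤ g) (x : V) : ∀ n ≤ k, (d + 1) ^ n ≤ (bl G {x} n).card := by
  classical
  intro n
  induction n with
  | zero =>
    intro _
    rw [bl_zero]
    simp
  | succ n ih =>
    intro hn
    have hT := ih (by omega)
    set T := bl G {x} n with hTdef
    have hR := rk_spec (G := G) {x} (n + 1)
    have hs' : Sparse G (bl G {x} (n + 1)) g := fun U _ h1 h2 => hs U (subset_univ _) h1 h2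
    have hroot : ∀ v ∈ bl G {x} (n + 1), rt (pr G {x}) (rk G {x} v) v = x := by
      intro v hv
      obtain ⟨h1, h2⟩ := rk_rt hR _ v hv rfl
      have h3 := mem_rk h2
      rw [h1, bl_zero, mem_singleton] at h3
      exact h3
    have hex := fun a (ha : a ∈ bl G {x} (n + 1)) b (hb : b ∈ bl G {x} (n + 1)) hab =>
      noextra hR hs' (m := k) hg ha hb ((rk_le ha).trans hn) ((rk_le hb).trans hn) hab
        ((hroot a ha).trans (hroot b hb).symm)
    have hTS : T ⊆ bl G {x} (n + 1) := bl_mono (by omega)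
    have hxT : x ∈ T := mem_bl.2 ⟨x, mem_singleton_self _, Walk.nil, Nat.zero_le _⟩
    have hx0 : rk G {x} x = 0 := by
      have : x ∈ bl G {x} 0 := by rw [bl_zero]; exact mem_singleton_self _
      have := rk_le this
      omega
    have h1 := e2_tree (rk := rk G {x}) (par := pr G {x}) (fun a ha b hb hab => hex a (hTS ha) b (hTS hb) hab) hxT hx0
    -- the leaving edges
    have h2 : (d + 2) * T.card ≤ ∑ a ∈ T, dg G univ a := by
      rw [mul_comm, ← smul_eq_mul, ← sum_const]
      exact sum_le_sum (fun a _ => hd a)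
    have h3 : ∑ a ∈ T, dg G univ a = e2 G T + ((T ×ˢ Tᶜ).filter (fun p => G.Adj p.1 p.2)).card := by
      rw [card_filter, sum_product]
      unfold e2
      rw [← sum_add_distrib]
      refine sum_congr rfl fun a _ => ?_
      unfold dg
      rw [← card_filter, ← card_union_of_disjoint (disjoint_filter_filter disjoint_compl_right),
        ← filter_union, union_compl]
    have h4 : ((T ×ˢ Tᶜ).filter (fun p => G.Adj p.1 p.2)).card ≤
        (bl G {x} (n + 1) \ T).card := by
      apply card_le_card_of_injOn (fun p => p.2)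
      · rintro ⟨a, b⟩ hp
        rw [mem_coe, mem_filter, mem_product, mem_compl] at hp
        rw [mem_coe, mem_sdiff]
        exact ⟨bl_step hp.1.1 hp.2, hp.1.2⟩
      · rintro ⟨a, b⟩ hp ⟨a', b'⟩ hp' heq
        simp only at heq
        subst heq
        rw [mem_coe, mem_filter, mem_product, mem_compl] at hp hp'
        simp only at hp hp'
        have hb : b ∈ bl G {x} (n + 1) := bl_step hp.1.1 hp.2
        have hrb : ¬ rk G {x} b ≤ n := fun h =>
          hp.1.2 (bl_mono h (mem_rk hb))
        have key : ∀ a ∈ T, G.Adj a b → a = pr G {x} b := by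
          intro a ha hab
          rcases hex a (hTS ha) b hb hab with h | h
          · exfalso
            have h5 := (hR a (hTS ha) h.1).2.2
            rw [← h.2] at h5
            have := rk_le ha
            omega
          · exact h.2
        rw [key a hp.1.1 hp.2, key a' hp'.1.1 hp'.2]
    have h5 : (bl G {x} (n + 1) \ T).card + T.card = (bl G {x} (n + 1)).card :=
      card_sdiff_add_card_eq_card hTS
    have h6 : (d + 1) * T.card ≤ (bl G {x} (n + 1)).card := by nlinarith
    calc (d + 1) ^ (n + 1) = (d + 1) * (d + 1) ^ n := by rw [pow_succ, mul_comm]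
      _ ≤ (d + 1) * T.card := Nat.mul_le_mul_left _ hT
      _ ≤ _ := h6

/-- the dense minor -/
theorem dense [Nonempty V] {d k : ℕ} (hd : ∀ v, d + 2 ≤ dg G univ v)
    (hs : Sparse G univ (8 * k + 4)) :
    ∃ (Γ : SimpleGraph V) (X : Finset V), X.Nonempty ∧
      (∀ x ∈ X, d * (d + 1) ^ k ≤ dg Γ X x) ∧
      ∀ (W : Type) (H : SimpleGraph W), Mod H Γ X → Mod H G univ := by
  classical
  -- a maximal packing of balls
  obtain ⟨X, hX, hmax⟩ := exists_max_image
    ((univ : Finset (Finset V)).filter (fun X => ∀ x ∈ X, ∀ y ∈ X, x ≠ y →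
      Disjoint (bl G {x} k) (bl G {y} k))) (fun X => X.card) ⟨∅, by simp⟩
  rw [mem_filter] at hX
  obtain ⟨-, hX⟩ := hX
  have hcov : ∀ v, v ∈ bl G X (2 * k) := by
    intro v
    by_contra hv
    have hvX : v ∉ X := fun h => hv (mem_bl.2 ⟨v, h, Walk.nil, Nat.zero_le _⟩)
    have hdis : ∀ x ∈ X, Disjoint (bl G {x} k) (bl G {v} k) := by
      intro x hx
      rw [Finset.disjoint_left]
      intro w hw hw'
      apply hv
      rw [mem_bl] at hw hw' ⊢
      obtain ⟨x', hx', p, hp⟩ := hw
      obtain ⟨v', hv', q, hq⟩ := hw'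
      rw [mem_singleton] at hx' hv'
      subst hx' hv'
      refine ⟨_, hx, p.append q.reverse, ?_⟩
      rw [Walk.length_append, Walk.length_reverse]
      omega
    have h1 := hmax (insert v X) (by
      rw [mem_filter]
      refine ⟨mem_univ _, ?_⟩
      intro x hx y hy hxy
      rw [mem_insert] at hx hy
      rcases hx with rfl | hx <;> rcases hy with rfl | hy
      · exact absurd rfl hxy
      · exact (hdis y hy).symm
      · exact hdis x hx
      · exact hX x hx y hy hxy)
    rw [card_insert_of_notMem hvX] at h1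
    omega
  have hR : Rk G univ (rk G X) (pr G X) := by
    have h := rk_spec (G := G) X (2 * k)
    have he : bl G X (2 * k) = univ := by
      ext v
      simp [hcov v]
    rwa [he] at h
  have hrk : ∀ v, rk G X v ≤ 2 * k := fun v => rk_le (hcov v)
  let root : V → V := fun v => rt (pr G X) (rk G X v) v
  have hroot : ∀ v, root v ∈ X := by
    intro v
    obtain ⟨h1, -⟩ := rk_rt hR _ v (mem_univ v) rfl
    have h3 := mem_rk (hcov (root v))
    rw [h1, bl_zero] at h3
    exact h3
  have hrootX : ∀ x ∈ X, rk G X x = 0 ∧ root x = x := by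
    intro x hx
    have h0 : rk G X x = 0 := by
      have : x ∈ bl G X 0 := by rw [bl_zero]; exact hx
      have := rk_le this
      omega
    refine ⟨h0, ?_⟩
    change rt (pr G X) (rk G X x) x = x
    rw [h0]
    rfl
  -- cells contain balls
  have hball : ∀ x ∈ X, ∀ v ∈ bl G {x} k, root v = x := by
    intro x hx v hv
    by_contra hne
    have h1 : v ∈ bl G X k := by
      rw [mem_bl] at hv ⊢
      obtain ⟨x', hx', p, hp⟩ := hv
      rw [mem_singleton] at hx'
      subst hx'
      exact ⟨_, hx, p, hp⟩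
    obtain ⟨p, hp, -⟩ := anc_walk hR _ v (mem_univ v) rfl
    have h2 : v ∈ bl G {root v} k :=
      mem_bl.2 ⟨_, mem_singleton_self _, p, hp.trans (rk_le h1)⟩
    exact Finset.disjoint_left.1 (hX (root v) (hroot v) x hx hne) h2 hv
  obtain ⟨v0⟩ := (inferInstance : Nonempty V)
  obtain ⟨Γ, hΓ⟩ : ∃ Γ : SimpleGraph V, ∀ x y, Γ.Adj x y ↔
      (x ≠ y ∧ ∃ a b, root a = x ∧ root b = y ∧ G.Adj a b) :=
    ⟨{ Adj := fun x y => x ≠ y ∧ ∃ a b, root a = x ∧ root b = y ∧ G.Adj a b
       symm := ⟨by
        rintro x y ⟨h, a, b, ha, hb, hab⟩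
        exact ⟨h.symm, b, a, hb, ha, hab.symm⟩⟩
       loopless := ⟨fun x h => h.1 rfl⟩ }, fun _ _ => Iff.rfl⟩
  refine ⟨Γ, X, ⟨root v0, hroot v0⟩, ?_, ?_⟩
  · intro x hx
    set T := univ.filter (fun v => root v = x) with hT
    have hxT : x ∈ T := mem_filter.2 ⟨mem_univ _, (hrootX x hx).2⟩
    have hmT : ∀ v, v ∈ T ↔ root v = x := fun v => by
      rw [hT, mem_filter]
      exact ⟨fun h => h.2, fun h => ⟨mem_univ _, h⟩⟩
    have h1 := e2_tree (rk := rk G X) (par := pr G X) (fun a ha b hb hab =>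
      noextra hR hs (m := 2 * k) (by omega) (mem_univ a) (mem_univ b) (hrk a) (hrk b) hab
        (((hmT a).1 ha).trans ((hmT b).1 hb).symm)) hxT (hrootX x hx).1
    have h2 : (d + 2) * T.card ≤ ∑ a ∈ T, dg G univ a := by
      rw [mul_comm, ← smul_eq_mul, ← sum_const]
      exact sum_le_sum (fun a _ => hd a)
    have h3 : ∑ a ∈ T, dg G univ a = e2 G T + ((T ×ˢ Tᶜ).filter (fun p => G.Adj p.1 p.2)).card := by
      rw [card_filter, sum_product]
      unfold e2
      rw [← sum_add_distrib]
      refine sum_congr rfl fun a _ => ?_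
      unfold dg
      rw [← card_filter, ← card_union_of_disjoint (disjoint_filter_filter disjoint_compl_right),
        ← filter_union, union_compl]
    have h4 : ((T ×ˢ Tᶜ).filter (fun p => G.Adj p.1 p.2)).card ≤ dg Γ X x := by
      unfold dg
      apply card_le_card_of_injOn (fun p => root p.2)
      · rintro ⟨a, b⟩ hp
        rw [mem_coe, mem_filter, mem_product, mem_compl, hmT, hmT] at hp
        rw [mem_coe, mem_filter]
        exact ⟨hroot _, (hΓ _ _).2 ⟨fun h => hp.1.2 h.symm, a, b, hp.1.1, rfl, hp.2⟩⟩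
      · rintro ⟨a, b⟩ hp ⟨a', b'⟩ hp' heq
        rw [mem_coe, mem_filter, mem_product, mem_compl, hmT, hmT] at hp hp'
        simp only at hp hp' heq
        exact nodouble hR hs (m := 2 * k) (by omega) (fun v _ => hrk v) (mem_univ a)
          (mem_univ b) (mem_univ a') (mem_univ b') hp.2 hp'.2 (hp.1.1.trans hp'.1.1.symm) heq
          (fun h => hp.1.2 (h.symm.trans hp.1.1))
    have h5 : (d + 1) ^ k ≤ T.card := by
      refine (card_bl (g := 8 * k + 4) (k := k) hd hs (by omega) x k le_rfl).trans ?_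
      apply card_le_card
      intro v hv
      rw [hmT]
      exact hball x hx v hv
    have h6 : d * T.card ≤ dg Γ X x := by nlinarith
    exact (Nat.mul_le_mul_left d h5).trans h6
  · intro W H hM
    refine hM.trans (fun x => univ.filter (fun v => root v = x)) ?_ ?_ ?_ ?_ ?_
    · intro x _
      exact subset_univ _
    · intro x hx
      exact ⟨x, mem_filter.2 ⟨mem_univ _, (hrootX x hx).2⟩⟩
    · intro x hx a ha b hb
      rw [mem_filter] at ha hb
      have key : ∀ v, root v = x → ∃ p : G.Walk x v, ∀ z ∈ p.support, root z = x := by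
        intro v hv
        obtain ⟨p, -, hp⟩ := anc_walk hR _ v (mem_univ v) rfl
        subst hv
        exact ⟨p, fun z hz => anc_rt hR _ v (mem_univ v) rfl z (hp z hz)⟩
      obtain ⟨p, hp⟩ := key a ha.2
      obtain ⟨q, hq⟩ := key b hb.2
      refine ⟨p.reverse.append q, ?_⟩
      intro z hz
      rw [mem_filter]
      refine ⟨mem_univ _, ?_⟩
      rw [Walk.mem_support_append_iff, Walk.support_reverse, List.mem_reverse] at hz
      rcases hz with hz | hz
      · exact hp z hz
      · exact hq z hz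
    · intro x _ y _ hxy
      rw [Finset.disjoint_left]
      intro v hv hv'
      rw [mem_filter] at hv hv'
      exact hxy (hv.2.symm.trans hv'.2)
    · intro x _ y _ hxy
      obtain ⟨-, a, b, ha, hb, hab⟩ := (hΓ x y).1 hxy
      exact ⟨a, mem_filter.2 ⟨mem_univ _, ha⟩, b, mem_filter.2 ⟨mem_univ _, hb⟩, hab⟩

end Pool.Agent.Q276.Tw
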