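import Mathlib
import Pool.Agent.Q276.Dense

/-!
Thresholds: `Force H k` says that every graph of treewidth at least `k` has a minor `H`.
Forests, sums of graphs and pendant vertices.
-/

set_option autoImplicit false
set_option linter.unusedSectionVars false

namespace Pool.Agent.Q276.Tw

open SimpleGraph Finset
open Pool.Agent.W126.TAC Pool.Agent.W126.Split

/-- every vertex set of treewidth at least `k` contains a model of `H` -/
def Force {W : Type} (H : SimpleGraph W) (k : ℕ) : Prop :=
  ∀ (V : Type) [Fintype V] [DecidableEq V] (G : SimpleGraph V) (S : Finset V),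
    ¬ Bw G S k → Mod H G S

lemma Force.mono {W : Type} {H : SimpleGraph W} {k l : ℕ} (h : Force H k) (hkl : k ≤ l) :
    Force H l :=
  fun V _ _ G S hb => h V G S (fun hb' => hb (hb'.mono Subset.rfl hkl))

/-- subgraphs of minors are minors -/
lemma Mod.of_hom {V : Type} [Fintype V] [DecidableEq V] {G : SimpleGraph V} {S : Finset V}
    {W W' : Type} {H : SimpleGraph W} {H' : SimpleGraph W'} (h : Mod H G S) (φ : W' → W)
    (hφ : Function.Injective φ) (hadj : ∀ x y, H'.Adj x y → H.Adj (φ x) (φ y)) : Mod H' G S := by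
  obtain ⟨B, h1, h2, h3, h4, h5⟩ := h
  exact ⟨fun x => B (φ x), fun x => h1 _, fun x => h2 _, fun x => h3 _,
    fun x y hxy => h4 _ _ (fun h => hxy (hφ h)), fun x y hxy => h5 _ _ (hadj x y hxy)⟩

lemma Force.of_hom {W W' : Type} {H : SimpleGraph W} {H' : SimpleGraph W'} {k : ℕ}
    (h : Force H k) (φ : W' → W) (hφ : Function.Injective φ)
    (hadj : ∀ x y, H'.Adj x y → H.Adj (φ x) (φ y)) : Force H' k :=
  fun V _ _ G S hb => (h V G S hb).of_hom φ hφ hadj

/-- the least threshold -/
noncomputable def thr {W : Type} (H : SimpleGraph W) : ℕ := sInf {k | Force H k}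

/-- there is a threshold -/
def Ex {W : Type} (H : SimpleGraph W) : Prop := ∃ k, Force H k

lemma Ex.force {W : Type} {H : SimpleGraph W} (h : Ex H) : Force H (thr H) :=
  Nat.sInf_mem (s := {k | Force H k}) h

lemma thr_le {W : Type} {H : SimpleGraph W} {k : ℕ} (h : Force H k) : thr H ≤ k := Nat.sInf_le h

lemma Ex.not {W : Type} {H : SimpleGraph W} (h : Ex H) {k : ℕ} (hk : k < thr H) : ¬ Force H k :=
  fun h' => absurd (thr_le h') (not_le.2 hk)

lemma thr_mono {W W' : Type} {H : SimpleGraph W} {H' : SimpleGraph W'} (h : Ex H) (φ : W' → W)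
    (hφ : Function.Injective φ) (hadj : ∀ x y, H'.Adj x y → H.Adj (φ x) (φ y)) :
    Ex H' ∧ thr H' ≤ thr H :=
  ⟨⟨_, h.force.of_hom φ hφ hadj⟩, thr_le (h.force.of_hom φ hφ hadj)⟩

lemma thr_iso {W W' : Type} {H : SimpleGraph W} {H' : SimpleGraph W'} (e : H ≃g H') :
    (Ex H → Ex H') ∧ (Ex H → thr H' = thr H) := by
  refine ⟨fun h => (thr_mono h e.symm e.symm.injective fun x y hxy => e.symm.map_adj_iff.2 hxy).1,
    fun h => ?_⟩
  have h1 := thr_mono h e.symm e.symm.injective fun x y hxy => e.symm.map_adj_iff.2 hxy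
  have h2 := thr_mono h1.1 e e.injective fun x y hxy => e.map_adj_iff.2 hxy
  exact le_antisymm h1.2 h2.2

/-! ### Counting edges -/

section Count

variable {V : Type} [Fintype V] [DecidableEq V] {G : SimpleGraph V}

lemma even_e2 : ∀ (n : ℕ) (U : Finset V), U.card = n → Even (e2 G U) := by
  intro n
  induction n with
  | zero =>
    intro U hU
    rw [card_eq_zero] at hU
    subst hU
    simp [e2]
  | succ n ih =>
    intro U hU
    obtain ⟨v, hv⟩ : U.Nonempty := card_pos.1 (by omega)
    rw [e2_erase hv]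
    exact (ih _ (by rw [card_erase_of_mem hv]; omega)).add (even_two_mul _)

/-- the counts in an induced subgraph -/
lemma dg_emb {V' : Type} [Fintype V'] [DecidableEq V'] {G' : SimpleGraph V'} (φ : V' ↪ V)
    (hφ : ∀ x y, G'.Adj x y ↔ G.Adj (φ x) (φ y)) (S : Finset V') (x : V') :
    dg G' S x = dg G (S.map φ) (φ x) := by
  classical
  unfold dg
  rw [filter_map, card_map]
  congr 1
  ext y
  rw [mem_filter, mem_filter, hφ]
  rfl

lemma e2_emb {V' : Type} [Fintype V'] [DecidableEq V'] {G' : SimpleGraph V'} (φ : V' ↪ V)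
    (hφ : ∀ x y, G'.Adj x y ↔ G.Adj (φ x) (φ y)) (S : Finset V') :
    e2 G' S = e2 G (S.map φ) := by
  unfold e2
  rw [sum_map]
  exact sum_congr rfl fun x _ => dg_emb φ hφ S x

/-- forests: every nonempty set has a vertex with at most one neighbour in the set -/
def Forest (G : SimpleGraph V) : Prop :=
  ∀ U : Finset V, U.Nonempty → ∃ v ∈ U, dg G U v ≤ 1

lemma exists_of_e2_lt {U : Finset V} (h : e2 G U < 2 * U.card) : ∃ v ∈ U, dg G U v ≤ 1 := by
  by_contra hcon
  push Not at hcon
  have : 2 * U.card ≤ e2 G U := by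
    unfold e2
    rw [mul_comm, ← smul_eq_mul, ← sum_const]
    exact sum_le_sum fun v hv => hcon v hv
  omega

lemma Forest.emb {V' : Type} [Fintype V'] [DecidableEq V'] {G' : SimpleGraph V'} (h : Forest G)
    (φ : V' ↪ V) (hφ : ∀ x y, G'.Adj x y ↔ G.Adj (φ x) (φ y)) : Forest G' := by
  intro U hU
  obtain ⟨v, hv, hd⟩ := h (U.map φ) (hU.map)
  rw [mem_map] at hv
  obtain ⟨x, hx, rfl⟩ := hv
  exact ⟨x, hx, by rw [dg_emb φ hφ]; exact hd⟩

lemma Forest.e2_le (h : Forest G) : ∀ (n : ℕ) (U : Finset V), U.card = n + 1 →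
    e2 G U ≤ 2 * n := by
  intro n
  induction n with
  | zero =>
    intro U hU
    obtain ⟨x, rfl⟩ := card_eq_one.1 hU
    have : dg G {x} x = 0 := by
      classical
      unfold dg
      rw [card_eq_zero, filter_eq_empty_iff]
      intro y hy
      rw [mem_singleton] at hy
      subst hy
      exact G.loopless.irrefl _
    simp [e2, this]
  | succ n ih =>
    intro U hU
    obtain ⟨v, hv, hd⟩ := h U (card_pos.1 (by omega))
    have h1 := e2_erase (G := G) hv
    have h2 := ih (U.erase v) (by rw [card_erase_of_mem hv]; omega)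
    omega

lemma Forest.e2_le' (h : Forest G) (U : Finset V) : e2 G U ≤ 2 * U.card := by
  rcases Nat.eq_zero_or_pos U.card with h0 | h0
  · rw [card_eq_zero] at h0
    subst h0
    simp [e2]
  · have := h.e2_le (U.card - 1) U (by omega)
    omega

lemma e2_eq_zero {U : Finset V} (h : e2 G U = 0) : ∀ a ∈ U, ∀ b ∈ U, ¬ G.Adj a b := by
  classical
  intro a ha b hb hab
  unfold e2 at h
  rw [sum_eq_zero_iff] at h
  have h1 := h a ha
  unfold dg at h1
  rw [card_eq_zero] at h1
  exact notMem_empty b (h1 ▸ mem_filter.2 ⟨hb, hab⟩)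

/-- the number of edges of a union of two sets not joined by edges -/
lemma e2_union {U U' : Finset V} (hd : Disjoint U U') (h : ∀ a ∈ U, ∀ b ∈ U', ¬ G.Adj a b) :
    e2 G (U ∪ U') = e2 G U + e2 G U' := by
  classical
  unfold e2
  rw [sum_union hd]
  congr 1
  · refine sum_congr rfl fun a ha => ?_
    unfold dg
    congr 1
    rw [filter_union, filter_eq_empty_iff.2 (fun b hb => h a ha b hb), union_empty]
  · refine sum_congr rfl fun a ha => ?_
    unfold dg
    congr 1
    rw [filter_union, filter_eq_empty_iff.2 (fun b hb hab => h b hb a ha hab.symm), empty_union]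

/-- every set spans at most as many edges as vertices -/
def Pf (G : SimpleGraph V) : Prop := ∀ U : Finset V, e2 G U ≤ 2 * U.card

end Count

/-! ### Sums -/

section Sum

variable {A B : Type} [Fintype A] [DecidableEq A] [Fintype B] [DecidableEq B]
  {K : SimpleGraph A} {F : SimpleGraph B}

lemma e2_sum (U : Finset (A ⊕ B)) : e2 (K ⊕g F) U = e2 K U.toLeft + e2 F U.toRight := by
  have h1 : U = U.toLeft.map Function.Embedding.inl ∪ U.toRight.map Function.Embedding.inr := by
    ext x
    rcases x with x | x <;> simp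
  conv_lhs => rw [h1]
  rw [e2_union, ← e2_emb (G' := K), ← e2_emb (G' := F)]
  · intro x y; simp
  · intro x y; simp
  · rw [Finset.disjoint_left]
    intro x hx hx'
    rw [mem_map] at hx hx'
    obtain ⟨a, -, rfl⟩ := hx
    obtain ⟨b, -, hb⟩ := hx'
    exact absurd hb (by simp)
  · intro a ha b hb
    rw [mem_map] at ha hb
    obtain ⟨a, -, rfl⟩ := ha
    obtain ⟨b, -, rfl⟩ := hb
    simp

lemma Pf.sum (hK : Pf K) (hF : Forest F) : Pf (K ⊕g F) := by
  intro U
  rw [e2_sum, ← card_toLeft_add_card_toRight]
  have h1 := hK U.toLeft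
  have h2 := hF.e2_le' U.toRight
  omega

end Sum

/-- a pendant vertex `none` attached at `v` -/
def pendant {W : Type} (H : SimpleGraph W) (v : W) : SimpleGraph (Option W) where
  Adj x y :=
    match x, y with
    | some a, some b => H.Adj a b
    | none, some a => a = v
    | some a, none => a = v
    | none, none => False
  symm := ⟨by
    rintro (_ | a) (_ | b) h
    · exact h
    · exact h
    · exact h
    · exact h.symm⟩
  loopless := ⟨by
    rintro (_ | a) h
    · exact h
    · exact H.loopless.irrefl a h⟩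

/-- the hypothesis: pendant vertices increase the threshold by one -/
def Hyp : Prop := ∀ (W : Type) [Fintype W] [DecidableEq W] (H : SimpleGraph W), Pf H → Ex H →
  ∀ v, Ex (pendant H v) ∧ thr (pendant H v) = thr H + 1

/-- forests are grown from isolated vertices -/
theorem grow (hyp : Hyp) {A : Type} [Fintype A] [DecidableEq A] {K : SimpleGraph A}
    (hK : Pf K) : ∀ (n : ℕ) {B : Type} [Fintype B] [DecidableEq B] (F : SimpleGraph B),
    Forest F → e2 F univ = 2 * n → n ≤ Fintype.card B ∧
      (Ex (K ⊕g (⊥ : SimpleGraph (Fin (Fintype.card B - n)))) → Ex (K ⊕g F) ∧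
        thr (K ⊕g F) = thr (K ⊕g (⊥ : SimpleGraph (Fin (Fintype.card B - n)))) + n) := by
  intro n
  induction n with
  | zero =>
    intro B _ _ F hF h0
    refine ⟨Nat.zero_le _, fun hE => ?_⟩
    have hno := e2_eq_zero (by simpa using h0 : e2 F univ = 0)
    have hFb : F = ⊥ := by
      ext a b
      simpa using hno a (mem_univ _) b (mem_univ _)
    subst hFb
    rw [Nat.sub_zero] at hE
    let e : Fin (Fintype.card B) ≃ B := (Fintype.equivFin B).symm
    let φ : (K ⊕g (⊥ : SimpleGraph (Fin (Fintype.card B)))) ≃g (K ⊕g (⊥ : SimpleGraph B)) :=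
      { toEquiv := Equiv.sumCongr (Equiv.refl A) e
        map_rel_iff' := by
          rintro (a | a) (b | b) <;> simp }
    obtain ⟨h1, h2⟩ := thr_iso φ
    exact ⟨h1 hE, by rw [h2 hE]; rfl⟩
  | succ n ih =>
    intro B _ _ F hF h0
    classical
    -- a leaf
    obtain ⟨v, hv⟩ : ∃ v, dg F univ v = 1 := by
      set U := (univ : Finset B).filter (fun v => 1 ≤ dg F univ v) with hU
      have hUne : U.Nonempty := by
        rw [nonempty_iff_ne_empty]
        intro he
        have : e2 F univ = 0 := by
          unfold e2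
          rw [sum_eq_zero_iff]
          intro v _
          by_contra hne
          have : v ∈ U := mem_filter.2 ⟨mem_univ _, Nat.one_le_iff_ne_zero.2 hne⟩
          rw [he] at this
          exact notMem_empty _ this
        omega
      obtain ⟨v, hv, hd⟩ := hF U hUne
      refine ⟨v, le_antisymm ?_ (mem_filter.1 hv).2⟩
      refine le_trans (le_of_eq ?_) hd
      unfold dg
      congr 1
      ext u
      rw [mem_filter, mem_filter, hU, mem_filter]
      constructor
      · rintro ⟨-, h⟩
        refine ⟨⟨mem_univ _, ?_⟩, h⟩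
        unfold dg
        exact card_pos.2 ⟨v, mem_filter.2 ⟨mem_univ _, h.symm⟩⟩
      · rintro ⟨-, h⟩
        exact ⟨mem_univ _, h⟩
    obtain ⟨w, hw⟩ := card_eq_one.1 hv
    have hvw : F.Adj v w := by
      have : w ∈ ({w} : Finset B) := mem_singleton_self _
      rw [← hw] at this
      exact (mem_filter.1 this).2
    have honly : ∀ u, F.Adj v u → u = w := by
      intro u hu
      have : u ∈ (univ : Finset B).filter (fun u => F.Adj v u) := mem_filter.2 ⟨mem_univ _, hu⟩
      rw [hw] at this
      exact mem_singleton.1 this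
    -- the smaller forest
    let B' := {x : B // x ≠ v}
    let F' : SimpleGraph B' := F.comap Subtype.val
    let φ : B' ↪ B := Function.Embedding.subtype _
    have hφ : ∀ x y : B', F'.Adj x y ↔ F.Adj (φ x) (φ y) := fun _ _ => Iff.rfl
    have hF' : Forest F' := hF.emb φ hφ
    have hmap : (univ : Finset B').map φ = univ.erase v := by
      ext x
      simp [φ, B']
    have hcard : Fintype.card B' = Fintype.card B - 1 := by
      rw [← card_univ, ← card_map φ, hmap, card_erase_of_mem (mem_univ _), card_univ]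
    have hBpos : 0 < Fintype.card B := Fintype.card_pos_iff.2 ⟨v⟩
    have h1 : e2 F' univ = 2 * n := by
      rw [e2_emb φ hφ, hmap]
      have := e2_erase (G := F) (mem_univ v)
      rw [hv] at this
      omega
    obtain ⟨h2, h3⟩ := ih F' hF' h1
    have h4 : Fintype.card B - (n + 1) = Fintype.card B' - n := by omega
    refine ⟨by omega, fun hE => ?_⟩
    rw [h4] at hE ⊢
    obtain ⟨h5, h6⟩ := h3 hE
    have hPf : Pf (K ⊕g F') := hK.sum hF'
    obtain ⟨h7, h8⟩ := hyp _ (K ⊕g F') hPf h5 (Sum.inr ⟨w, hvw.ne'⟩)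
    -- the isomorphism
    let ψ : Option (A ⊕ B') → A ⊕ B := fun x =>
      match x with
      | none => Sum.inr v
      | some (Sum.inl a) => Sum.inl a
      | some (Sum.inr b) => Sum.inr b.1
    have hψ : Function.Bijective ψ := by
      constructor
      · rintro (_ | (a | a)) (_ | (b | b)) h
        · rfl
        · exact absurd h (by simp [ψ])
        · have h' : v = b.1 := Sum.inr.inj h
          exact absurd h'.symm b.2
        · exact absurd h (by simp [ψ])
        · have h' : a = b := Sum.inl.inj h
          rw [h']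
        · exact absurd h (by simp [ψ])
        · have h' : a.1 = v := Sum.inr.inj h
          exact absurd h' a.2
        · exact absurd h (by simp [ψ])
        · have h' : a.1 = b.1 := Sum.inr.inj h
          rw [Subtype.ext h']
      · rintro (a | b)
        · exact ⟨some (Sum.inl a), rfl⟩
        · by_cases hb : b = v
          · exact ⟨none, by rw [hb]⟩
          · exact ⟨some (Sum.inr ⟨b, hb⟩), rfl⟩
    let e : pendant (K ⊕g F') (Sum.inr ⟨w, hvw.ne'⟩) ≃g (K ⊕g F) :=
      { toEquiv := Equiv.ofBijective ψ hψ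
        map_rel_iff' := by
          rintro (_ | (a | a)) (_ | (b | b))
          · change F.Adj v v ↔ False
            simp
          · change (K ⊕g F).Adj (Sum.inr v) (Sum.inl b) ↔ (Sum.inl b : A ⊕ B') = Sum.inr ⟨w, hvw.ne'⟩
            simp
          · change F.Adj v b.1 ↔ (Sum.inr b : A ⊕ B') = Sum.inr ⟨w, hvw.ne'⟩
            rw [Sum.inr.injEq, Subtype.ext_iff]
            exact ⟨fun h => honly _ h, fun h => by rw [h]; exact hvw⟩
          · change (K ⊕g F).Adj (Sum.inl a) (Sum.inr v) ↔ (Sum.inl a : A ⊕ B') = Sum.inr ⟨w, hvw.ne'⟩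
            simp
          · exact Iff.rfl
          · exact Iff.rfl
          · change F.Adj a.1 v ↔ (Sum.inr a : A ⊕ B') = Sum.inr ⟨w, hvw.ne'⟩
            rw [Sum.inr.injEq, Subtype.ext_iff]
            exact ⟨fun h => honly _ h.symm, fun h => by rw [h]; exact hvw.symm⟩
          · exact Iff.rfl
          · exact Iff.rfl }
    obtain ⟨h9, h10⟩ := thr_iso e
    refine ⟨h9 h7, ?_⟩
    rw [h10 h7, h8, h6]
    ring

end Pool.Agent.Q276.Tw
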