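import Mathlib
import Pool.Agent.Q276.Thr

/-!
A universal forest, and the main step: a graph without the minor has small treewidth.
-/

set_option autoImplicit false
set_option linter.unusedSectionVars false

namespace Pool.Agent.Q276.Tw

open SimpleGraph Finset
open Pool.Agent.W126.TAC Pool.Agent.W126.Split

/-- a forest containing all small forests as unions of components -/
theorem exists_univ (M : ℕ) : ∃ (B : Type) (_ : Fintype B) (_ : DecidableEq B)
    (F : SimpleGraph B), Forest F ∧ ∀ m ≤ M, ∀ T : SimpleGraph (Fin m), Forest T →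
      ∃ φ : Fin m ↪ B, (∀ x y, T.Adj x y ↔ F.Adj (φ x) (φ y)) ∧
        ∀ x b, (∀ y, φ y ≠ b) → ¬ F.Adj (φ x) b := by
  classical
  let I := {p : (m : Fin (M + 1)) × SimpleGraph (Fin m) // Forest p.2}
  let B := (i : I) × Fin i.1.1
  have : Finite B := inferInstance
  have : Fintype B := Fintype.ofFinite B
  obtain ⟨F, hFd⟩ : ∃ F : SimpleGraph B, ∀ x y, F.Adj x y ↔
      ∃ (i : I) (a b : Fin i.1.1), x = ⟨i, a⟩ ∧ y = ⟨i, b⟩ ∧ i.1.2.Adj a b :=
    ⟨{ Adj := fun x y => ∃ (i : I) (a b : Fin i.1.1), x = ⟨i, a⟩ ∧ y = ⟨i, b⟩ ∧ i.1.2.Adj a b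
       symm := ⟨by
        rintro _ _ ⟨i, a, b, rfl, rfl, h⟩
        exact ⟨i, b, a, rfl, rfl, h.symm⟩⟩
       loopless := ⟨by
        rintro _ ⟨i, a, b, rfl, hb, h⟩
        have h1 : a = b := eq_of_heq (Sigma.mk.inj hb).2
        subst h1
        exact i.1.2.loopless.irrefl a h⟩ }, fun _ _ => Iff.rfl⟩
  have hF : ∀ (i : I) (a b : Fin i.1.1), F.Adj ⟨i, a⟩ ⟨i, b⟩ ↔ i.1.2.Adj a b := by
    intro i a b
    rw [hFd]
    constructor
    · rintro ⟨j, a', b', ha, hb, h⟩
      obtain ⟨rfl, ha'⟩ := Sigma.mk.inj ha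
      obtain ⟨-, hb'⟩ := Sigma.mk.inj hb
      rw [eq_of_heq ha', eq_of_heq hb']
      exact h
    · intro h
      exact ⟨i, a, b, rfl, rfl, h⟩
  refine ⟨B, inferInstance, inferInstance, F, ?_, ?_⟩
  · intro U hU
    obtain ⟨⟨i, a⟩, ha⟩ := hU
    set Ui : Finset (Fin i.1.1) := univ.filter (fun a => (⟨i, a⟩ : B) ∈ U) with hUi
    obtain ⟨v, hv, hd⟩ := i.2 Ui ⟨a, mem_filter.2 ⟨mem_univ _, ha⟩⟩
    refine ⟨⟨i, v⟩, (mem_filter.1 hv).2, le_trans ?_ hd⟩
    unfold dg
    apply card_le_card_of_surjOn (fun a => (⟨i, a⟩ : B))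
    rintro ⟨j, b⟩ hb
    rw [mem_coe, mem_filter, hFd] at hb
    obtain ⟨hb, j', a', b', h1, h2, h3⟩ := hb
    obtain ⟨rfl, h1'⟩ := Sigma.mk.inj h1
    obtain ⟨rfl, h2'⟩ := Sigma.mk.inj h2
    rw [← eq_of_heq h1', ← eq_of_heq h2'] at h3
    exact ⟨b, by
      rw [mem_coe, mem_filter, hUi, mem_filter]
      exact ⟨⟨mem_univ _, hb⟩, h3⟩, rfl⟩
  · intro m hm T hT
    let i : I := ⟨⟨⟨m, Nat.lt_succ_of_le hm⟩, T⟩, hT⟩
    refine ⟨⟨fun a => (⟨i, a⟩ : B), fun a b hab => eq_of_heq (Sigma.mk.inj hab).2⟩, ?_, ?_⟩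
    · intro x y
      exact (hF i x y).symm
    · intro x b hb hadj
      obtain ⟨j, a', b', h1, h2, h3⟩ := (hFd _ _).1 hadj
      obtain ⟨rfl, h1'⟩ := Sigma.mk.inj h1
      exact hb b' h2.symm

lemma force_univ {W : Type} {H : SimpleGraph W} {k : ℕ} (h : Force H k) {V : Type} [Fintype V]
    [DecidableEq V] {G : SimpleGraph V} {S : Finset V} (hb : ¬ Bw G S k) : Mod H G S :=
  h V G S hb

/-- the main step -/
theorem core {A B : Type} [Fintype A] [DecidableEq A] [Fintype B] [DecidableEq B]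
    (K : SimpleGraph A) (F : SimpleGraph B) (d k M N : ℕ) (hMd : 2 * d + 6 ≤ M)
    (hMk : M ≤ 8 * k + 4) (hN : 8 * k + 8 ≤ N)
    (hU : ∀ m ≤ M, ∀ T : SimpleGraph (Fin m), Forest T →
      ∃ φ : Fin m ↪ B, (∀ x y, T.Adj x y ↔ F.Adj (φ x) (φ y)) ∧
        ∀ x b, (∀ y, φ y ≠ b) → ¬ F.Adj (φ x) b)
    (h1 : Force (K ⊕g F) (N - (8 * k + 4)))
    (h2 : ∀ (R : Finset B), 2 ≤ R.card → R.card ≤ M → e2 F R = 2 * (R.card - 1) →
      (∀ a ∈ R, ∀ b, b ∉ R → ¬ F.Adj a b) →
      Force ((K ⊕g k3) ⊕g (F.comap (Subtype.val : {x : B // x ∉ R} → B))) (N - (R.card - 2)))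
    (h3 : Force ((K ⊕g k3) ⊕g F) (d * (d + 1) ^ k)) :
    Force ((K ⊕g k3) ⊕g F) N := by
  classical
  intro V _ _ G S hb
  by_contra hno
  obtain ⟨G', S', hb', hdeg, hlift⟩ := reduce _ G S N rfl (by omega) hb
  have hno' : ¬ Mod ((K ⊕g k3) ⊕g F) G' S' := fun h => hno (hlift _ _ _ Subset.rfl h)
  clear hno hlift hb
  -- sparseness
  have hsp : Sparse G' S' (8 * k + 4) := by
    intro U hUS hUne hUc
    by_contra hge
    push Not at hge
    obtain ⟨D, d1, d2, d3, d4, d5⟩ := k3_of_e2 _ U rfl hUne hge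
    have hb2 : ¬ Bw G' (S' \ U) (N - (8 * k + 4)) := by
      intro h
      have h4 := h.add U
      rw [sdiff_union_of_subset hUS] at h4
      exact hb' (h4.mono Subset.rfl (by omega))
    obtain ⟨B', b1, b2, b3, b4, b5⟩ := h1 V G' _ hb2
    apply hno'
    have hDU : ∀ i x, Disjoint (D i) (B' x) := by
      intro i x
      rw [Finset.disjoint_left]
      intro v hv hv'
      exact (mem_sdiff.1 (b1 x hv')).2 (d1 i hv)
    refine ⟨fun x => match x with
      | Sum.inl (Sum.inl a) => B' (Sum.inl a)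
      | Sum.inl (Sum.inr i) => D i
      | Sum.inr b => B' (Sum.inr b), ?_, ?_, ?_, ?_, ?_⟩
    · rintro ((a | i) | b)
      · exact (b1 _).trans sdiff_subset
      · exact (d1 _).trans hUS
      · exact (b1 _).trans sdiff_subset
    · rintro ((a | i) | b)
      · exact b2 _
      · exact d2 _
      · exact b2 _
    · rintro ((a | i) | b)
      · exact b3 _
      · exact d3 _
      · exact b3 _
    · rintro ((a | i) | b) ((a' | i') | b') hne
      · exact b4 _ _ (fun h => hne (by rw [Sum.inl.inj h]))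
      · exact (hDU _ _).symm
      · exact b4 _ _ (by simp)
      · exact hDU _ _
      · exact d4 _ _ (fun h => hne (by rw [h]))
      · exact hDU _ _
      · exact b4 _ _ (by simp)
      · exact (hDU _ _).symm
      · exact b4 _ _ (fun h => hne (by rw [Sum.inr.inj h]))
    · rintro ((a | i) | b) ((a' | i') | b') hadj
      · exact b5 _ _ (by simpa using hadj)
      · simp at hadj
      · simp at hadj
      · simp at hadj
      · exact d5 _ _ (by simpa using hadj)
      · simp at hadj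
      · simp at hadj
      · simp at hadj
      · exact b5 _ _ (by simpa using hadj)
  -- two vertices of small degree that are close
  have hpat : ∀ x1 ∈ S', ∀ x2 ∈ S', x1 ≠ x2 → dg G' S' x1 ≤ d + 2 → dg G' S' x2 ≤ d + 2 →
      (G'.Adj x1 x2 ∨ ∃ y ∈ S', G'.Adj x1 y ∧ G'.Adj x2 y) → False := by
    intro x1 hx1 x2 hx2 hne hq1 hq2 hclose
    set A1 := S'.filter (fun u => G'.Adj x1 u) with hA1
    set A2 := S'.filter (fun u => G'.Adj x2 u) with hA2
    have hc1 : A1.card = dg G' S' x1 := rfl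
    have hc2 : A2.card = dg G' S' x2 := rfl
    set R0 : Finset V := insert x1 (insert x2 (A1 ∪ A2)) with hR0
    have hR0S : R0 ⊆ S' := by
      intro z hz
      rw [hR0, mem_insert, mem_insert, mem_union, hA1, hA2, mem_filter, mem_filter] at hz
      rcases hz with rfl | rfl | h | h
      · exact hx1
      · exact hx2
      · exact h.1
      · exact h.1
    have hx1R : x1 ∈ R0 := mem_insert_self _ _
    have hx2R : x2 ∈ R0 := mem_insert_of_mem (mem_insert_self _ _)
    have hN1 : ∀ u ∈ S', G'.Adj x1 u → u ∈ R0 := fun u hu h => by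
      rw [hR0, mem_insert, mem_insert, mem_union]
      exact Or.inr (Or.inr (Or.inl (mem_filter.2 ⟨hu, h⟩)))
    have hN2 : ∀ u ∈ S', G'.Adj x2 u → u ∈ R0 := fun u hu h => by
      rw [hR0, mem_insert, mem_insert, mem_union]
      exact Or.inr (Or.inr (Or.inr (mem_filter.2 ⟨hu, h⟩)))
    have hRM : R0.card ≤ M := by
      have e1 := card_insert_le x1 (insert x2 (A1 ∪ A2))
      rw [← hR0] at e1
      have e2 := card_insert_le x2 (A1 ∪ A2)
      have e3 := card_union_le A1 A2
      omega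
    have hR2 : 2 ≤ R0.card := by
      have : ({x1, x2} : Finset V) ⊆ R0 := by
        intro z hz
        rw [mem_insert, mem_singleton] at hz
        rcases hz with rfl | rfl
        · exact hx1R
        · exact hx2R
      have := card_le_card this
      rwa [card_pair hne] at this
    -- the number of edges
    have hlow : 2 * (R0.card - 1) ≤ e2 G' R0 := by
      have f1 := e2_erase (G := G') hx1R
      have f2 : dg G' R0 x1 = A1.card := by
        unfold dg
        congr 1
        ext u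
        rw [mem_filter, hA1, mem_filter]
        exact ⟨fun h => ⟨hR0S h.1, h.2⟩, fun h => ⟨hN1 u h.1 h.2, h.2⟩⟩
      have hx2R' : x2 ∈ R0.erase x1 := mem_erase.2 ⟨hne.symm, hx2R⟩
      have f3 := e2_erase (G := G') hx2R'
      have f4 := dg_erase (G := G') hx1R x2
      have f5 : dg G' R0 x2 = A2.card := by
        unfold dg
        congr 1
        ext u
        rw [mem_filter, hA2, mem_filter]
        exact ⟨fun h => ⟨hR0S h.1, h.2⟩, fun h => ⟨hN2 u h.1 h.2, h.2⟩⟩
      by_cases hadj : G'.Adj x2 x1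
      · rw [if_pos hadj] at f4
        have hsub : R0 ⊆ A1 ∪ A2 := by
          intro z hz
          rw [hR0, mem_insert, mem_insert] at hz
          rcases hz with rfl | rfl | h
          · exact mem_union_right _ (mem_filter.2 ⟨hx1, hadj⟩)
          · exact mem_union_left _ (mem_filter.2 ⟨hx2, hadj.symm⟩)
          · exact h
        have e1 := card_le_card hsub
        have e3 := card_union_le A1 A2
        omega
      · rw [if_neg hadj] at f4
        obtain ⟨y, hy, hy1, hy2⟩ := hclose.resolve_left (fun h => hadj h.symm)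
        have e0 := card_union_add_card_inter A1 A2
        have e4 : 0 < (A1 ∩ A2).card :=
          card_pos.2 ⟨y, mem_inter.2 ⟨mem_filter.2 ⟨hy, hy1⟩, mem_filter.2 ⟨hy, hy2⟩⟩⟩
        have e1 := card_insert_le x1 (insert x2 (A1 ∪ A2))
        rw [← hR0] at e1
        have e2 := card_insert_le x2 (A1 ∪ A2)
        omega
    have hup := hsp R0 hR0S ⟨x1, hx1R⟩ (by omega)
    have hev := even_e2 (G := G') _ R0 rfl
    have hR0e : e2 G' R0 = 2 * (R0.card - 1) := by
      obtain ⟨q, hq⟩ := hev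
      omega
    -- transport to `Fin m`
    obtain ⟨m, hm⟩ : ∃ m, R0.card = m := ⟨_, rfl⟩
    let eq : Fin m ≃ R0 := (Fintype.equivFinOfCardEq (by simpa using hm)).symm
    let ψ : Fin m ↪ V := eq.toEmbedding.trans (Function.Embedding.subtype _)
    have hψmap : (univ : Finset (Fin m)).map ψ = R0 := by
      ext z
      rw [mem_map]
      constructor
      · rintro ⟨x, -, rfl⟩
        exact (eq x).2
      · intro hz
        exact ⟨eq.symm ⟨z, hz⟩, mem_univ _, by simp [ψ]⟩
    let T : SimpleGraph (Fin m) := G'.comap ψ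
    have hTψ : ∀ x y, T.Adj x y ↔ G'.Adj (ψ x) (ψ y) := fun _ _ => Iff.rfl
    have hTF : Forest T := by
      intro U hUne
      have hsub : U.map ψ ⊆ R0 := by
        rw [← hψmap]
        exact map_subset_map.2 (subset_univ _)
      obtain ⟨v, hv, hvd⟩ := exists_of_e2_lt (hsp (U.map ψ) (hsub.trans hR0S) (hUne.map)
        ((card_le_card hsub).trans (hRM.trans hMk)))
      rw [mem_map] at hv
      obtain ⟨x, hx, rfl⟩ := hv
      exact ⟨x, hx, by rw [dg_emb ψ hTψ]; exact hvd⟩
    have hTe : e2 T univ = 2 * (m - 1) := by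
      rw [e2_emb ψ hTψ, hψmap, hR0e, hm]
    obtain ⟨φ, hφ1, hφ2⟩ := hU m (by omega) T hTF
    set R : Finset B := univ.map φ with hR
    have hRc : R.card = m := by rw [hR, card_map, card_univ, Fintype.card_fin]
    have hRe : e2 F R = 2 * (R.card - 1) := by
      rw [hRc, ← hTe, e2_emb φ hφ1]
    have hRb : ∀ a ∈ R, ∀ b, b ∉ R → ¬ F.Adj a b := by
      intro a ha b hb
      rw [hR, mem_map] at ha
      obtain ⟨x, -, rfl⟩ := ha
      apply hφ2
      intro y hy
      apply hb
      rw [hR, mem_map]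
      exact ⟨y, mem_univ _, hy⟩
    have h4 := h2 R (by omega) (by omega) hRe hRb
    -- the rest has large treewidth
    have hb3 : ¬ Bw G' (S' \ R0) (N - (R.card - 2)) := by
      intro h
      have g1 : Bw G' {x1, x2} (N - (R.card - 2)) :=
        (bw_card {x1, x2}).mono Subset.rfl (by rw [card_pair hne]; omega)
      have g2 := h.union g1 (by
        rw [Finset.disjoint_left]
        intro z hz hz'
        rw [mem_sdiff] at hz
        rw [mem_insert, mem_singleton] at hz'
        rcases hz' with rfl | rfl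
        · exact hz.2 hx1R
        · exact hz.2 hx2R) (by
        intro u hu v hv huv
        rw [mem_sdiff] at hu
        rw [mem_insert, mem_singleton] at hv
        rcases hv with rfl | rfl
        · exact hu.2 (hN1 u hu.1 huv.symm)
        · exact hu.2 (hN2 u hu.1 huv.symm))
      have g3 := g2.add ((R0.erase x1).erase x2)
      have g4 : S' ⊆ (S' \ R0 ∪ {x1, x2}) ∪ (R0.erase x1).erase x2 := by
        intro z hz
        by_cases hzR : z ∈ R0
        · by_cases hz1 : z = x1
          · exact mem_union_left _ (mem_union_right _ (by simp [hz1]))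
          · by_cases hz2 : z = x2
            · exact mem_union_left _ (mem_union_right _ (by simp [hz2]))
            · exact mem_union_right _ (mem_erase.2 ⟨hz2, mem_erase.2 ⟨hz1, hzR⟩⟩)
        · exact mem_union_left _ (mem_union_left _ (mem_sdiff.2 ⟨hz, hzR⟩))
      refine hb' (g3.mono g4 ?_)
      rw [card_erase_of_mem (mem_erase.2 ⟨hne.symm, hx2R⟩), card_erase_of_mem hx1R]
      omega
    obtain ⟨B', b1, b2, b3, b4, b5⟩ := h4 V G' _ hb3
    apply hno'
    -- the vertices of the pattern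
    have hinv : ∀ b ∈ R, ∃ x : Fin m, φ x = b := by
      intro b hb
      rw [hR, mem_map] at hb
      obtain ⟨x, -, hx⟩ := hb
      exact ⟨x, hx⟩
    let C : (A ⊕ Fin 3) ⊕ B → Finset V := fun x =>
      match x with
      | Sum.inl a => B' (Sum.inl a)
      | Sum.inr b => if h : b ∈ R then {ψ (hinv b h).choose} else B' (Sum.inr ⟨b, h⟩)
    have hCl : ∀ a, C (Sum.inl a) = B' (Sum.inl a) := fun _ => rfl
    have hCR : ∀ x : Fin m, C (Sum.inr (φ x)) = {ψ x} := by
      intro x
      have h : φ x ∈ R := by rw [hR, mem_map]; exact ⟨x, mem_univ _, rfl⟩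
      have e : C (Sum.inr (φ x)) = {ψ (hinv (φ x) h).choose} := dif_pos h
      rw [e, φ.injective (hinv (φ x) h).choose_spec]
    have hCn : ∀ (b : B) (h : b ∉ R), C (Sum.inr b) = B' (Sum.inr ⟨b, h⟩) :=
      fun b h => dif_neg h
    clear_value C
    have hψR : ∀ x, ψ x ∈ R0 := fun x => (eq x).2
    have hcase : ∀ y : (A ⊕ Fin 3) ⊕ B, (∃ a, y = Sum.inl a) ∨ (∃ x : Fin m, y = Sum.inr (φ x)) ∨
        ∃ b, ∃ _ : b ∉ R, y = Sum.inr b := by
      rintro (a | b)
      · exact Or.inl ⟨a, rfl⟩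
      · by_cases h : b ∈ R
        · obtain ⟨x, hx⟩ := hinv b h
          exact Or.inr (Or.inl ⟨x, by rw [hx]⟩)
        · exact Or.inr (Or.inr ⟨b, h, rfl⟩)
    have hdis : ∀ (x : Fin m) y, Disjoint ({ψ x} : Finset V) (B' y) := by
      intro x y
      rw [disjoint_singleton_left]
      intro h
      exact (mem_sdiff.1 (b1 y h)).2 (hψR x)
    refine ⟨C, ?_, ?_, ?_, ?_, ?_⟩
    · intro y
      rcases hcase y with ⟨a, rfl⟩ | ⟨x, rfl⟩ | ⟨b, hb, rfl⟩
      · rw [hCl]; exact (b1 _).trans sdiff_subset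
      · rw [hCR, singleton_subset_iff]; exact hR0S (hψR x)
      · rw [hCn b hb]; exact (b1 _).trans sdiff_subset
    · intro y
      rcases hcase y with ⟨a, rfl⟩ | ⟨x, rfl⟩ | ⟨b, hb, rfl⟩
      · rw [hCl]; exact b2 _
      · rw [hCR]; exact singleton_nonempty _
      · rw [hCn b hb]; exact b2 _
    · intro y
      rcases hcase y with ⟨a, rfl⟩ | ⟨x, rfl⟩ | ⟨b, hb, rfl⟩
      · rw [hCl]; exact b3 _
      · rw [hCR]; exact conn_singleton _
      · rw [hCn b hb]; exact b3 _
    · intro y y' hyy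
      rcases hcase y with ⟨a, rfl⟩ | ⟨x, rfl⟩ | ⟨b, hb, rfl⟩ <;>
        rcases hcase y' with ⟨a', rfl⟩ | ⟨x', rfl⟩ | ⟨b', hb', rfl⟩
      · rw [hCl, hCl]; exact b4 _ _ (fun h => hyy (by rw [Sum.inl.inj h]))
      · rw [hCl, hCR]; exact (hdis _ _).symm
      · rw [hCl, hCn b' hb']; exact b4 _ _ (by simp)
      · rw [hCR, hCl]; exact hdis _ _
      · rw [hCR, hCR, disjoint_singleton]
        intro h
        exact hyy (by rw [ψ.injective h])
      · rw [hCR, hCn b' hb']; exact hdis _ _
      · rw [hCn b hb, hCl]; exact b4 _ _ (by simp)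
      · rw [hCn b hb, hCR]; exact (hdis _ _).symm
      · rw [hCn b hb, hCn b' hb']
        exact b4 _ _ (fun h => hyy (by
          have h5 := Sum.inr.inj h
          rw [Subtype.mk.injEq] at h5
          rw [h5]))
    · intro y y' hadj
      rcases hcase y with ⟨a, rfl⟩ | ⟨x, rfl⟩ | ⟨b, hb, rfl⟩ <;>
        rcases hcase y' with ⟨a', rfl⟩ | ⟨x', rfl⟩ | ⟨b', hb', rfl⟩
      · rw [hCl, hCl]; exact b5 _ _ (by simpa using hadj)
      · simp at hadj
      · simp at hadj
      · simp at hadj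
      · rw [hCR, hCR]
        refine ⟨_, mem_singleton_self _, _, mem_singleton_self _, ?_⟩
        rw [← hTψ, hφ1]
        simpa using hadj
      · exfalso
        exact hRb (φ x) (by rw [hR, mem_map]; exact ⟨x, mem_univ _, rfl⟩) b' hb'
          (by simpa using hadj)
      · simp at hadj
      · exfalso
        exact hRb (φ x') (by rw [hR, mem_map]; exact ⟨x', mem_univ _, rfl⟩) b hb
          (by simpa using hadj.symm)
      · rw [hCn b hb, hCn b' hb']
        exact b5 _ _ (by simpa using hadj)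
  -- the vertices of large degree
  set S1 := S'.filter (fun v => ¬ dg G' S' v ≤ d + 2) with hS1
  have hS1S : S1 ⊆ S' := filter_subset _ _
  have hS'ne : S'.Nonempty := by
    rw [nonempty_iff_ne_empty]
    rintro rfl
    exact hb' ((bw_card ∅).mono Subset.rfl (by simp))
  have hS1ne : S1.Nonempty := by
    obtain ⟨v, hv⟩ := hS'ne
    by_cases hd : dg G' S' v ≤ d + 2
    · obtain ⟨a, ha, -, -, -, -, -, -, -, hva, -, -⟩ := hdeg v hv
      refine ⟨a, mem_filter.2 ⟨ha, fun hda => ?_⟩⟩
      exact hpat v hv a ha hva.ne hd hda (Or.inl hva)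
    · exact ⟨v, mem_filter.2 ⟨hv, hd⟩⟩
  have hdeg1 : ∀ v ∈ S1, d + 2 ≤ dg G' S1 v := by
    intro v hv
    rw [hS1, mem_filter] at hv
    have g1 : dg G' S' v ≤ dg G' S1 v + 1 := by
      unfold dg
      have hsub : S'.filter (fun u => G'.Adj v u) ⊆ S1.filter (fun u => G'.Adj v u) ∪
          (S'.filter (fun u => dg G' S' u ≤ d + 2)).filter (fun u => G'.Adj v u) := by
        intro u hu
        rw [mem_filter] at hu
        rw [mem_union]
        by_cases hd : dg G' S' u ≤ d + 2
        · exact Or.inr (mem_filter.2 ⟨mem_filter.2 ⟨hu.1, hd⟩, hu.2⟩)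
        · exact Or.inl (mem_filter.2 ⟨mem_filter.2 ⟨hu.1, hd⟩, hu.2⟩)
      refine (card_le_card hsub).trans ((card_union_le _ _).trans ?_)
      apply Nat.add_le_add_left
      rw [card_le_one]
      intro a ha b hb
      rw [mem_filter, mem_filter] at ha hb
      by_contra hne
      exact hpat a ha.1.1 b hb.1.1 hne ha.1.2 hb.1.2 (Or.inr ⟨v, hv.1, ha.2.symm, hb.2.symm⟩)
    have := hv.2
    omega
  -- the dense minor
  let V1 := {x // x ∈ S1}
  let G1 : SimpleGraph V1 := G'.comap Subtype.val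
  let θ : V1 ↪ V := Function.Embedding.subtype _
  have hθ : ∀ x y : V1, G1.Adj x y ↔ G'.Adj (θ x) (θ y) := fun _ _ => Iff.rfl
  have hmap : (univ : Finset V1).map θ = S1 := by
    ext x
    simp [θ, V1]
  have hV1 : Nonempty V1 := by
    obtain ⟨v, hv⟩ := hS1ne
    exact ⟨⟨v, hv⟩⟩
  obtain ⟨Γ, X, hXne, hXd, hXl⟩ := dense (G := G1) (d := d) (k := k) (by
    intro v
    rw [dg_emb θ hθ, hmap]
    exact hdeg1 v.1 v.2) (by
    intro U _ hUne hUc
    rw [e2_emb θ hθ]
    have hsub : U.map θ ⊆ S' := by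
      refine Subset.trans ?_ hS1S
      rw [← hmap]
      exact map_subset_map.2 (subset_univ _)
    have := hsp (U.map θ) hsub hUne.map (by rw [card_map]; exact hUc)
    rwa [card_map] at this)
  have hbΓ : ¬ Bw Γ X (d * (d + 1) ^ k) := by
    intro h
    obtain ⟨x, hx, hxd⟩ := low_deg h hXne
    have := hXd x hx
    omega
  have hM1 := hXl _ _ (h3 V1 Γ X hbΓ)
  apply hno'
  refine (hM1.trans (G := G') (S := S1) (fun x => {x.1}) ?_ ?_ ?_ ?_ ?_).mono hS1S
  · intro x _
    rw [singleton_subset_iff]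
    exact x.2
  · intro x _
    exact singleton_nonempty _
  · intro x _
    exact conn_singleton _
  · intro x _ y _ hxy
    rw [disjoint_singleton]
    exact fun h => hxy (Subtype.ext h)
  · intro x _ y _ hxy
    exact ⟨x.1, mem_singleton_self _, y.1, mem_singleton_self _, hxy⟩

end Pool.Agent.Q276.Tw
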