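import Mathlib
import Pool.Agent.TH507.Host

/-!
A host graph of large treewidth without `s` disjoint cycles.
-/

set_option autoImplicit false

namespace Pool.Agent.Q276.Host

open Finset
open Pool.Agent.TH507.RG Pool.Agent.TH507.Host

/-- the disjoint union of `c` triangles -/
def tri (c : ℕ) : SimpleGraph (Fin c × Fin 3) where
  Adj x y := x.1 = y.1 ∧ x.2 ≠ y.2
  symm := ⟨fun _ _ h => ⟨h.1.symm, h.2.symm⟩⟩
  loopless := ⟨fun _ h => h.2 rfl⟩

section Count

variable {V : Type} [Fintype V] [DecidableEq V] {M : ℕ}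

/-- the pairs `(S, I)` with `|S| = |I| ≤ t`, `S` nonempty -/
def patt (V : Type) [Fintype V] [DecidableEq V] (M t : ℕ) :
    Finset (Finset V × Finset (Fin M)) :=
  (Finset.Icc 1 t).biUnion (fun k => (powersetCard k (univ : Finset V)) ×ˢ
    (powersetCard k (univ : Finset (Fin M))))

lemma mem_patt {t : ℕ} {p : Finset V × Finset (Fin M)} :
    p ∈ patt V M t ↔ 1 ≤ p.1.card ∧ p.1.card ≤ t ∧ p.2.card = p.1.card := by
  unfold patt
  simp only [mem_biUnion, Finset.mem_Icc, mem_product, mem_powersetCard, subset_univ, true_and]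
  constructor
  · rintro ⟨k, ⟨h1, h2⟩, h3, h4⟩
    omega
  · rintro ⟨h1, h2, h3⟩
    exact ⟨p.1.card, ⟨h1, h2⟩, rfl, h3⟩

lemma sum_badIn (t : ℕ) : (∑ p ∈ patt V M t, ((badIn p.1 p.2).card : ℝ)) ≤
    ∑ k ∈ Finset.Icc 1 t, ((Fintype.card V).choose k : ℝ) * ((M.choose k : ℝ) *
      (((k : ℝ) ^ 2) ^ k * ((Fintype.card V : ℝ) ^ 2) ^ (M - k))) := by
  unfold patt
  rw [sum_biUnion]
  · refine sum_le_sum fun k _ => ?_
    rw [sum_product]
    have h : ∀ S ∈ powersetCard k (univ : Finset V), ∑ I ∈ powersetCard k (univ : Finset (Fin M)),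
        ((badIn S I).card : ℝ) = (M.choose k : ℝ) *
      (((k : ℝ) ^ 2) ^ k * ((Fintype.card V : ℝ) ^ 2) ^ (M - k)) := by
      intro S hS
      rw [mem_powersetCard] at hS
      have h2 : ∀ I ∈ powersetCard k (univ : Finset (Fin M)), ((badIn S I).card : ℝ) =
          ((k : ℝ) ^ 2) ^ k * ((Fintype.card V : ℝ) ^ 2) ^ (M - k) := by
        intro I hI
        rw [mem_powersetCard] at hI
        rw [card_badIn, hS.2, hI.2]
        push_cast
        ring
      rw [sum_congr rfl h2, sum_const, card_powersetCard, card_univ, Fintype.card_fin,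
        nsmul_eq_mul]
    rw [sum_congr rfl h, sum_const, card_powersetCard, card_univ, nsmul_eq_mul]
  · intro k _ l _ hkl
    rw [Function.onFun, Finset.disjoint_left]
    rintro p h1 h2
    rw [mem_product, mem_powersetCard] at h1 h2
    exact hkl (h1.1.2.symm.trans h2.1.2)

end Count

/-- the list exists -/
theorem exists_list {s t : ℕ} (hs : 1 ≤ s) (ht : 1 ≤ t) :
    ∃ φ : Fin (16 * (s * t)) → Fin (s * t) × Fin (s * t),
      (∀ A B : Finset (Fin (s * t)), Disjoint A B → s * t ≤ 4 * A.card → s * t ≤ 4 * B.card →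
        ∃ i, φ i ∈ A ×ˢ B ∪ B ×ˢ A) ∧
      ((patt (Fin (s * t)) (16 * (s * t)) t).filter (fun p => φ ∈ badIn p.1 p.2)).card ≤
        2 * t * 119 ^ t := by
  classical
  set M := 16 * (s * t) with hM
  set V := Fin (s * t)
  have hN : 1 ≤ s * t := Nat.one_le_iff_ne_zero.2 (by positivity)
  have hcardV : Fintype.card V = s * t := Fintype.card_fin _
  -- first bad set
  have h1 : 2 * (bad1 V M).card ≤ ((s * t) ^ 2) ^ M := by
    have h := card_bad1 (V := V) (M := M)
    rw [hcardV] at h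
    have e1 : 2 * 4 ^ (s * t) * 7 ^ M ≤ 8 ^ M := by
      rw [hM, pow_mul 7, pow_mul 8]
      calc 2 * 4 ^ (s * t) * (7 ^ 16) ^ (s * t) ≤ 2 ^ (s * t) * 4 ^ (s * t) * (7 ^ 16) ^ (s * t) := by
            apply Nat.mul_le_mul_right
            apply Nat.mul_le_mul_right
            calc 2 = 2 ^ 1 := rfl
              _ ≤ 2 ^ (s * t) := Nat.pow_le_pow_right (by norm_num) hN
        _ = (2 * 4 * 7 ^ 16) ^ (s * t) := by rw [mul_pow, mul_pow]
        _ ≤ (8 ^ 16) ^ (s * t) := Nat.pow_le_pow_left (by norm_num) _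
    have e2 : 8 ^ M * (2 * (bad1 V M).card) ≤ 8 ^ M * (((s * t) ^ 2) ^ M) := by
      calc 8 ^ M * (2 * (bad1 V M).card) = 2 * (8 ^ M * (bad1 V M).card) := by ring
        _ ≤ 2 * (4 ^ (s * t) * (7 ^ M * ((s * t) ^ 2) ^ M)) := Nat.mul_le_mul_left _ h
        _ = (2 * 4 ^ (s * t) * 7 ^ M) * ((s * t) ^ 2) ^ M := by ring
        _ ≤ 8 ^ M * ((s * t) ^ 2) ^ M := Nat.mul_le_mul_right _ e1
    exact Nat.le_of_mul_le_mul_left e2 (by positivity)
  set N : ℝ := ((s * t : ℕ) : ℝ) with hNdef
  have hN0 : 0 < N := by rw [hNdef]; exact_mod_cast hN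
  -- the average number of patterns
  have h2 : (∑ p ∈ patt V M t, ((badIn p.1 p.2).card : ℝ)) ≤ t * 119 ^ t * (N ^ 2) ^ M := by
    refine (sum_badIn t).trans ?_
    rw [hcardV]
    have hterm : ∀ k ∈ Finset.Icc 1 t, ((s * t).choose k : ℝ) * ((M.choose k : ℝ) *
      (((k : ℝ) ^ 2) ^ k * (N ^ 2) ^ (M - k))) ≤ 119 ^ t * (N ^ 2) ^ M := by
      intro k hk
      rw [Finset.mem_Icc] at hk
      by_cases hkM : k ≤ M
      · have e1 : (N ^ 2) ^ M = (N ^ 2) ^ (M - k) * (N ^ 2) ^ k := by
          rw [← pow_add]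
          congr 1
          omega
        have e2 := term_le (b := 0) hs ht hk.1 hk.2
        rw [← hNdef, ← hM] at e2
        simp only [add_zero, pow_zero, mul_one] at e2
        have e3 : ((s * t).choose k : ℝ) * ((M.choose k : ℝ) *
            (((k : ℝ) ^ 2) ^ k * (N ^ 2) ^ (M - k))) =
            (((s * t).choose k : ℝ) * ((M.choose k : ℝ) *
            (((k : ℝ) ^ 2) ^ k / (N ^ 2) ^ k))) * (N ^ 2) ^ M := by
          rw [e1]
          field_simp
        rw [e3]
        exact mul_le_mul_of_nonneg_right e2 (by positivity)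
      · have : M.choose k = 0 := Nat.choose_eq_zero_of_lt (by omega)
        rw [this]
        simp only [Nat.cast_zero, zero_mul, mul_zero]
        positivity
    refine (Finset.sum_le_sum hterm).trans ?_
    rw [Finset.sum_const, Nat.card_Icc, Nat.add_sub_cancel, nsmul_eq_mul]
    linarith
  by_contra hcon
  push Not at hcon
  -- every list outside of the first bad set has many patterns
  have h3 : ∀ φ ∈ (univ : Finset (Fin M → V × V)) \ bad1 V M,
      (2 * t * 119 ^ t + 1 : ℝ) ≤ ((patt V M t).filter (fun p => φ ∈ badIn p.1 p.2)).card := by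
    intro φ hφ
    rw [mem_sdiff] at hφ
    have := hcon φ (by
      intro A B hd hA hB
      by_contra hc
      push Not at hc
      apply hφ.2
      unfold bad1
      rw [mem_biUnion]
      refine ⟨(A, B), ?_, ?_⟩
      · rw [mem_filter, hcardV]
        exact ⟨mem_univ _, hd, hA, hB⟩
      · unfold badPair
        rw [Fintype.mem_piFinset]
        intro i
        rw [mem_compl]
        exact hc i)
    have h4 : 2 * t * 119 ^ t + 1 ≤
        ((patt V M t).filter (fun p => φ ∈ badIn p.1 p.2)).card := this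
    exact_mod_cast h4
  have h4 : (∑ φ ∈ (univ : Finset (Fin M → V × V)),
      (((patt V M t).filter (fun p => φ ∈ badIn p.1 p.2)).card : ℝ)) =
      ∑ p ∈ patt V M t, ((badIn p.1 p.2).card : ℝ) := by
    have h5 : ∀ φ : Fin M → V × V, (((patt V M t).filter (fun p => φ ∈ badIn p.1 p.2)).card : ℝ) =
        ∑ p ∈ patt V M t, if φ ∈ badIn p.1 p.2 then (1 : ℝ) else 0 := by
      intro φ
      rw [card_filter]
      push_cast
      rfl
    rw [sum_congr rfl (fun φ _ => h5 φ), sum_comm]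
    refine sum_congr rfl fun p _ => ?_
    rw [← sum_filter, sum_const, nsmul_eq_mul, mul_one, filter_mem_eq_inter, univ_inter]
  have h5 : (2 * t * 119 ^ t + 1 : ℝ) * (((univ : Finset (Fin M → V × V)) \ bad1 V M).card : ℝ) ≤
      t * 119 ^ t * (N ^ 2) ^ M := by
    refine le_trans ?_ h2
    rw [← h4]
    calc (2 * t * 119 ^ t + 1 : ℝ) * (((univ : Finset (Fin M → V × V)) \ bad1 V M).card : ℝ)
        = ∑ φ ∈ (univ : Finset (Fin M → V × V)) \ bad1 V M, (2 * t * 119 ^ t + 1 : ℝ) := by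
          rw [sum_const, nsmul_eq_mul, mul_comm]
      _ ≤ ∑ φ ∈ (univ : Finset (Fin M → V × V)) \ bad1 V M,
          (((patt V M t).filter (fun p => φ ∈ badIn p.1 p.2)).card : ℝ) := sum_le_sum h3
      _ ≤ _ := sum_le_sum_of_subset_of_nonneg sdiff_subset (fun _ _ _ => Nat.cast_nonneg _)
  have h6 : (N ^ 2) ^ M ≤ 2 * (((univ : Finset (Fin M → V × V)) \ bad1 V M).card : ℝ) := by
    have e1 : (univ : Finset (Fin M → V × V)).card = ((s * t) ^ 2) ^ M := by
      rw [card_univ, Fintype.card_fun, Fintype.card_prod, Fintype.card_fin, Fintype.card_fin,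
        ← pow_two]
    have e2 := card_sdiff_add_card_eq_card (subset_univ (bad1 V M))
    rw [e1] at e2
    have e3 : ((s * t) ^ 2) ^ M ≤ 2 * ((univ : Finset (Fin M → V × V)) \ bad1 V M).card := by
      omega
    have e4 : ((((s * t) ^ 2) ^ M : ℕ) : ℝ) ≤
        ((2 * ((univ : Finset (Fin M → V × V)) \ bad1 V M).card : ℕ) : ℝ) := by exact_mod_cast e3
    push_cast at e4
    rw [hNdef]
    push_cast
    exact e4
  have h7 : (0 : ℝ) < (N ^ 2) ^ M := by positivity
  have h8 : (0 : ℝ) ≤ t * 119 ^ t := by positivity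
  nlinarith

lemma mem_badIn_of {V : Type} [Fintype V] [DecidableEq V] {M : ℕ} (φ : Fin M → V × V)
    (S : Finset V) (I : Finset (Fin M)) (h : ∀ i ∈ I, φ i ∈ S ×ˢ S) : φ ∈ badIn S I := by
  unfold badIn
  rw [Fintype.mem_piFinset]
  intro k
  split_ifs with hk
  · exact h k hk
  · exact mem_univ _

lemma hit {V : Type} [Fintype V] [DecidableEq V] {M : ℕ}
    (P : Finset (Finset V × Finset (Fin M))) (hne : ∀ p ∈ P, p.1.Nonempty) :
    ∃ X : Finset V, X.card ≤ P.card ∧ ∀ p ∈ P, ∃ v ∈ p.1, v ∈ X := by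
  classical
  let g : Finset V × Finset (Fin M) → Finset V := fun p =>
    if h : p.1.Nonempty then {h.choose} else ∅
  refine ⟨P.biUnion g, ?_, ?_⟩
  · refine (card_biUnion_le).trans ?_
    calc ∑ p ∈ P, (g p).card ≤ ∑ p ∈ P, 1 := by
          apply sum_le_sum
          intro p _
          change (if h : p.1.Nonempty then ({h.choose} : Finset V) else ∅).card ≤ 1
          split_ifs
          · simp
          · simp
      _ = P.card := by simp
  · intro p hp
    have h := hne p hp
    refine ⟨h.choose, h.choose_spec, ?_⟩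
    rw [mem_biUnion]
    refine ⟨p, hp, ?_⟩
    change h.choose ∈ (if h : p.1.Nonempty then ({h.choose} : Finset V) else ∅)
    rw [dif_pos h]
    simp

/-- a graph without small dense sets outside of `X` has no many disjoint cycles outside of `X` -/
lemma no_tri {V : Type} [Fintype V] [DecidableEq V] {M s t : ℕ} (hs : 1 ≤ s)
    (φ : Fin M → V × V) (hV : Fintype.card V ≤ s * t)
    (X : Finset V) (hX : ∀ p ∈ (patt V M t).filter (fun p => φ ∈ badIn p.1 p.2),
      ∃ v ∈ p.1, v ∈ X)
    (A : Set V) (hA : ∀ v ∈ A, v ∉ X) : ¬ IsMinor (tri s) ((gr φ).induce A) := by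
  classical
  rintro ⟨B, h1, h2, h3⟩
  -- branch sets in `V`
  let C : Fin s × Fin 3 → Finset V := fun x => univ.filter (fun v => ∃ h : v ∈ A, (⟨v, h⟩ : A) ∈ B x)
  have hC : ∀ x v, v ∈ C x ↔ ∃ h : v ∈ A, (⟨v, h⟩ : A) ∈ B x := by
    intro x v
    rw [mem_filter]
    exact ⟨fun h => h.2, fun h => ⟨mem_univ _, h⟩⟩
  clear_value C
  have hCc : ∀ x, ((gr φ).induce (C x : Set V)).Connected := by
    intro x
    let ψ : ((gr φ).induce A).induce (B x) →g (gr φ).induce (C x : Set V) :=
      { toFun := fun y => ⟨y.1.1, by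
          rw [mem_coe, hC]
          exact ⟨y.1.2, y.2⟩⟩
        map_rel' := fun {a b} hab => hab }
    have hψ : Function.Surjective ψ := by
      rintro ⟨v, hv⟩
      rw [mem_coe, hC] at hv
      obtain ⟨h, h'⟩ := hv
      exact ⟨⟨⟨v, h⟩, h'⟩, rfl⟩
    exact (h1 x).map ψ hψ
  have hCd : ∀ x y, x ≠ y → Disjoint (C x) (C y) := by
    intro x y hxy
    rw [Finset.disjoint_left]
    intro v hv hv'
    rw [hC] at hv hv'
    obtain ⟨h, h'⟩ := hv
    obtain ⟨k, k'⟩ := hv'
    exact Set.disjoint_left.1 (h2 x y hxy) h' k'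
  have hadj : ∀ (i : Fin s) (j k : Fin 3), j ≠ k →
      ∃ u ∈ C (i, j), ∃ v ∈ C (i, k), (gr φ).Adj u v := by
    intro i j k hjk
    obtain ⟨u, hu, v, hv, huv⟩ := h3 (i, j) (i, k) ⟨rfl, hjk⟩
    exact ⟨u.1, (hC _ _).2 ⟨u.2, hu⟩, v.1, (hC _ _).2 ⟨v.2, hv⟩, huv⟩
  have hbig : ∀ i : Fin s, t + 1 ≤ (univ.biUnion (fun j : Fin 3 => C (i, j))).card := by
    intro i
    by_contra hlt
    push Not at hlt
    obtain ⟨E, hE1, hE2⟩ := count_model (G := gr φ) (W := Fin 3) (P := Fin 3)
      (fun j => C (i, j)) (fun j => hCc _) (fun j k hjk => hCd _ _ (fun h => hjk (by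
        have := congrArg Prod.snd h
        exact this)))
      (fun p => p) (fun p => p + 1) (by decide) (by decide)
      (fun p => hadj i p (p + 1) (by revert p; decide))
    rw [Fintype.card_fin] at hE2
    set S := univ.biUnion (fun j : Fin 3 => C (i, j)) with hS
    have h4 := card_edges_le φ S E hE1
    have h5 : S.card ≤ (univ.filter (fun i => φ i ∈ S ×ˢ S)).card := by omega
    obtain ⟨I, hI, hIc⟩ := exists_subset_card_eq h5
    have h6 : (S, I) ∈ (patt V M t).filter (fun p => φ ∈ badIn p.1 p.2) := by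
      rw [mem_filter, mem_patt]
      refine ⟨⟨?_, by simp only; omega, hIc⟩, ?_⟩
      · obtain ⟨⟨v, hv⟩⟩ := (hCc (i, 0)).nonempty
        have : v ∈ S := by
          rw [hS, mem_biUnion]
          exact ⟨0, mem_univ _, hv⟩
        exact card_pos.2 ⟨v, this⟩
      · exact mem_badIn_of φ S I (fun k hk => (mem_filter.1 (hI hk)).2)
    obtain ⟨v, hv, hvX⟩ := hX _ h6
    simp only at hv
    rw [hS, mem_biUnion] at hv
    obtain ⟨j, -, hj⟩ := hv
    rw [hC] at hj
    obtain ⟨h7, -⟩ := hj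
    exact hA v h7 hvX
  have h4 : ∑ i : Fin s, (univ.biUnion (fun j : Fin 3 => C (i, j))).card ≤ s * t := by
    rw [← card_biUnion]
    · exact (card_le_univ _).trans hV
    · intro i _ k _ hik
      rw [Function.onFun, Finset.disjoint_left]
      intro v h5 h6
      rw [mem_biUnion] at h5 h6
      obtain ⟨j, -, hj⟩ := h5
      obtain ⟨l, -, hl⟩ := h6
      exact Finset.disjoint_left.1 (hCd (i, j) (k, l) (fun h => hik (by
        have := congrArg Prod.fst h
        exact this))) hj hl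
  have h5 : s * (t + 1) ≤ s * t := by
    refine le_trans ?_ h4
    calc s * (t + 1) = ∑ i : Fin s, (t + 1) := by simp
      _ ≤ _ := sum_le_sum (fun i _ => hbig i)
  nlinarith

/-- the host graph: `s * t` vertices minus few, no `s` disjoint cycles, treewidth at least
`s * t / 4` minus few -/
theorem host {s t : ℕ} (hs : 1 ≤ s) (ht : 1 ≤ t) :
    ∃ (V : Type) (_ : Fintype V) (G : SimpleGraph V), ¬ IsMinor (tri s) G ∧
      s * t ≤ 4 * (tw G + 2 * t * 119 ^ t) + 7 := by
  classical
  obtain ⟨φ, hφ1, hφ2⟩ := exists_list hs ht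
  obtain ⟨X, hXc, hX⟩ := hit ((patt (Fin (s * t)) (16 * (s * t)) t).filter
    (fun p => φ ∈ badIn p.1 p.2)) (by
      intro p hp
      rw [mem_filter, mem_patt] at hp
      exact card_pos.1 (by omega))
  have hXc' := hXc.trans hφ2
  refine ⟨((Xᶜ : Finset (Fin (s * t))) : Set (Fin (s * t))), inferInstance, (gr φ).induce _,
    no_tri hs φ (by rw [Fintype.card_fin]) X hX _ (fun v hv => by
      rw [mem_coe, mem_compl] at hv
      exact hv), ?_⟩
  · by_contra hlt
    push Not at hlt
    set A : Set (Fin (s * t)) := ((Xᶜ : Finset (Fin (s * t))) : Set (Fin (s * t))) with hA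
    have h1 : TwLE ((gr φ).induce A) (tw ((gr φ).induce A)) := by
      have h : {w | TwLE ((gr φ).induce A) w}.Nonempty := by
        obtain ⟨m, T, bag, h1, h2, h3, h4, h5⟩ := Pool.Agent.W126.Split.td_of_bw
          (Pool.Agent.W126.Split.bw_card (G := (gr φ).induce A) Finset.univ)
        exact ⟨_, m, T, bag, h1, h2, h3, h4, fun i => (h5 i).trans (Nat.le_succ _)⟩
      exact Nat.sInf_mem h
    have h2 : Pool.Agent.W126.Split.Bw (gr φ) (Xᶜ) (tw ((gr φ).induce A) + 1) :=
      Pool.Agent.W126.Split.bw_of_td A Xᶜ rfl h1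
    have h3 := h2.add X
    have h4 : (Xᶜ : Finset (Fin (s * t))) ∪ X = univ := by
      rw [union_comm]
      exact union_compl X
    rw [h4] at h3
    have h5 := h3.mono (S' := univ) (Subset.refl _)
      (show tw ((gr φ).induce A) + 1 + X.card ≤ tw ((gr φ).induce A) + 1 + 2 * t * 119 ^ t by omega)
    obtain ⟨m, T, bag, e1, e2, e3, e4, e5⟩ := Pool.Agent.W126.Split.td_of_bw h5
    refine not_twLE (G := gr φ) (w := tw ((gr φ).induce A) + 2 * t * 119 ^ t) ?_ ?_
      ⟨m, T, bag, e1, e2, e3, e4, fun i => (e5 i).trans (by omega)⟩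
    · intro A' B' hd hA' hB'
      rw [Fintype.card_fin] at hA' hB'
      obtain ⟨i, hi⟩ := hφ1 A' B' hd hA' hB'
      rw [mem_union, mem_product, mem_product] at hi
      rcases hi with hi | hi
      · refine ⟨_, hi.1, _, hi.2, ?_, i, Or.inl rfl⟩
        intro h
        exact Finset.disjoint_left.1 hd hi.1 (h ▸ hi.2)
      · refine ⟨_, hi.2, _, hi.1, ?_, i, Or.inr rfl⟩
        intro h
        exact Finset.disjoint_left.1 hd hi.2 (h ▸ hi.1)
    · rw [Fintype.card_fin]
      omega

end Pool.Agent.Q276.Host
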