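import Mathlib
import Pool.Agent.Q276.Core
import Pool.Agent.Q276.Host
import Pool.Agent.H362SP.Many

/-!
The choice of parameters: adding a pendant vertex does not always increase the threshold by one.
-/

set_option autoImplicit false
set_option linter.unusedSectionVars false

namespace Pool.Agent.Q276.Tw

open SimpleGraph Finset
open Pool.Agent.W126.TAC Pool.Agent.W126.Split
open Pool.Agent.Q276.Host (tri)

/-- triangle minors -/
lemma k3_of_bw {V : Type} [Fintype V] [DecidableEq V] {G : SimpleGraph V} {S : Finset V}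
    (h : ¬ Bw G S 3) : Mod k3 G S := by
  obtain ⟨G', S', h1, h2, h3⟩ := reduce _ G S 3 rfl le_rfl h
  refine h3 _ k3 S' Subset.rfl (k3_of_degree S' ?_ ?_)
  · rw [nonempty_iff_ne_empty]
    rintro rfl
    exact h1 ((bw_card ∅).mono Subset.rfl (by simp))
  · intro v hv
    obtain ⟨a, ha, b, hb, c, hc, hab, hac, hbc, hva, hvb, hvc⟩ := h2 v hv
    exact ⟨a, ha, b, hb, hab, hva, hvb⟩

/-- upper bound -/
lemma force_tri_bot (c t : ℕ) :
    Force (tri c ⊕g (⊥ : SimpleGraph (Fin t))) (114 ^ Nat.clog 2 (c + t) * 3) := by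
  classical
  intro V _ _ G H hb
  obtain ⟨S, h1, h2, h3⟩ := Pool.Agent.H362SP.split_many (ι := Fin c ⊕ Fin t)
    (Nat.clog 2 (c + t)) (by
      rw [Fintype.card_sum, Fintype.card_fin, Fintype.card_fin]
      exact Nat.le_pow_clog (by norm_num) _) (by norm_num) le_rfl hb
  have h4 := fun i : Fin c => k3_of_bw (h3 (Sum.inl i))
  choose D d1 d2 d3 d4 d5 using h4
  have h5 : ∀ j : Fin t, ∃ v, v ∈ S (Sum.inr j) := by
    intro j
    by_contra hcon
    push Not at hcon
    have : S (Sum.inr j) = ∅ := eq_empty_of_forall_notMem hcon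
    apply h3 (Sum.inr j)
    rw [this]
    exact (bw_card ∅).mono Subset.rfl (by simp)
  choose v hv using h5
  refine ⟨fun x => match x with
    | Sum.inl x => D x.1 x.2
    | Sum.inr j => {v j}, ?_, ?_, ?_, ?_, ?_⟩
  · rintro (x | j)
    · exact (d1 _ _).trans (h1 _)
    · exact singleton_subset_iff.2 (h1 _ (hv j))
  · rintro (x | j)
    · exact d2 _ _
    · exact singleton_nonempty _
  · rintro (x | j)
    · exact d3 _ _
    · exact conn_singleton _
  · rintro (⟨x, a⟩ | j) (⟨x', a'⟩ | j') hne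
    · by_cases h : x = x'
      · subst h
        exact d4 _ _ _ (fun h => hne (by rw [show a = a' from h]))
      · exact (h2 _ _ (fun h' => h (Sum.inl.inj h'))).mono (d1 _ _) (d1 _ _)
    · exact (h2 (Sum.inl x) (Sum.inr j') (by simp)).mono (d1 _ _) (singleton_subset_iff.2 (hv _))
    · exact (h2 (Sum.inr j) (Sum.inl x') (by simp)).mono (singleton_subset_iff.2 (hv _)) (d1 _ _)
    · exact (h2 (Sum.inr j) (Sum.inr j') (fun h => hne (by rw [Sum.inr.inj h]))).mono (singleton_subset_iff.2 (hv _))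
        (singleton_subset_iff.2 (hv _))
  · rintro (⟨x, a⟩ | j) (⟨x', a'⟩ | j') hadj
    · rw [SimpleGraph.sum_adj_inl] at hadj
      obtain ⟨h6, h7⟩ := hadj
      simp only at h6 h7
      subst h6
      exact d5 _ _ _ h7
    · simp at hadj
    · simp at hadj
    · simp at hadj

/-- lower bound -/
lemma lower {c t k : ℕ} (hc : 1 ≤ c) (ht : 1 ≤ t) (h : Force (tri c) k) :
    c * t ≤ 4 * (k + 2 * t * 119 ^ t) + 7 := by
  classical
  obtain ⟨V, inst, G, h1, h2⟩ := Pool.Agent.Q276.Host.host hc ht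
  by_contra hcon
  have h3 : k ≤ Pool.Agent.TH507.Host.tw G := by
    by_contra hlt
    apply hcon
    omega
  rcases Nat.eq_zero_or_pos (Pool.Agent.TH507.Host.tw G) with h0 | h0
  · rw [h0] at h2
    omega
  have hb : ¬ Bw G univ (Pool.Agent.TH507.Host.tw G) := by
    intro hb
    obtain ⟨m, T, bag, e1, e2, e3, e4, e5⟩ := td_of_bw hb
    have h6 : Pool.Agent.TH507.Host.TwLE G (Pool.Agent.TH507.Host.tw G - 1) :=
      ⟨m, T, bag, e1, e2, e3, e4, fun i => (e5 i).trans (by omega)⟩
    have h7 : Pool.Agent.TH507.Host.tw G ≤ Pool.Agent.TH507.Host.tw G - 1 := Nat.sInf_le h6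
    omega
  obtain ⟨B, b1, b2, b3, b4, b5⟩ := h.mono h3 V G univ hb
  apply h1
  refine ⟨fun x => (B x : Set V), ?_, ?_, ?_⟩
  · intro x
    have : Nonempty ((B x : Set V)) := by
      obtain ⟨v, hv⟩ := b2 x
      exact ⟨⟨v, hv⟩⟩
    refine SimpleGraph.Connected.mk ?_
    rintro ⟨a, ha⟩ ⟨b, hb⟩
    obtain ⟨p, hp⟩ := b3 x a ha b hb
    have key : ∀ {a b : V} (p : G.Walk a b) (hp : ∀ z ∈ p.support, z ∈ B x)
        (ha : a ∈ (B x : Set V)) (hb : b ∈ (B x : Set V)),
        (G.induce (B x : Set V)).Reachable ⟨a, ha⟩ ⟨b, hb⟩ := by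
      intro a b p
      induction p with
      | nil => intro _ _ _; exact Reachable.refl _
      | @cons a c b hadj p ih =>
        intro hp ha hb
        have hc : c ∈ (B x : Set V) := hp c (by simp)
        have h1 : (G.induce (B x : Set V)).Adj ⟨a, ha⟩ ⟨c, hc⟩ := hadj
        exact h1.reachable.trans (ih (fun z hz => hp z (by simp [hz])) hc hb)
    exact key p hp _ _
  · intro x y hxy
    rw [Finset.disjoint_coe]
    exact b4 x y hxy
  · intro x y hxy
    obtain ⟨u, hu, v, hv, huv⟩ := b5 x y hxy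
    exact ⟨u, hu, v, hv, huv⟩

/-- disjoint triangles span at most as many edges as vertices -/
lemma pf_tri (c : ℕ) : Pf (tri c) := by
  classical
  intro U
  unfold e2
  rw [mul_comm, ← smul_eq_mul, ← sum_const]
  refine sum_le_sum fun v _ => ?_
  unfold dg
  have hsub : U.filter (fun u => (tri c).Adj v u) ⊆
      ((univ : Finset (Fin 3)).erase v.2).image (fun a => (v.1, a)) := by
    intro u hu
    rw [mem_filter] at hu
    obtain ⟨-, h1, h2⟩ := hu
    rw [mem_image]
    exact ⟨u.2, mem_erase.2 ⟨h2.symm, mem_univ _⟩, Prod.ext h1 rfl⟩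
  refine (card_le_card hsub).trans (card_image_le.trans ?_)
  rw [card_erase_of_mem (mem_univ _), card_univ, Fintype.card_fin]

/-- one more triangle -/
lemma force_succ {c : ℕ} {B : Type} {F : SimpleGraph B} {k : ℕ} (h : Force (tri (c + 1) ⊕g F) k) :
    Force ((tri c ⊕g k3) ⊕g F) k := by
  refine h.of_hom (fun x => match x with
    | Sum.inl (Sum.inl x) => Sum.inl (x.1.castSucc, x.2)
    | Sum.inl (Sum.inr a) => Sum.inl (Fin.last c, a)
    | Sum.inr b => Sum.inr b) ?_ ?_
  · rintro ((⟨x, a⟩ | a) | b) ((⟨x', a'⟩ | a') | b') h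
    · simp only [Sum.inl.injEq, Prod.mk.injEq] at h
      rw [Fin.castSucc_injective _ h.1, h.2]
    · simp only [Sum.inl.injEq, Prod.mk.injEq] at h
      exact absurd h.1 (Fin.castSucc_lt_last _).ne
    · simp at h
    · simp only [Sum.inl.injEq, Prod.mk.injEq] at h
      exact absurd h.1 (Fin.castSucc_lt_last _).ne'
    · simp only [Sum.inl.injEq, Prod.mk.injEq] at h
      rw [h.2]
    · simp at h
    · simp at h
    · simp at h
    · simp only [Sum.inr.injEq] at h
      rw [h]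
  · rintro ((⟨x, a⟩ | a) | b) ((⟨x', a'⟩ | a') | b') hadj
    · simp only [SimpleGraph.sum_adj_inl] at hadj ⊢
      exact ⟨congrArg Fin.castSucc hadj.1, hadj.2⟩
    · simp at hadj
    · simp at hadj
    · simp at hadj
    · simp only [SimpleGraph.sum_adj_inl, SimpleGraph.sum_adj_inr] at hadj ⊢
      exact ⟨rfl, hadj⟩
    · simp at hadj
    · simp at hadj
    · simp at hadj
    · simpa using hadj

lemma force_pred {c : ℕ} {B : Type} {F : SimpleGraph B} {k : ℕ}
    (h : Force ((tri c ⊕g k3) ⊕g F) k) : Force (tri (c + 1) ⊕g F) k := by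
  refine h.of_hom (fun x => match x with
    | Sum.inl x => if h : x.1.1 < c then Sum.inl (Sum.inl (⟨x.1.1, h⟩, x.2)) else
      Sum.inl (Sum.inr x.2)
    | Sum.inr b => Sum.inr b) ?_ ?_
  · rintro (⟨x, a⟩ | b) (⟨x', a'⟩ | b') h
    · have h1 := x.2
      have h2 := x'.2
      dsimp only at h
      split_ifs at h with h3 h4 h4
      · simp only [Sum.inl.injEq, Prod.mk.injEq, Fin.mk.injEq] at h
        rw [Fin.ext h.1, h.2]
      · simp at h
      · simp at h
      · simp only [Sum.inl.injEq, Sum.inr.injEq] at h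
        rw [h, Fin.ext (show x.1 = x'.1 by omega)]
    · dsimp only at h
      split_ifs at h
    · dsimp only at h
      split_ifs at h
    · simpa using h
  · rintro (⟨x, a⟩ | b) (⟨x', a'⟩ | b') hadj
    · rw [SimpleGraph.sum_adj_inl] at hadj
      obtain ⟨h1, h2⟩ := hadj
      simp only at h1 h2
      subst h1
      dsimp only
      split_ifs
      · simp only [SimpleGraph.sum_adj_inl]
        exact ⟨rfl, h2⟩
      · simp only [SimpleGraph.sum_adj_inl, SimpleGraph.sum_adj_inr]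
        exact h2
    · simp at hadj
    · simp at hadj
    · simpa using hadj

/-- the thresholds for triangles and isolated vertices -/
noncomputable def bb (c t : ℕ) : ℕ := thr (tri c ⊕g (⊥ : SimpleGraph (Fin t)))

lemma ex_bot (c t : ℕ) : Ex (tri c ⊕g (⊥ : SimpleGraph (Fin t))) := ⟨_, force_tri_bot c t⟩

lemma bb_mono {c t t' : ℕ} (h : t ≤ t') : bb c t ≤ bb c t' := by
  refine (thr_mono (ex_bot c t') (fun x => match x with
    | Sum.inl x => Sum.inl x
    | Sum.inr j => Sum.inr (Fin.castLE h j)) ?_ ?_).2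
  · rintro (x | j) (x' | j') hh
    · simpa using hh
    · simp at hh
    · simp at hh
    · simpa using hh
  · rintro (x | j) (x' | j') hh
    · simpa using hh
    · simp at hh
    · simp at hh
    · simp at hh

lemma bb_le (c t : ℕ) (h : 1 ≤ c + t) : bb c t ≤ 342 * (c + t) ^ 7 := by
  have h1 : bb c t ≤ 114 ^ Nat.clog 2 (c + t) * 3 := thr_le (force_tri_bot c t)
  have h2 := Pool.Agent.H362SP.pow_clog_le (c + t) h
  omega

lemma lower_bb {c t s : ℕ} (hc : 1 ≤ c) (hs : 1 ≤ s) :
    c * s ≤ 4 * (bb c t + 2 * s * 119 ^ s) + 7 := by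
  refine lower hc hs ?_
  exact (ex_bot c t).force.of_hom Sum.inl Sum.inl_injective (fun x y h => by simpa using h)

lemma forest_rest {B : Type} [Fintype B] [DecidableEq B] {F : SimpleGraph B} (hF : Forest F)
    (R : Finset B) {n : ℕ} (hn : e2 F univ = 2 * n)
    (hRe : e2 F R = 2 * (R.card - 1)) (hRb : ∀ a ∈ R, ∀ b, b ∉ R → ¬ F.Adj a b) :
    Forest (F.comap (Subtype.val : {x : B // x ∉ R} → B)) ∧
      e2 (F.comap (Subtype.val : {x : B // x ∉ R} → B)) univ = 2 * (n - (R.card - 1)) ∧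
      Fintype.card {x : B // x ∉ R} = Fintype.card B - R.card ∧ R.card - 1 ≤ n := by
  classical
  let φ : {x : B // x ∉ R} ↪ B := Function.Embedding.subtype _
  have hφ : ∀ x y, (F.comap (Subtype.val : {x : B // x ∉ R} → B)).Adj x y ↔
      F.Adj (φ x) (φ y) := fun _ _ => Iff.rfl
  have hmap : (univ : Finset {x : B // x ∉ R}).map φ = Rᶜ := by
    ext x
    simp [φ]
  have h1 := e2_union (G := F) (U := R) (U' := Rᶜ) disjoint_compl_right
    (fun a ha b hb => hRb a ha b (mem_compl.1 hb))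
  rw [union_compl, hn, hRe, ← hmap, ← e2_emb φ hφ] at h1
  refine ⟨hF.emb φ hφ, by omega, ?_, by omega⟩
  rw [← card_univ, ← card_map φ, hmap, card_compl]

/-- the parameters -/
lemma params (d M r n b : ℕ) (hd : d + 1 = 119 ^ 2560) :
    ∃ k C : ℕ, M ≤ 8 * k + 4 ∧ 1 ≤ C ∧ C * (80 * k) > 4 * (b + C * (8 * k + 8) + 2 * (80 * k) *
      119 ^ (80 * k)) + 7 ∧ 1 ≤ k ∧ 342 * (C + r) ^ 7 + n ≤ d * (d + 1) ^ k := by
  obtain ⟨k, hk⟩ : ∃ k, k = M + r + n + 342 + 4 * b + 7 := ⟨_, rfl⟩
  have hself : ∀ m : ℕ, m < 119 ^ m := fun m => Nat.lt_pow_self (by norm_num)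
  obtain ⟨C, hC⟩ : ∃ C, C = 119 ^ (160 * k) := ⟨_, rfl⟩
  obtain ⟨c, hc⟩ : ∃ c, c = 119 ^ (80 * k) := ⟨_, rfl⟩
  have hCc : C = c * c := by
    rw [hC, hc, ← pow_add]
    congr 1
    ring
  have hck : 80 * k < c := by rw [hc]; exact hself _
  have hCk : 80 * k < C := by nlinarith
  have hd1 : 1 ≤ d := by
    have : 119 ^ 1 ≤ 119 ^ 2560 := Nat.pow_le_pow_right (by norm_num) (by norm_num)
    omega
  refine ⟨k, C, by omega, by omega, ?_, by omega, ?_⟩
  · rw [← hc]
    have h1 : 2 * (80 * k) * c ≤ 2 * C := by nlinarith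
    have h2 : 4 * b + 7 ≤ C := by omega
    nlinarith
  · have h1 : (d + 1) ^ k = C ^ 16 := by
      rw [hd, hC, ← pow_mul, ← pow_mul]
      congr 1
      ring
    rw [h1]
    have h2 : C ^ 16 ≤ d * C ^ 16 := Nat.le_mul_of_pos_left _ hd1
    refine le_trans ?_ h2
    have hr : r ≤ C := by omega
    have hn : n ≤ C := by omega
    have h342 : 342 ≤ C := by omega
    calc 342 * (C + r) ^ 7 + n ≤ C * (C + C) ^ 7 + C :=
          Nat.add_le_add (Nat.mul_le_mul h342 (Nat.pow_le_pow_left (by omega) 7)) hn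
      _ = 128 * C ^ 8 + C := by ring
      _ ≤ C * C ^ 8 + C ^ 9 := by
          refine Nat.add_le_add (Nat.mul_le_mul_right _ (by omega)) ?_
          calc C = C ^ 1 := (pow_one C).symm
            _ ≤ C ^ 9 := Nat.pow_le_pow_right (by omega) (by norm_num)
      _ = 2 * C ^ 9 := by ring
      _ ≤ C * C ^ 9 := Nat.mul_le_mul_right _ (by omega)
      _ = C ^ 10 := by ring
      _ ≤ C ^ 16 := Nat.pow_le_pow_right (by omega) (by norm_num)

/-- pendant vertices do not always increase the threshold by one -/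
theorem not_hyp : ¬ Hyp := by
  classical
  intro hyp
  obtain ⟨d, hd⟩ : ∃ d, d + 1 = 119 ^ 2560 := ⟨119 ^ 2560 - 1, Nat.sub_add_cancel
    (Nat.one_le_pow _ _ (by norm_num))⟩
  obtain ⟨B, iB, dB, F, hF, hU⟩ := exists_univ (2 * d + 6)
  obtain ⟨n, hn⟩ : ∃ n, e2 F univ = 2 * n := by
    obtain ⟨n, hn⟩ := even_e2 (G := F) _ univ rfl
    exact ⟨n, by omega⟩
  obtain ⟨r, hr⟩ : ∃ r, r = Fintype.card B - n := ⟨_, rfl⟩
  have gr : ∀ c, Ex (tri c ⊕g F) ∧ thr (tri c ⊕g F) = bb c r + n := by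
    intro c
    obtain ⟨h1, h2⟩ := grow hyp (pf_tri c) n F hF hn
    rw [← hr] at h2
    exact h2 (ex_bot c r)
  have hnB : n ≤ Fintype.card B := (grow hyp (pf_tri 0) n F hF hn).1
  obtain ⟨k, C, hMk, hC1, hCk, hk1, hbig⟩ := params d (2 * d + 6) r n (bb 0 r) hd
  -- a large jump
  obtain ⟨c, hcC, hjump⟩ : ∃ c, c < C ∧ bb c r + (8 * k + 9) ≤ bb (c + 1) r := by
    by_contra hcon
    push Not at hcon
    have h1 : ∀ m, m ≤ C → bb m r ≤ bb 0 r + m * (8 * k + 8) := by
      intro m
      induction m with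
      | zero => intro _; simp
      | succ m ih =>
        intro hm
        have h2 := ih (by omega)
        have h3 := hcon m (by omega)
        have h4 : (m + 1) * (8 * k + 8) = m * (8 * k + 8) + (8 * k + 8) := by ring
        omega
    have h2 := h1 C le_rfl
    have h3 := lower_bb (t := r) hC1 (show 1 ≤ 80 * k by omega)
    omega
  obtain ⟨N, hN⟩ : ∃ N, N + 1 = bb (c + 1) r + n := ⟨bb (c + 1) r + n - 1, by omega⟩
  obtain ⟨g1, g2⟩ := gr c
  obtain ⟨g3, g4⟩ := gr (c + 1)
  have hcore := core (tri c) F d k (2 * d + 6) N le_rfl hMk (by omega) hU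
    (g1.force.mono (by omega)) (by
      intro R _ _ hRe hRb
      obtain ⟨f1, f2, f3, f4⟩ := forest_rest hF R hn hRe hRb
      obtain ⟨h1, h2⟩ := grow hyp (pf_tri (c + 1)) (n - (R.card - 1))
        (F.comap (Subtype.val : {x : B // x ∉ R} → B)) f1 f2
      obtain ⟨h3, h4⟩ := h2 (ex_bot _ _)
      refine force_succ (h3.force.mono ?_)
      rw [h4]
      have h5 : bb (c + 1) (Fintype.card {x : B // x ∉ R} - (n - (R.card - 1))) ≤ bb (c + 1) r :=
        bb_mono (by omega)
      unfold bb at h5 hN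
      omega) (by
      refine force_succ (g3.force.mono ?_)
      rw [g4]
      have h1 := bb_le (c + 1) r (by omega)
      have h2 : (c + 1 + r) ^ 7 ≤ (C + r) ^ 7 := Nat.pow_le_pow_left (by omega) 7
      omega)
  have h1 := thr_le (force_pred hcore)
  rw [g4] at h1
  omega

end Pool.Agent.Q276.Tw
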