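import Mathlib

/-!
Core of the proof that the Tutte polynomial of a rooted graph without pendant vertices at the
root is nonzero at `x = 0`: a signed subset sum `f` over edge sets, evaluated at `y = 1/2`.
-/

namespace Pool.Agent.Q276.RG

open Finset Classical

variable {V E : Type} [Fintype V] (ends : E → Sym2 V)

/-- `S` is a union of components of the graph with edge set `A`. -/
def Closed (A : Finset E) (S : Finset V) : Prop :=
  ∀ e ∈ A, ∀ u ∈ ends e, ∀ v ∈ ends e, u ∈ S → v ∈ S

/-- vertices reachable from `B` by edges of `A`. -/
noncomputable def R (B : Finset V) (A : Finset E) : Finset V :=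
  univ.filter fun v => ∀ S : Finset V, B ⊆ S → Closed ends A S → v ∈ S

variable {ends}

theorem sub_R (B : Finset V) (A : Finset E) : B ⊆ R ends B A := by
  intro v hv
  simp only [R, mem_filter, mem_univ, true_and]
  intro S hS _
  exact hS hv

theorem R_sub {B : Finset V} {A : Finset E} {S : Finset V} (h : B ⊆ S) (hc : Closed ends A S) :
    R ends B A ⊆ S := by
  intro v hv
  simp only [R, mem_filter, mem_univ, true_and] at hv
  exact hv S h hc

theorem closed_R (B : Finset V) (A : Finset E) : Closed ends A (R ends B A) := by
  intro e he u hu v hv huR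
  simp only [R, mem_filter, mem_univ, true_and] at huR ⊢
  intro S hS hc
  exact hc e he u hu v hv (huR S hS hc)

theorem Closed.mono {A A' : Finset E} {S : Finset V} (h : Closed ends A' S) (hA : A ⊆ A') :
    Closed ends A S := fun e he => h e (hA he)

theorem R_mono {B B' : Finset V} {A A' : Finset E} (hB : B ⊆ B') (hA : A ⊆ A') :
    R ends B A ⊆ R ends B' A' :=
  R_sub (hB.trans (sub_R _ _)) ((closed_R B' A').mono hA)

/-- contraction of a root edge -/
theorem R_insert {B : Finset V} {A : Finset E} {e : E} {b v : V} (he : ends e = s(b, v))
    (hb : b ∈ B) : R ends B (insert e A) = R ends (insert v B) A := by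
  apply Subset.antisymm
  · apply R_sub
    · exact (subset_insert _ _).trans (sub_R _ _)
    · intro e' he' u hu w hw huS
      rcases mem_insert.1 he' with h | h
      · subst h
        rw [he, Sym2.mem_iff] at hw
        rcases hw with h | h
        · subst h
          exact sub_R _ _ (mem_insert_of_mem hb)
        · subst h
          exact sub_R _ _ (mem_insert_self _ _)
      · exact closed_R _ _ e' h u hu w hw huS
  · apply R_sub
    · intro w hw
      rcases mem_insert.1 hw with h | h
      · subst h
        exact closed_R _ _ e (mem_insert_self _ _) b (by rw [he]; exact Sym2.mem_mk_left _ _) w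
          (by rw [he]; exact Sym2.mem_mk_right _ _) (sub_R _ _ hb)
      · exact sub_R _ _ h
    · exact (closed_R _ _).mono (subset_insert _ _)

/-- an edge all or none of whose ends are reachable is irrelevant -/
theorem R_insert_irrel {B : Finset V} {A : Finset E} {e : E}
    (h : ∀ u ∈ ends e, ∀ v ∈ ends e, u ∈ R ends B A → v ∈ R ends B A) :
    R ends B (insert e A) = R ends B A := by
  apply Subset.antisymm
  · apply R_sub (sub_R _ _)
    intro e' he' u hu w hw huS
    rcases mem_insert.1 he' with h' | h'
    · subst h'
      exact h u hu w hw huS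
    · exact closed_R _ _ e' h' u hu w hw huS
  · exact R_mono (Subset.refl _) (subset_insert _ _)

/-- the summand -/
noncomputable def w (ends : E → Sym2 V) (B U I : Finset V) (A : Finset E) : ℚ :=
  if Disjoint (R ends B A) U ∧ I ⊆ R ends B A then
    (-1 / 2) ^ A.card * 2 ^ (R ends B A).card else 0

noncomputable def g (ends : E → Sym2 V) (B U I : Finset V) (F : Finset E) : ℚ :=
  ∑ A ∈ F.powerset, w ends B U I A

noncomputable def f (ends : E → Sym2 V) (B U I : Finset V) (F : Finset E) : ℚ :=
  (-1) ^ (Fintype.card V + U.card + B.card) * (1 / 2) ^ B.card * g ends B U I F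

theorem g_split {B U I : Finset V} {F : Finset E} {e : E} (he : e ∈ F) :
    g ends B U I F = g ends B U I (F.erase e) +
      ∑ A ∈ (F.erase e).powerset, w ends B U I (insert e A) := by
  unfold g
  conv_lhs => rw [← insert_erase he]
  rw [sum_powerset_insert (notMem_erase e F)]

theorem f_dc {B U I : Finset V} {F : Finset E} {e : E} {b v : V} (he : e ∈ F)
    (hends : ends e = s(b, v)) (hb : b ∈ B) (hv : v ∉ B) :
    f ends B U I F = f ends B U I (F.erase e) + f ends (insert v B) U I (F.erase e) := by
  have h1 : ∑ A ∈ (F.erase e).powerset, w ends B U I (insert e A) =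
      (-1 / 2) * g ends (insert v B) U I (F.erase e) := by
    unfold g
    rw [mul_sum]
    apply sum_congr rfl
    intro A hA
    have heA : e ∉ A := fun h => notMem_erase e F (mem_powerset.1 hA h)
    unfold w
    rw [R_insert hends hb, card_insert_of_notMem heA]
    split_ifs
    · ring
    · ring
  unfold f
  rw [g_split he, h1, card_insert_of_notMem hv]
  rw [show Fintype.card V + U.card + (B.card + 1) = (Fintype.card V + U.card + B.card) + 1 by ring,
    pow_succ, pow_succ]
  ring

/-- free edges contribute a factor `1/2` -/
theorem g_free {B U I : Finset V} {F : Finset E} {e : E} (he : e ∈ F)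
    (h : ∀ A ⊆ F.erase e, Disjoint (R ends B A) U → R ends B (insert e A) = R ends B A) :
    g ends B U I F = (1 / 2) * g ends B U I (F.erase e) := by
  have h1 : ∑ A ∈ (F.erase e).powerset, w ends B U I (insert e A) =
      (-1 / 2) * g ends B U I (F.erase e) := by
    unfold g
    rw [mul_sum]
    apply sum_congr rfl
    intro A hA
    have heA : e ∉ A := fun h => notMem_erase e F (mem_powerset.1 hA h)
    by_cases hd : Disjoint (R ends B A) U
    · unfold w
      rw [h A (mem_powerset.1 hA) hd, card_insert_of_notMem heA]
      split_ifs
      · ring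
      · ring
    · have hd' : ¬ Disjoint (R ends B (insert e A)) U := fun hh =>
        hd (hh.mono_left (R_mono (Subset.refl _) (subset_insert _ _)))
      unfold w
      simp [hd, hd']
  rw [g_split he, h1]
  ring

theorem f_free {B U I : Finset V} {F : Finset E} {e : E} (he : e ∈ F)
    (h : ∀ A ⊆ F.erase e, Disjoint (R ends B A) U → R ends B (insert e A) = R ends B A) :
    f ends B U I F = (1 / 2) * f ends B U I (F.erase e) := by
  unfold f
  rw [g_free he h]
  ring

theorem f_free_B {B U I : Finset V} {F : Finset E} {e : E} (he : e ∈ F)
    (h : ∀ u ∈ ends e, u ∈ B) :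
    f ends B U I F = (1 / 2) * f ends B U I (F.erase e) := by
  apply f_free he
  intro A _ _
  exact R_insert_irrel fun u hu v hv _ => sub_R _ _ (h v hv)

theorem f_free_U {B U I : Finset V} {F : Finset E} {e : E} (he : e ∈ F)
    (h : ∀ u ∈ ends e, u ∈ U) :
    f ends B U I F = (1 / 2) * f ends B U I (F.erase e) := by
  apply f_free he
  intro A _ hd
  exact R_insert_irrel fun u hu v hv huR => absurd (h u hu) (disjoint_left.1 hd huR)

theorem f_BU {B U I : Finset V} {F : Finset E} {e : E} {b u : V} (he : e ∈ F)
    (hends : ends e = s(b, u)) (hb : b ∈ B) (hu : u ∈ U) :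
    f ends B U I F = f ends B U I (F.erase e) := by
  have h1 : ∑ A ∈ (F.erase e).powerset, w ends B U I (insert e A) = 0 := by
    apply sum_eq_zero
    intro A hA
    unfold w
    rw [R_insert hends hb, if_neg]
    rintro ⟨hd, _⟩
    exact disjoint_left.1 hd (sub_R _ _ (mem_insert_self _ _)) hu
  unfold f
  rw [g_split he, h1, add_zero]

theorem f_split {B U I : Finset V} {F : Finset E} {x : V} (hx : x ∉ U) :
    f ends B U I F = f ends B U (insert x I) F - f ends B (insert x U) I F := by
  unfold f g
  rw [card_insert_of_notMem hx, show Fintype.card V + (U.card + 1) + B.card =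
    (Fintype.card V + U.card + B.card) + 1 by ring, pow_succ]
  have : ∑ A ∈ F.powerset, w ends B U I A = ∑ A ∈ F.powerset, w ends B U (insert x I) A +
      ∑ A ∈ F.powerset, w ends B (insert x U) I A := by
    rw [← sum_add_distrib]
    apply sum_congr rfl
    intro A _
    unfold w
    by_cases hxR : x ∈ R ends B A
    · have h1 : ¬ Disjoint (R ends B A) (insert x U) := fun h =>
        disjoint_left.1 h hxR (mem_insert_self _ _)
      have h2 : (insert x I ⊆ R ends B A) ↔ I ⊆ R ends B A := by
        rw [insert_subset_iff]
        exact and_iff_right hxR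
      simp [h1, h2]
    · have h1 : ¬ (insert x I ⊆ R ends B A) := fun h => hxR (h (mem_insert_self _ _))
      have h2 : Disjoint (R ends B A) (insert x U) ↔ Disjoint (R ends B A) U := by
        rw [disjoint_insert_right]
        exact and_iff_right hxR
      simp [h1, h2]
  rw [this]
  ring


theorem f_unreach {B U I : Finset V} {F : Finset E} {v : V} (hv : v ∉ U)
    (h : ∀ A ⊆ F, Disjoint (R ends B A) U → v ∉ R ends B A) :
    f ends B U (insert v I) F = 0 ∧ f ends B U I F = - f ends B (insert v U) I F := by
  have h0 : f ends B U (insert v I) F = 0 := by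
    unfold f g
    rw [sum_eq_zero, mul_zero]
    intro A hA
    unfold w
    rw [if_neg]
    rintro ⟨hd, hI⟩
    exact h A (mem_powerset.1 hA) hd (hI (mem_insert_self _ _))
  refine ⟨h0, ?_⟩
  rw [f_split hv, h0, zero_sub]

theorem f_zero_of_unreach {B U I : Finset V} {F : Finset E} {v : V} (hI : v ∈ I)
    (h : ∀ A ⊆ F, Disjoint (R ends B A) U → v ∉ R ends B A) :
    f ends B U I F = 0 := by
  unfold f g
  rw [sum_eq_zero, mul_zero]
  intro A hA
  unfold w
  rw [if_neg]
  rintro ⟨hd, hI'⟩
  exact h A (mem_powerset.1 hA) hd (hI' hI)

/-- a set of unreachable vertices may be moved to `U`. -/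
theorem f_unreach_set {B U I : Finset V} {F : Finset E} (C : Finset V) (hC : Disjoint C U)
    (h : ∀ v ∈ C, ∀ A ⊆ F, Disjoint (R ends B A) U → v ∉ R ends B A) :
    f ends B U I F = (-1) ^ C.card * f ends B (C ∪ U) I F := by
  induction C using Finset.induction_on with
  | empty => simp
  | insert v C hv ih =>
    have h1 := ih (disjoint_of_subset_left (subset_insert _ _) hC)
      (fun u hu => h u (mem_insert_of_mem hu))
    rw [h1, card_insert_of_notMem hv, insert_union]
    have h2 : v ∉ C ∪ U := by
      rw [mem_union]
      rintro (h' | h')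
      · exact hv h'
      · exact disjoint_left.1 hC (mem_insert_self _ _) h'
    rw [(f_unreach (I := I) h2 (F := F) (B := B) (ends := ends) (fun A hA hd =>
      h v (mem_insert_self _ _) A hA (disjoint_of_subset_right subset_union_right hd))).2]
    ring

theorem not_mem_R_of_loops {B : Finset V} {A : Finset E} {v : V} (hB : v ∉ B)
    (h : ∀ e ∈ A, v ∈ ends e → ∀ u ∈ ends e, u = v) : v ∉ R ends B A := by
  intro hv
  have : R ends B A ⊆ univ.erase v := by
    apply R_sub
    · intro u hu
      rw [mem_erase]
      exact ⟨fun h => hB (h ▸ hu), mem_univ _⟩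
    · intro e he u hu w hw huS
      rw [mem_erase] at huS ⊢
      exact ⟨fun hh => huS.1 (h e he (hh ▸ hw) u hu), mem_univ _⟩
  exact (mem_erase.1 (this hv)).1 rfl

/-- pendant free vertex at a forced vertex: the sum vanishes. -/
theorem f_leaf_zero {B U I : Finset V} {F : Finset E} {e : E} {v x : V} (he : e ∈ F)
    (hends : ends e = s(v, x)) (hvB : v ∉ B) (hvU : v ∉ U) (hvI : v ∉ I)
    (hx : x ∈ I ∨ x ∈ B) (hvx : v ≠ x)
    (hl : ∀ e' ∈ F.erase e, v ∈ ends e' → ∀ u ∈ ends e', u = v) :
    f ends B U I F = 0 := by
  unfold f
  rw [g_split he]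
  unfold g
  rw [← sum_add_distrib, sum_eq_zero, mul_zero]
  intro A hA
  have hAF := mem_powerset.1 hA
  have heA : e ∉ A := fun h => notMem_erase e F (hAF h)
  have hvR : v ∉ R ends B A := not_mem_R_of_loops hvB (fun e' he' => hl e' (hAF he'))
  by_cases hxR : x ∈ R ends B A
  · have hR : R ends B (insert e A) = insert v (R ends B A) := by
      apply Subset.antisymm
      · apply R_sub ((sub_R _ _).trans (subset_insert _ _))
        intro e' he' u hu w hw huS
        rcases mem_insert.1 he' with h | h
        · subst h
          rw [hends, Sym2.mem_iff] at hw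
          rcases hw with h | h
          · subst h
            exact mem_insert_self _ _
          · subst h
            exact mem_insert_of_mem hxR
        · rcases mem_insert.1 huS with h' | h'
          · subst h'
            rw [hl e' (hAF h) hu w hw]
            exact mem_insert_self _ _
          · exact mem_insert_of_mem (closed_R _ _ e' h u hu w hw h')
      · intro u hu
        rcases mem_insert.1 hu with h | h
        · subst h
          exact closed_R _ _ e (mem_insert_self _ _) x (by rw [hends]; exact Sym2.mem_mk_right _ _)
            u (by rw [hends]; exact Sym2.mem_mk_left _ _)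
            (R_mono (Subset.refl _) (subset_insert _ _) hxR)
        · exact R_mono (Subset.refl _) (subset_insert _ _) h
    unfold w
    rw [hR, card_insert_of_notMem heA, card_insert_of_notMem hvR]
    have h1 : Disjoint (insert v (R ends B A)) U ↔ Disjoint (R ends B A) U := by
      rw [disjoint_insert_left]
      exact and_iff_right hvU
    have h2 : I ⊆ insert v (R ends B A) ↔ I ⊆ R ends B A := by
      rw [subset_insert_iff, erase_eq_of_notMem hvI]
    simp only [h1, h2]
    split_ifs
    · ring
    · ring
  · have hxI : x ∈ I := by
      rcases hx with h | h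
      · exact h
      · exact absurd (sub_R _ _ h) hxR
    have hR : R ends B (insert e A) = R ends B A := by
      apply R_insert_irrel
      intro u hu w hw huR
      rw [hends, Sym2.mem_iff] at hu
      rcases hu with h | h
      · subst h
        exact absurd huR hvR
      · subst h
        exact absurd huR hxR
    unfold w
    have h2 : ¬ (I ⊆ R ends B A) := fun h => hxR (h hxI)
    rw [hR]
    simp [h2]

/-- pendant free vertex `v` at a free vertex `x`: both are forced out. -/
theorem f_leaf {B U I : Finset V} {F : Finset E} {e : E} {v x : V} (he : e ∈ F)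
    (hends : ends e = s(v, x)) (hvB : v ∉ B) (hvU : v ∉ U) (hvI : v ∉ I)
    (hxU : x ∉ U) (hvx : v ≠ x)
    (hl : ∀ e' ∈ F.erase e, v ∈ ends e' → ∀ u ∈ ends e', u = v) :
    f ends B U I F = (1 / 2) * f ends B (insert v (insert x U)) I (F.erase e) := by
  rw [f_split hxU, f_leaf_zero he hends hvB hvU (I := insert x I)
    (by rw [mem_insert]; rintro (h | h); exact hvx h; exact hvI h)
    (Or.inl (mem_insert_self _ _)) hvx hl, zero_sub]
  have h1 : v ∉ insert x U := by
    rw [mem_insert]
    rintro (h | h)
    · exact hvx h
    · exact hvU h
  rw [(f_unreach (I := I) (ends := ends) (B := B) (F := F) h1 ?_).2, neg_neg]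
  · exact f_free_U he (fun u hu => by
      rw [hends, Sym2.mem_iff] at hu
      rcases hu with h | h
      · subst h
        exact mem_insert_self _ _
      · subst h
        exact mem_insert_of_mem (mem_insert_self _ _))
  · intro A hA hd hvR
    have : R ends B A ⊆ (R ends B A).erase v := by
      apply R_sub
      · intro u hu
        rw [mem_erase]
        exact ⟨fun h => hvB (h ▸ hu), sub_R _ _ hu⟩
      · intro e' he' u hu w hw huS
        rw [mem_erase] at huS ⊢
        refine ⟨?_, closed_R _ _ e' he' u hu w hw huS.2⟩
        rintro rfl
        by_cases hee : e' = e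
        · subst hee
          rw [hends, Sym2.mem_iff] at hu
          rcases hu with h | h
          · exact huS.1 h
          · subst h
            exact disjoint_left.1 hd huS.2 (mem_insert_self _ _)
        · exact huS.1 (hl e' (mem_erase.2 ⟨hee, hA he'⟩) hw u hu)
    exact (mem_erase.1 (this hvR)).1 rfl

/-- an isolated root vertex may be moved to `U` -/
theorem f_iso {B U I : Finset V} {F : Finset E} {v : V} (hvB : v ∉ B) (hvU : v ∉ U)
    (hl : ∀ e' ∈ F, v ∈ ends e' → ∀ u ∈ ends e', u = v) :
    f ends (insert v B) U I F = f ends B (insert v U) (I.erase v) F := by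
  have key : g ends (insert v B) U I F = 2 * g ends B (insert v U) (I.erase v) F := by
    unfold g
    rw [mul_sum]
    apply sum_congr rfl
    intro A hA
    have hAF := mem_powerset.1 hA
    have hvR : v ∉ R ends B A := not_mem_R_of_loops hvB (fun e' he' => hl e' (hAF he'))
    have hR : R ends (insert v B) A = insert v (R ends B A) := by
      apply Subset.antisymm
      · apply R_sub (insert_subset_insert _ (sub_R _ _))
        intro e' he' u hu w hw huS
        rcases mem_insert.1 huS with h' | h'
        · subst h'
          rw [hl e' (hAF he') hu w hw]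
          exact mem_insert_self _ _
        · exact mem_insert_of_mem (closed_R _ _ e' he' u hu w hw h')
      · intro u hu
        rcases mem_insert.1 hu with h | h
        · subst h
          exact sub_R _ _ (mem_insert_self _ _)
        · exact R_mono (subset_insert _ _) (Subset.refl _) h
    unfold w
    rw [hR, card_insert_of_notMem hvR]
    have h1 : Disjoint (insert v (R ends B A)) U ↔ Disjoint (R ends B A) U := by
      rw [disjoint_insert_left]
      exact and_iff_right hvU
    have h1' : Disjoint (R ends B A) (insert v U) ↔ Disjoint (R ends B A) U := by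
      rw [disjoint_insert_right]
      exact and_iff_right hvR
    have h2 : I ⊆ insert v (R ends B A) ↔ I.erase v ⊆ R ends B A := by
      rw [subset_insert_iff]
    simp only [h1, h1', h2]
    split_ifs
    · ring
    · ring
  unfold f
  rw [key, card_insert_of_notMem hvB, card_insert_of_notMem hvU,
    show Fintype.card V + U.card + (B.card + 1) = Fintype.card V + (U.card + 1) + B.card by ring,
    pow_succ (1 / 2 : ℚ)]
  ring

theorem sum_powerset_union {M : Type*} [AddCommMonoid M] {F1 F2 : Finset E}
    (h : Disjoint F1 F2) (φ : Finset E → M) :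
    ∑ A ∈ (F1 ∪ F2).powerset, φ A = ∑ A ∈ F1.powerset, ∑ A' ∈ F2.powerset, φ (A ∪ A') := by
  induction F2 using Finset.induction_on generalizing φ with
  | empty => simp
  | insert e F2 he ih =>
    have h1 : e ∉ F1 := fun h' => disjoint_left.1 h h' (mem_insert_self _ _)
    have h2 : Disjoint F1 F2 := disjoint_of_subset_right (subset_insert _ _) h
    have h3 : e ∉ F1 ∪ F2 := by
      rw [mem_union]
      rintro (h' | h')
      · exact h1 h'
      · exact he h'
    rw [union_insert, sum_powerset_insert h3, ih h2 φ, ih h2 (fun A => φ (insert e A)),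
      ← sum_add_distrib]
    apply sum_congr rfl
    intro A _
    rw [sum_powerset_insert he]
    congr 1
    apply sum_congr rfl
    intro A' _
    rw [union_insert]

theorem neg_one_pow_add_two_mul (x y : ℕ) : (-1 : ℚ) ^ (x + 2 * y) = (-1) ^ x := by
  rw [pow_add, pow_mul]
  norm_num

/-- multiplicativity over two parts meeting only in the root set -/
theorem f_mul {B U I W1 W2 : Finset V} {F1 F2 : Finset E} (hF : Disjoint F1 F2)
    (hBU : Disjoint B U) (hB1 : Disjoint B W1) (hB2 : Disjoint B W2)
    (hU1 : Disjoint U W1) (hU2 : Disjoint U W2) (h12 : Disjoint W1 W2)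
    (hall : ∀ v, v ∈ B ∨ v ∈ U ∨ v ∈ W1 ∨ v ∈ W2)
    (h1 : ∀ e ∈ F1, ∀ u ∈ ends e, u ∉ W2) (h2 : ∀ e ∈ F2, ∀ u ∈ ends e, u ∉ W1) :
    f ends B U I (F1 ∪ F2) = f ends B (U ∪ W2) (I \ W2) F1 * f ends B (U ∪ W1) (I \ W1) F2 := by
  have key : g ends B U I (F1 ∪ F2) * 2 ^ B.card =
      g ends B (U ∪ W2) (I \ W2) F1 * g ends B (U ∪ W1) (I \ W1) F2 := by
    unfold g
    rw [sum_powerset_union hF, sum_mul_sum, sum_mul]
    apply sum_congr rfl
    intro A1 hA1
    rw [sum_mul]
    apply sum_congr rfl
    intro A2 hA2
    have hA1F := mem_powerset.1 hA1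
    have hA2F := mem_powerset.1 hA2
    have hR1 : Disjoint (R ends B A1) W2 := by
      rw [disjoint_left]
      intro u hu huW
      have : R ends B A1 ⊆ univ \ W2 := by
        apply R_sub
        · intro y hy
          rw [mem_sdiff]
          exact ⟨mem_univ _, disjoint_left.1 hB2 hy⟩
        · intro e he y hy z hz _
          rw [mem_sdiff]
          exact ⟨mem_univ _, h1 e (hA1F he) z hz⟩
      exact (mem_sdiff.1 (this hu)).2 huW
    have hR2 : Disjoint (R ends B A2) W1 := by
      rw [disjoint_left]
      intro u hu huW
      have : R ends B A2 ⊆ univ \ W1 := by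
        apply R_sub
        · intro y hy
          rw [mem_sdiff]
          exact ⟨mem_univ _, disjoint_left.1 hB1 hy⟩
        · intro e he y hy z hz _
          rw [mem_sdiff]
          exact ⟨mem_univ _, h2 e (hA2F he) z hz⟩
      exact (mem_sdiff.1 (this hu)).2 huW
    have hA12 : Disjoint A1 A2 := disjoint_of_subset_left hA1F (disjoint_of_subset_right hA2F hF)
    have hd1 : Disjoint (R ends B A1) (U ∪ W2) ↔ Disjoint (R ends B A1) U := by
      rw [disjoint_union_right]
      exact and_iff_left hR1
    have hd2 : Disjoint (R ends B A2) (U ∪ W1) ↔ Disjoint (R ends B A2) U := by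
      rw [disjoint_union_right]
      exact and_iff_left hR2
    unfold w
    simp only [hd1, hd2, card_union_of_disjoint hA12]
    by_cases hc1 : Disjoint (R ends B A1) U
    · by_cases hc2 : Disjoint (R ends B A2) U
      · have hR : R ends B (A1 ∪ A2) = R ends B A1 ∪ R ends B A2 := by
          apply Subset.antisymm
          · apply R_sub ((sub_R _ _).trans subset_union_left)
            intro e he u hu w hw huS
            rcases mem_union.1 he with he' | he'
            · have : u ∈ R ends B A1 := by
                rcases mem_union.1 huS with h | h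
                · exact h
                · rcases hall u with h' | h' | h' | h'
                  · exact sub_R _ _ h'
                  · exact absurd h' (disjoint_left.1 hc2 h)
                  · exact absurd h' (disjoint_left.1 hR2 h)
                  · exact absurd h' (h1 e (hA1F he') u hu)
              exact mem_union_left _ (closed_R _ _ e he' u hu w hw this)
            · have : u ∈ R ends B A2 := by
                rcases mem_union.1 huS with h | h
                · rcases hall u with h' | h' | h' | h'
                  · exact sub_R _ _ h'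
                  · exact absurd h' (disjoint_left.1 hc1 h)
                  · exact absurd h' (h2 e (hA2F he') u hu)
                  · exact absurd h' (disjoint_left.1 hR1 h)
                · exact h
              exact mem_union_right _ (closed_R _ _ e he' u hu w hw this)
          · apply union_subset
            · exact R_mono (Subset.refl _) subset_union_left
            · exact R_mono (Subset.refl _) subset_union_right
        have hinter : R ends B A1 ∩ R ends B A2 = B := by
          apply Subset.antisymm
          · intro u hu
            rw [mem_inter] at hu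
            rcases hall u with h' | h' | h' | h'
            · exact h'
            · exact absurd h' (disjoint_left.1 hc1 hu.1)
            · exact absurd h' (disjoint_left.1 hR2 hu.2)
            · exact absurd h' (disjoint_left.1 hR1 hu.1)
          · exact subset_inter (sub_R _ _) (sub_R _ _)
        have hcard : (R ends B A1 ∪ R ends B A2).card + B.card =
            (R ends B A1).card + (R ends B A2).card := by
          have := card_union_add_card_inter (R ends B A1) (R ends B A2)
          rwa [hinter] at this
        have hd : Disjoint (R ends B A1 ∪ R ends B A2) U := by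
          rw [disjoint_union_left]
          exact ⟨hc1, hc2⟩
        have hI : I ⊆ R ends B A1 ∪ R ends B A2 ↔
            (I \ W2 ⊆ R ends B A1 ∧ I \ W1 ⊆ R ends B A2) := by
          constructor
          · intro h
            constructor
            · intro u hu
              rw [mem_sdiff] at hu
              rcases mem_union.1 (h hu.1) with h' | h'
              · exact h'
              · rcases hall u with h'' | h'' | h'' | h''
                · exact sub_R _ _ h''
                · exact absurd h'' (disjoint_left.1 hc2 h')
                · exact absurd h'' (disjoint_left.1 hR2 h')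
                · exact absurd h'' hu.2
            · intro u hu
              rw [mem_sdiff] at hu
              rcases mem_union.1 (h hu.1) with h' | h'
              · rcases hall u with h'' | h'' | h'' | h''
                · exact sub_R _ _ h''
                · exact absurd h'' (disjoint_left.1 hc1 h')
                · exact absurd h'' hu.2
                · exact absurd h'' (disjoint_left.1 hR1 h')
              · exact h'
          · rintro ⟨ha, hb⟩ u hu
            by_cases hu2 : u ∈ W2
            · exact mem_union_right _ (hb (mem_sdiff.2 ⟨hu, disjoint_right.1 h12 hu2⟩))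
            · exact mem_union_left _ (ha (mem_sdiff.2 ⟨hu, hu2⟩))
        rw [hR]
        by_cases hI1 : I \ W2 ⊆ R ends B A1
        · by_cases hI2 : I \ W1 ⊆ R ends B A2
          · rw [if_pos ⟨hd, hI.2 ⟨hI1, hI2⟩⟩, if_pos ⟨hc1, hI1⟩, if_pos ⟨hc2, hI2⟩, mul_assoc,
              ← pow_add, hcard]
            ring
          · have hn : ¬ (I ⊆ R ends B A1 ∪ R ends B A2) := fun h => hI2 (hI.1 h).2
            simp [hn, hI2]
        · have hn : ¬ (I ⊆ R ends B A1 ∪ R ends B A2) := fun h => hI1 (hI.1 h).1
          simp [hn, hI1]
      · have hn : ¬ Disjoint (R ends B (A1 ∪ A2)) U := fun h =>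
          hc2 (disjoint_of_subset_left (R_mono (Subset.refl _) subset_union_right) h)
        simp [hc2, hn]
    · have hn : ¬ Disjoint (R ends B (A1 ∪ A2)) U := fun h =>
        hc1 (disjoint_of_subset_left (R_mono (Subset.refl _) subset_union_left) h)
      simp [hc1, hn]
  have hV : Fintype.card V = B.card + U.card + W1.card + W2.card := by
    have : (univ : Finset V) = ((B ∪ U) ∪ W1) ∪ W2 := by
      ext v
      simp only [mem_univ, mem_union, true_iff]
      rcases hall v with h | h | h | h <;> tauto
    rw [← card_univ, this, card_union_of_disjoint, card_union_of_disjoint, card_union_of_disjoint]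
    · exact hBU
    · rw [disjoint_union_left]; exact ⟨hB1, hU1⟩
    · rw [disjoint_union_left, disjoint_union_left]; exact ⟨⟨hB2, hU2⟩, h12⟩
  have h2B : (2 : ℚ) ^ B.card ≠ 0 := by positivity
  have key' : g ends B U I (F1 ∪ F2) =
      g ends B (U ∪ W2) (I \ W2) F1 * g ends B (U ∪ W1) (I \ W1) F2 * (1 / 2) ^ B.card := by
    rw [← key, mul_assoc, ← mul_pow]
    norm_num
  unfold f
  rw [key', card_union_of_disjoint hU1, card_union_of_disjoint hU2, hV]
  have e1 : (-1 : ℚ) ^ (B.card + U.card + W1.card + W2.card + U.card + B.card) =
      (-1) ^ (B.card + U.card + W1.card + W2.card + (U.card + W2.card) + B.card) *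
      (-1) ^ (B.card + U.card + W1.card + W2.card + (U.card + W1.card) + B.card) := by
    rw [← pow_add]
    have : B.card + U.card + W1.card + W2.card + (U.card + W2.card) + B.card +
        (B.card + U.card + W1.card + W2.card + (U.card + W1.card) + B.card) =
        (B.card + U.card + W1.card + W2.card + U.card + B.card) +
        2 * (B.card + U.card + W1.card + W2.card) := by ring
    rw [this, neg_one_pow_add_two_mul]
  rw [e1]
  ring


/-! ### Degrees, non-root-to-`U` edges and the base case -/

/-- edges of `F` none of whose ends lies in `U` -/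
noncomputable def Avoid (ends : E → Sym2 V) (F : Finset E) (U : Finset V) : Finset E :=
  F.filter fun e => ∀ u ∈ ends e, u ∉ U

/-- number of non-loop edges of `F` at `v` -/
noncomputable def deg (ends : E → Sym2 V) (F : Finset E) (v : V) : ℕ :=
  (F.filter fun e => v ∈ ends e ∧ ∃ u ∈ ends e, u ≠ v).card

def BU (ends : E → Sym2 V) (B U : Finset V) (e : E) : Prop :=
  (∃ b ∈ ends e, b ∈ B) ∧ ∃ u ∈ ends e, u ∈ U

noncomputable def eStar (ends : E → Sym2 V) (F : Finset E) (B U : Finset V) : ℕ :=
  (F.filter fun e => ¬ BU ends B U e).card

theorem eStar_mono {F F' : Finset E} {B B' U U' : Finset V} (hF : F ⊆ F') (hB : B' ⊆ B)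
    (hU : U' ⊆ U) : eStar ends F B U ≤ eStar ends F' B' U' := by
  unfold eStar
  apply card_le_card
  intro e he
  rw [mem_filter] at he ⊢
  refine ⟨hF he.1, fun h => he.2 ?_⟩
  obtain ⟨⟨b, hb, hb'⟩, u, hu, hu'⟩ := h
  exact ⟨⟨b, hb, hB hb'⟩, u, hu, hU hu'⟩

theorem eStar_erase {F : Finset E} {B U : Finset V} {e : E} (he : e ∈ F) (h : ¬ BU ends B U e) :
    eStar ends F B U = eStar ends (F.erase e) B U + 1 := by
  unfold eStar
  rw [filter_erase, card_erase_of_mem (mem_filter.2 ⟨he, h⟩)]
  have : 0 < (F.filter fun e => ¬ BU ends B U e).card := card_pos.2 ⟨e, mem_filter.2 ⟨he, h⟩⟩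
  omega

theorem eStar_erase_BU {F : Finset E} {B U : Finset V} {e : E} (h : BU ends B U e) :
    eStar ends F B U = eStar ends (F.erase e) B U := by
  unfold eStar
  rw [filter_erase, erase_eq_of_notMem]
  intro h'
  exact (mem_filter.1 h').2 h

theorem deg_le_erase {F : Finset E} {e : E} {v : V} :
    deg ends F v ≤ deg ends (F.erase e) v + 1 := by
  unfold deg
  rw [filter_erase]
  have := pred_card_le_card_erase (s := F.filter fun e => v ∈ ends e ∧ ∃ u ∈ ends e, u ≠ v)
    (a := e)
  omega

theorem deg_erase_of_not {F : Finset E} {e : E} {v : V} (h : v ∉ ends e) :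
    deg ends (F.erase e) v = deg ends F v := by
  unfold deg
  rw [filter_erase, erase_eq_of_notMem]
  intro h'
  exact h (mem_filter.1 h').2.1

theorem R_empty (B : Finset V) : R ends B ∅ = B := by
  apply Subset.antisymm
  · apply R_sub (Subset.refl _)
    intro e he
    exact absurd he (notMem_empty _)
  · exact sub_R _ _

theorem f_base {B U I : Finset V} (hBU : Disjoint B U) (hIU : Disjoint I U)
    (hall : ∀ v, v ∈ B ∨ v ∈ U) (F : Finset E) :
    f ends B U I F = (1 / 2) ^ eStar ends F B U := by
  induction F using Finset.induction_on with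
  | empty =>
    have hI : I ⊆ B := by
      intro v hv
      rcases hall v with h | h
      · exact h
      · exact absurd h (disjoint_left.1 hIU hv)
    have hV : Fintype.card V = B.card + U.card := by
      rw [← card_univ, ← card_union_of_disjoint hBU]
      congr 1
      ext v
      simp only [mem_univ, mem_union, true_iff]
      exact hall v
    unfold f g w eStar
    simp only [powerset_empty, sum_singleton, R_empty, card_empty, pow_zero, filter_empty]
    rw [if_pos ⟨hBU, hI⟩, hV,
      show B.card + U.card + U.card + B.card = 0 + 2 * (B.card + U.card) by ring,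
      neg_one_pow_add_two_mul, one_mul, mul_assoc, pow_zero, one_mul, ← mul_pow]
    norm_num
  | insert e F he ih =>
    have he' : (insert e F).erase e = F := erase_insert he
    have hm : e ∈ insert e F := mem_insert_self _ _
    by_cases hBUe : BU ends B U e
    · obtain ⟨⟨b, hb, hb'⟩, u, hu, hu'⟩ := id hBUe
      have hne : b ≠ u := fun h => disjoint_left.1 hBU hb' (h ▸ hu')
      have hends : ends e = s(b, u) := (Sym2.mem_and_mem_iff hne).1 ⟨hb, hu⟩
      rw [f_BU hm hends hb' hu', he', eStar_erase_BU hBUe, he', ih]
    · have h2 : f ends B U I (insert e F) = (1 / 2) * f ends B U I ((insert e F).erase e) := by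
        by_cases hB : ∀ u ∈ ends e, u ∈ B
        · exact f_free_B hm hB
        · apply f_free_U hm
          intro u hu
          rcases hall u with h | h
          · exfalso
            push Not at hB
            obtain ⟨x, hx, hxB⟩ := hB
            rcases hall x with h' | h'
            · exact hxB h'
            · exact hBUe ⟨⟨u, hu, h⟩, x, hx, h'⟩
          · exact h
      rw [h2, he', ih, eStar_erase hm hBUe, he', pow_succ]
      ring

theorem f_free_U_set {B U I : Finset V} (G : Finset E) : ∀ {F : Finset E}, G ⊆ F →
    (∀ e ∈ G, ∀ u ∈ ends e, u ∈ U) →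
    f ends B U I F = (1 / 2) ^ G.card * f ends B U I (F \ G) := by
  induction G using Finset.induction_on with
  | empty => intro F _ _; simp
  | insert e G he ih =>
    intro F hGF h
    have heF : e ∈ F := hGF (mem_insert_self _ _)
    rw [f_free_U heF (h e (mem_insert_self _ _)), ih (F := F.erase e) ?_
      (fun e' he' => h e' (mem_insert_of_mem he')), card_insert_of_notMem he, pow_succ]
    · have : F.erase e \ G = F \ insert e G := by
        ext x
        simp only [mem_sdiff, mem_erase, mem_insert]
        tauto
      rw [this]
      ring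
    · intro x hx
      rw [mem_erase]
      exact ⟨fun h => he (h ▸ hx), hGF (mem_insert_of_mem hx)⟩

theorem exists_leaving {B : Finset V} {A : Finset E} {v : V} (hv : v ∈ R ends B A) (hB : v ∉ B) :
    ∃ e ∈ A, ∃ b ∈ ends e, ∃ x ∈ ends e, b ∈ B ∧ x ∉ B := by
  by_contra hcon
  push Not at hcon
  exact hB (R_sub (Subset.refl B) (fun e he u hu x hx huB => hcon e he u hu x hx huB) hv)

theorem exists_nonloop {B : Finset V} {A : Finset E} {v : V} (hv : v ∈ R ends B A) (hB : v ∉ B) :
    ∃ e ∈ A, v ∈ ends e ∧ ∃ x ∈ ends e, x ≠ v := by
  by_contra hcon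
  push Not at hcon
  exact not_mem_R_of_loops hB hcon hv

theorem R_avoid {B U : Finset V} {F A : Finset E} (hA : A ⊆ F) (hd : Disjoint (R ends B A) U) :
    R ends B A ⊆ R ends B (Avoid ends F U) := by
  have : R ends B A ⊆ (R ends B A).filter (· ∈ R ends B (Avoid ends F U)) := by
    apply R_sub
    · intro v hv
      exact mem_filter.2 ⟨sub_R _ _ hv, sub_R _ _ hv⟩
    · intro e he u hu v hv huS
      rw [mem_filter] at huS ⊢
      refine ⟨closed_R _ _ e he u hu v hv huS.1, ?_⟩
      refine closed_R _ _ e ?_ u hu v hv huS.2
      unfold Avoid
      rw [mem_filter]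
      exact ⟨hA he, fun y hy => disjoint_left.1 hd (closed_R _ _ e he u hu y hy huS.1)⟩
  intro v hv
  exact (mem_filter.1 (this hv)).2

end Pool.Agent.Q276.RG
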