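import Pool.Agent.Q276.RG

namespace Pool.Agent.Q276.RG

open Finset Classical

variable {V E : Type} [Fintype V] {ends : E → Sym2 V}

/-- the two consequences of the main estimate -/
def Good (ends : E → Sym2 V) (B U I : Finset V) (F : Finset E) : Prop :=
  0 < f ends B U I F ∧ (I ⊆ B → (1 / 2) ^ eStar ends F B U ≤ f ends B U I F ∧
    ((∃ v, v ∉ B ∧ v ∉ U) → (1 / 2) ^ eStar ends F B U ≤ (1 / 2) * f ends B U I F))

theorem half_pow_le {a b : ℕ} (h : b ≤ a) : (1 / 2 : ℚ) ^ a ≤ (1 / 2) ^ b :=
  pow_le_pow_of_le_one (by norm_num) (by norm_num) h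

/-- assembling `Good` from positivity and the strong bound -/
theorem Good.mk' {B U I : Finset V} {F : Finset E} (h0 : 0 < f ends B U I F)
    (h1 : I ⊆ B → (1 / 2) ^ eStar ends F B U ≤ (1 / 2) * f ends B U I F) :
    Good ends B U I F := by
  refine ⟨h0, fun hI => ⟨?_, fun _ => h1 hI⟩⟩
  have := h1 hI
  linarith

theorem main (n : ℕ) : ∀ (F : Finset E), F.card = n → ∀ B U I : Finset V, Disjoint B U →
    Disjoint I U → (∀ v, v ∉ U → v ∈ R ends B (Avoid ends F U)) →
    (∀ v, v ∉ B → v ∉ U → v ∉ I → 2 ≤ deg ends F v) → Good ends B U I F := by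
  induction n using Nat.strong_induction_on with
  | _ n IH =>
  intro F hn B U I hBU hIU H1 H2
  by_cases hall : ∀ v, v ∈ B ∨ v ∈ U
  · have hf := f_base (ends := ends) hBU hIU hall F
    refine ⟨?_, fun _ => ⟨hf.ge, ?_⟩⟩
    · rw [hf]
      positivity
    · rintro ⟨v, hv, hv'⟩
      rcases hall v with h | h
      · exact absurd h hv
      · exact absurd h hv'
  push Not at hall
  obtain ⟨v0, hv0B, hv0U⟩ := hall
  obtain ⟨e, heA, b, hb, v, hv, hbB, hvB⟩ := exists_leaving (H1 v0 hv0U) hv0B
  have heF : e ∈ F := (mem_filter.1 heA).1
  have heU : ∀ u ∈ ends e, u ∉ U := (mem_filter.1 heA).2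
  have hvU : v ∉ U := heU v hv
  have hbv : b ≠ v := fun h => hvB (h ▸ hbB)
  have hends : ends e = s(b, v) := (Sym2.mem_and_mem_iff hbv).1 ⟨hb, hv⟩
  have heBU : ¬ BU ends B U e := by
    rintro ⟨_, u, hu, hu'⟩
    exact heU u hu hu'
  have hmem : ∀ x, x ∈ ends e ↔ x = b ∨ x = v := by
    intro x
    rw [hends, Sym2.mem_iff]
  have hcard : (F.erase e).card < n := by
    rw [← hn]
    exact card_erase_lt_of_mem heF
  have hdc := f_dc (U := U) (I := I) heF hends hbB hvB
  have hes := eStar_erase (B := B) (U := U) heF heBU
  -- the contraction is good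
  have hBU' : Disjoint (insert v B) U := by
    rw [disjoint_insert_left]
    exact ⟨hvU, hBU⟩
  have H1c : ∀ w, w ∉ U → w ∈ R ends (insert v B) (Avoid ends (F.erase e) U) := by
    intro w hw
    apply R_sub (S := R ends (insert v B) (Avoid ends (F.erase e) U)) ?_ ?_ (H1 w hw)
    · exact (subset_insert _ _).trans (sub_R _ _)
    · intro e' he' x hx y hy hxS
      by_cases hee : e' = e
      · subst hee
        rcases (hmem y).1 hy with h | h
        · exact sub_R _ _ (mem_insert_of_mem (h ▸ hbB))
        · exact sub_R _ _ (h ▸ mem_insert_self _ _)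
      · refine closed_R _ _ e' ?_ x hx y hy hxS
        have := mem_filter.1 he'
        exact mem_filter.2 ⟨mem_erase.2 ⟨hee, this.1⟩, this.2⟩
  have hcontr : ∀ J : Finset V, I ⊆ J → Disjoint J U → Good ends (insert v B) U J (F.erase e) := by
    intro J hIJ hJU
    apply IH _ hcard _ rfl _ _ _ hBU' hJU H1c
    intro w hwB hwU hwI
    have hwB' : w ∉ B := fun h => hwB (mem_insert_of_mem h)
    have hwv : w ≠ v := fun h => hwB (h ▸ mem_insert_self _ _)
    rw [deg_erase_of_not]
    · exact H2 w hwB' hwU (fun h => hwI (hIJ h))
    · intro h
      rcases (hmem w).1 h with h' | h'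
      · exact hwB' (h' ▸ hbB)
      · exact hwv h'
  have hc := hcontr I (Subset.refl _) hIU
  by_cases hbridge : v ∈ R ends B (Avoid ends (F.erase e) U)
  · -- non-bridge case
    have H1' : ∀ w, w ∉ U → w ∈ R ends B (Avoid ends (F.erase e) U) := by
      intro w hw
      apply R_sub (S := R ends B (Avoid ends (F.erase e) U)) (sub_R _ _) ?_ (H1 w hw)
      intro e' he' x hx y hy hxS
      by_cases hee : e' = e
      · subst hee
        rcases (hmem y).1 hy with h | h
        · exact sub_R _ _ (h ▸ hbB)
        · exact h ▸ hbridge
      · refine closed_R _ _ e' ?_ x hx y hy hxS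
        have := mem_filter.1 he'
        exact mem_filter.2 ⟨mem_erase.2 ⟨hee, this.1⟩, this.2⟩
    by_cases hfine : v ∈ I ∨ 3 ≤ deg ends F v
    · -- deletion is good as well
      have hd : Good ends B U I (F.erase e) := by
        apply IH _ hcard _ rfl _ _ _ hBU hIU H1'
        intro w hwB hwU hwI
        by_cases hwv : w = v
        · subst hwv
          rcases hfine with h | h
          · exact absurd h hwI
          · have := deg_le_erase (ends := ends) (F := F) (e := e) (v := w)
            omega
        · rw [deg_erase_of_not]
          · exact H2 w hwB hwU hwI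
          · intro h
            rcases (hmem w).1 h with h' | h'
            · exact hwB (h' ▸ hbB)
            · exact hwv h'
      apply Good.mk'
      · rw [hdc]
        exact add_pos hd.1 hc.1
      · intro hI
        have h1 := (hd.2 hI).2 ⟨v, hvB, hvU⟩
        have h2 := hc.1
        have h3 : (1 / 2 : ℚ) ^ eStar ends F B U ≤ (1 / 2) ^ eStar ends (F.erase e) B U :=
          half_pow_le (by omega)
        rw [hdc]
        linarith
    · push Not at hfine
      obtain ⟨hvI, hdeg3⟩ := hfine
      have hdeg2 : deg ends F v = 2 := by
        have := H2 v hvB hvU hvI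
        omega
      obtain ⟨e', he', hve', x, hx, hxv⟩ := exists_nonloop hbridge hvB
      have he'1 : e' ∈ F.erase e := (mem_filter.1 he').1
      have he'U : ∀ u ∈ ends e', u ∉ U := (mem_filter.1 he').2
      have hxU : x ∉ U := he'U x hx
      have hends' : ends e' = s(v, x) := (Sym2.mem_and_mem_iff hxv.symm).1 ⟨hve', hx⟩
      have hl : ∀ e'' ∈ (F.erase e).erase e', v ∈ ends e'' → ∀ u ∈ ends e'', u = v := by
        intro e'' he'' hv'' u hu
        by_contra hne
        have h1 : e'' ≠ e' := (mem_erase.1 he'').1
        have h2 : e'' ≠ e := (mem_erase.1 (mem_erase.1 he'').2).1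
        have h3 : e' ≠ e := (mem_erase.1 he'1).1
        have hsub : ({e, e', e''} : Finset E) ⊆
            F.filter fun e => v ∈ ends e ∧ ∃ u ∈ ends e, u ≠ v := by
          intro z hz
          rw [mem_insert, mem_insert, mem_singleton] at hz
          rw [mem_filter]
          rcases hz with h | h | h
          · subst h
            exact ⟨heF, hv, b, hb, hbv⟩
          · subst h
            exact ⟨(mem_erase.1 he'1).2, hve', x, hx, hxv⟩
          · subst h
            exact ⟨(mem_erase.1 (mem_erase.1 he'').2).2, hv'', u, hu, hne⟩
        have hc3 : ({e, e', e''} : Finset E).card = 3 := by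
          rw [card_insert_of_notMem, card_insert_of_notMem, card_singleton]
          · rw [mem_singleton]; exact h1.symm
          · rw [mem_insert, mem_singleton]
            rintro (h | h)
            · exact h3 h.symm
            · exact h2 h.symm
        have := card_le_card hsub
        unfold deg at hdeg2
        omega
      by_cases hxB : x ∈ B
      · -- parallel case
        have hz : f ends B U I (F.erase e) = 0 :=
          f_leaf_zero he'1 hends' hvB hvU hvI (Or.inr hxB) hxv.symm hl
        rw [hz, zero_add] at hdc
        apply Good.mk'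
        · rw [hdc]; exact hc.1
        · intro hI
          have h1 := (hc.2 (hI.trans (subset_insert _ _))).1
          have h2 : (1 / 2 : ℚ) ^ eStar ends (F.erase e) B U ≤
              (1 / 2) ^ eStar ends (F.erase e) (insert v B) U :=
            half_pow_le (eStar_mono (Subset.refl _) (subset_insert _ _) (Subset.refl _))
          rw [hdc, hes, pow_succ]
          linarith
      · -- serial case
        have hf1 := f_leaf (B := B) (I := I) he'1 hends' hvB hvU hvI hxU hxv.symm hl
        have hα := hcontr (insert x I) (subset_insert _ _) (by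
          rw [disjoint_insert_left]; exact ⟨hxU, hIU⟩)
        have hγ := f_split (ends := ends) (B := insert v B) (I := I) (F := F.erase e) hxU
        have hδ : f ends (insert v B) (insert x U) I (F.erase e) =
            f ends B (insert v (insert x U)) I ((F.erase e).erase e') := by
          rw [f_BU he'1 hends' (mem_insert_self _ _) (mem_insert_self _ _), f_iso hvB ?_ hl,
            erase_eq_of_notMem hvI]
          rw [mem_insert]
          rintro (h | h)
          · exact hxv h.symm
          · exact hvU h
        rw [hf1, ← hδ] at hdc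
        have hval : f ends B U I F = (1 / 2) * (f ends (insert v B) U (insert x I) (F.erase e) +
            f ends (insert v B) U I (F.erase e)) := by
          rw [hdc, hγ]
          ring
        apply Good.mk'
        · rw [hval]
          have h1 := hα.1
          have h2 := hc.1
          linarith
        · intro hI
          have h1 := (hc.2 (hI.trans (subset_insert _ _))).2 ⟨x, by
            rw [mem_insert]
            rintro (h | h)
            · exact hxv h
            · exact hxB h, hxU⟩
          have h2 : (1 / 2 : ℚ) ^ eStar ends (F.erase e) B U ≤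
              (1 / 2) ^ eStar ends (F.erase e) (insert v B) U :=
            half_pow_le (eStar_mono (Subset.refl _) (subset_insert _ _) (Subset.refl _))
          have h3 := hα.1
          rw [hval, hes, pow_succ]
          linarith
  · -- bridge case
    set Rr := R ends B (Avoid ends (F.erase e) U) with hRr
    set C : Finset V := univ.filter (fun y => y ∉ U ∧ y ∉ Rr) with hCdef
    have memC : ∀ y, y ∈ C ↔ y ∉ U ∧ y ∉ Rr := by
      intro y
      simp [hCdef]
    have hBR : B ⊆ Rr := sub_R _ _
    have hvC : v ∈ C := (memC v).2 ⟨hvU, hbridge⟩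
    have hCU : Disjoint C U := by
      rw [disjoint_left]
      intro y hy
      exact ((memC y).1 hy).1
    have hCB : ∀ y ∈ C, y ∉ B := fun y hy h => ((memC y).1 hy).2 (hBR h)
    have fact1 : ∀ e' ∈ F.erase e, ∀ y ∈ ends e', y ∈ C → ∀ z ∈ ends e', z ∈ C ∨ z ∈ U := by
      intro e' he' y hy hyC z hz
      by_contra hcon
      push Not at hcon
      obtain ⟨hzC, hzU⟩ := hcon
      have hzR : z ∈ Rr := by
        by_contra h
        exact hzC ((memC z).2 ⟨hzU, h⟩)
      have hyz : y ≠ z := fun h => hzC (h ▸ hyC)
      have hyU := ((memC y).1 hyC).1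
      have hends' : ends e' = s(y, z) := (Sym2.mem_and_mem_iff hyz).1 ⟨hy, hz⟩
      have : e' ∈ Avoid ends (F.erase e) U := by
        refine mem_filter.2 ⟨he', ?_⟩
        intro u hu
        rw [hends', Sym2.mem_iff] at hu
        rcases hu with h | h
        · subst h; exact hyU
        · subst h; exact hzU
      exact ((memC y).1 hyC).2 (closed_R _ _ e' this z hz y hy hzR)
    set FC : Finset E := (F.erase e).filter (fun e' => ∃ y ∈ ends e', y ∈ C) with hFC
    set FR : Finset E := (F.erase e).filter (fun e' => ¬ ∃ y ∈ ends e', y ∈ C) with hFR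
    have hFCR : FC ∪ FR = F.erase e := filter_union_filter_not_eq _ _
    have hdisj : Disjoint FC FR := disjoint_filter_filter_not _ _ _
    have memFC : ∀ e', e' ∈ FC ↔ e' ∈ F.erase e ∧ ∃ y ∈ ends e', y ∈ C := fun e' => mem_filter
    have memFR : ∀ e', e' ∈ FR ↔ e' ∈ F.erase e ∧ ¬ ∃ y ∈ ends e', y ∈ C := fun e' => mem_filter
    have hFCends : ∀ e' ∈ FC, ∀ z ∈ ends e', z ∈ C ∨ z ∈ U := by
      intro e' he' z hz
      obtain ⟨h1, y, hy, hyC⟩ := (memFC e').1 he'
      exact fact1 e' h1 y hy hyC z hz
    set W2 : Finset V := univ.filter (fun y => y ∉ U ∧ y ∉ B ∧ y ∉ C) with hW2def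
    have memW2 : ∀ y, y ∈ W2 ↔ y ∉ U ∧ y ∉ B ∧ y ∉ C := by
      intro y
      simp [hW2def]
    have hFCcard : FC.card < n := lt_of_le_of_lt (card_le_card (filter_subset _ _)) hcard
    have hFRcard : FR.card < n := lt_of_le_of_lt (card_le_card (filter_subset _ _)) hcard
    -- the contraction factorises
    have hprod : f ends (insert v B) U I (F.erase e) =
        f ends (insert v B) (U ∪ W2) (I \ W2) FC * f ends B (U ∪ C) (I \ C) FR := by
      rw [← hFCR, f_mul (W1 := C.erase v) (W2 := W2) hdisj hBU' ?_ ?_ ?_ ?_ ?_ ?_ ?_ ?_]
      · congr 1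
        rw [f_iso hvB ?_ ?_]
        · have e1 : insert v (U ∪ C.erase v) = U ∪ C := by
            rw [← union_insert, insert_erase hvC]
          have e2 : (I \ C.erase v).erase v = I \ C := by
            ext y
            simp only [mem_erase, mem_sdiff]
            constructor
            · rintro ⟨h1, h2, h3⟩
              exact ⟨h2, fun h => h3 ⟨h1, h⟩⟩
            · rintro ⟨h1, h2⟩
              exact ⟨fun h => h2 (h ▸ hvC), h1, fun h => h2 h.2⟩
          rw [e1, e2]
        · rw [mem_union]
          rintro (h | h)
          · exact hvU h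
          · exact (mem_erase.1 h).1 rfl
        · intro e' he' hve'
          exact absurd ⟨v, hve', hvC⟩ ((memFR e').1 he').2
      · rw [disjoint_insert_left]
        refine ⟨notMem_erase _ _, ?_⟩
        rw [disjoint_left]
        intro y hy hy'
        exact hCB y (mem_erase.1 hy').2 hy
      · rw [disjoint_insert_left]
        refine ⟨fun h => ((memW2 v).1 h).2.2 hvC, ?_⟩
        rw [disjoint_left]
        intro y hy hy'
        exact ((memW2 y).1 hy').2.1 hy
      · rw [disjoint_left]
        intro y hy hy'
        exact ((memC y).1 (mem_erase.1 hy').2).1 hy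
      · rw [disjoint_left]
        intro y hy hy'
        exact ((memW2 y).1 hy').1 hy
      · rw [disjoint_left]
        intro y hy hy'
        exact ((memW2 y).1 hy').2.2 (mem_erase.1 hy).2
      · intro y
        by_cases h1 : y ∈ B
        · exact Or.inl (mem_insert_of_mem h1)
        by_cases h2 : y ∈ U
        · exact Or.inr (Or.inl h2)
        by_cases h3 : y ∈ C
        · by_cases h4 : y = v
          · exact Or.inl (h4 ▸ mem_insert_self _ _)
          · exact Or.inr (Or.inr (Or.inl (mem_erase.2 ⟨h4, h3⟩)))
        · exact Or.inr (Or.inr (Or.inr ((memW2 y).2 ⟨h2, h1, h3⟩)))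
      · intro e' he' u hu hu'
        have h3 := (memW2 u).1 hu'
        rcases hFCends e' he' u hu with h | h
        · exact h3.2.2 h
        · exact h3.1 h
      · intro e' he' u hu hu'
        exact ((memFR e').1 he').2 ⟨u, hu, (mem_erase.1 hu').2⟩
    -- the rest is good
    have hrest : Good ends B (U ∪ C) (I \ C) FR := by
      apply IH _ hFRcard _ rfl
      · rw [disjoint_union_right]
        refine ⟨hBU, ?_⟩
        rw [disjoint_left]
        intro y hy hy'
        exact hCB y hy' hy
      · rw [disjoint_union_right]
        refine ⟨disjoint_of_subset_left sdiff_subset hIU, ?_⟩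
        rw [disjoint_left]
        intro y hy
        exact (mem_sdiff.1 hy).2
      · intro w hw
        rw [mem_union] at hw
        push Not at hw
        have hwR : w ∈ Rr := by
          by_contra h
          exact hw.2 ((memC w).2 ⟨hw.1, h⟩)
        apply R_sub (S := R ends B (Avoid ends FR (U ∪ C))) (sub_R _ _) ?_ hwR
        intro e' he' x hx y hy hxS
        have he'2 := mem_filter.1 he'
        have hsubR : R ends B (Avoid ends FR (U ∪ C)) ⊆ Rr := by
          apply R_mono (Subset.refl _)
          intro z hz
          have hz' := mem_filter.1 hz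
          exact mem_filter.2 ⟨((memFR z).1 hz'.1).1, fun u hu h => hz'.2 u hu (mem_union_left _ h)⟩
        have hxR := hsubR hxS
        have hnC : ∀ y ∈ ends e', y ∉ C := fun y hy hyC =>
          ((memC y).1 hyC).2 (closed_R _ _ e' he' x hx y hy hxR)
        refine closed_R _ _ e' ?_ x hx y hy hxS
        refine mem_filter.2 ⟨(memFR e').2 ⟨he'2.1, ?_⟩, ?_⟩
        · rintro ⟨y, hy, hyC⟩
          exact hnC y hy hyC
        · intro u hu h
          rcases mem_union.1 h with h | h
          · exact he'2.2 u hu h
          · exact hnC u hu h
      · intro w hwB hwU hwI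
        rw [mem_union] at hwU
        push Not at hwU
        have hwI' : w ∉ I := fun h => hwI (mem_sdiff.2 ⟨h, hwU.2⟩)
        refine le_trans (H2 w hwB hwU.1 hwI') ?_
        apply card_le_card
        intro e' he'
        rw [mem_filter] at he' ⊢
        refine ⟨?_, he'.2⟩
        have hee : e' ≠ e := by
          rintro rfl
          rcases (hmem w).1 he'.2.1 with h | h
          · exact hwB (h ▸ hbB)
          · exact hwU.2 (h ▸ hvC)
        refine (memFR e').2 ⟨mem_erase.2 ⟨hee, he'.1⟩, ?_⟩
        rintro ⟨y, hy, hyC⟩
        rcases fact1 e' (mem_erase.2 ⟨hee, he'.1⟩) y hy hyC w he'.2.1 with h | h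
        · exact hwU.2 h
        · exact hwU.1 h
    -- the hanging part is good
    have hpart : Good ends (insert v B) (U ∪ W2) (I \ W2) FC := by
      apply IH _ hFCcard _ rfl
      · rw [disjoint_union_right]
        refine ⟨hBU', ?_⟩
        rw [disjoint_left]
        intro y hy hy'
        have h3 := (memW2 y).1 hy'
        rcases mem_insert.1 hy with h | h
        · exact h3.2.2 (h ▸ hvC)
        · exact h3.2.1 h
      · rw [disjoint_union_right]
        refine ⟨disjoint_of_subset_left sdiff_subset hIU, ?_⟩
        rw [disjoint_left]
        intro y hy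
        exact (mem_sdiff.1 hy).2
      · intro w hw
        rw [mem_union] at hw
        push Not at hw
        have hS : w ∈ R ends (insert v B) (Avoid ends FC (U ∪ W2)) ∪ W2 := by
          apply R_sub (S := R ends (insert v B) (Avoid ends FC (U ∪ W2)) ∪ W2) ?_ ?_ (H1 w hw.1)
          · exact ((subset_insert _ _).trans (sub_R _ _)).trans subset_union_left
          · intro e' he' x hx y hy hxS
            have he'2 := mem_filter.1 he'
            by_cases hee : e' = e
            · subst hee
              rcases (hmem y).1 hy with h | h
              · exact mem_union_left _ (sub_R _ _ (mem_insert_of_mem (h ▸ hbB)))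
              · exact mem_union_left _ (sub_R _ _ (h ▸ mem_insert_self _ _))
            · have he'1 : e' ∈ F.erase e := mem_erase.2 ⟨hee, he'2.1⟩
              by_cases hC : ∃ y ∈ ends e', y ∈ C
              · obtain ⟨z, hz, hzC⟩ := hC
                have hallC : ∀ u ∈ ends e', u ∈ C := by
                  intro u hu
                  rcases fact1 e' he'1 z hz hzC u hu with h | h
                  · exact h
                  · exact absurd h (he'2.2 u hu)
                have hnW : ∀ u ∈ ends e', u ∉ W2 := fun u hu h => ((memW2 u).1 h).2.2 (hallC u hu)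
                rcases mem_union.1 hxS with h | h
                · refine mem_union_left _ (closed_R _ _ e' ?_ x hx y hy h)
                  refine mem_filter.2 ⟨(memFC e').2 ⟨he'1, z, hz, hzC⟩, ?_⟩
                  intro u hu hu'
                  rcases mem_union.1 hu' with h' | h'
                  · exact he'2.2 u hu h'
                  · exact hnW u hu h'
                · exact absurd h (hnW x hx)
              · have hyC : y ∉ C := fun h => hC ⟨y, hy, h⟩
                by_cases hyB : y ∈ B
                · exact mem_union_left _ (sub_R _ _ (mem_insert_of_mem hyB))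
                · exact mem_union_right _ ((memW2 y).2 ⟨he'2.2 y hy, hyB, hyC⟩)
        rcases mem_union.1 hS with h | h
        · exact h
        · exact absurd h hw.2
      · intro w hwB hwU hwI
        rw [mem_union] at hwU
        push Not at hwU
        have hwB' : w ∉ B := fun h => hwB (mem_insert_of_mem h)
        have hwv : w ≠ v := fun h => hwB (h ▸ mem_insert_self _ _)
        have hwC : w ∈ C := by
          by_contra h
          exact hwU.2 ((memW2 w).2 ⟨hwU.1, hwB', h⟩)
        have hwI' : w ∉ I := fun h => hwI (mem_sdiff.2 ⟨h, hwU.2⟩)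
        refine le_trans (H2 w hwB' hwU.1 hwI') ?_
        apply card_le_card
        intro e' he'
        rw [mem_filter] at he' ⊢
        refine ⟨?_, he'.2⟩
        have hee : e' ≠ e := by
          rintro rfl
          rcases (hmem w).1 he'.2.1 with h | h
          · exact hwB' (h ▸ hbB)
          · exact hwv h
        exact (memFC e').2 ⟨mem_erase.2 ⟨hee, he'.1⟩, w, he'.2.1, hwC⟩
    have hunreach : ∀ y ∈ C, ∀ A ⊆ F.erase e, Disjoint (R ends B A) U → y ∉ R ends B A := by
      intro y hy A hA hd hyR
      exact ((memC y).1 hy).2 (R_avoid hA hd hyR)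
    by_cases hIC : ∃ c, c ∈ I ∧ c ∈ C
    · obtain ⟨c, hcI, hcC⟩ := hIC
      have hz : f ends B U I (F.erase e) = 0 := f_zero_of_unreach hcI (hunreach c hcC)
      apply Good.mk'
      · rw [hdc, hz, hprod, zero_add]
        exact mul_pos hpart.1 hrest.1
      · intro hI
        exact absurd (hI hcI) (hCB c hcC)
    · push Not at hIC
      have hIC' : I \ C = I := by
        rw [Finset.sdiff_eq_self_iff_disjoint, disjoint_left]
        exact hIC
      have hdel : f ends B U I (F.erase e) =
          (-1) ^ C.card * ((1 / 2) ^ FC.card * f ends B (U ∪ C) (I \ C) FR) := by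
        rw [f_unreach_set C hCU hunreach, f_free_U_set FC (F := F.erase e) (filter_subset _ _) ?_,
          hIC', union_comm C U]
        · congr 3
          rw [← hFCR, union_sdiff_left, sdiff_eq_self_of_disjoint hdisj.symm]
        · intro e' he' u hu
          rcases hFCends e' he' u hu with h | h
          · exact mem_union_left _ h
          · exact mem_union_right _ h
      have hIW : I \ W2 ⊆ insert v B := by
        intro y hy
        rw [mem_sdiff, memW2] at hy
        have h1 := hIC y hy.1
        have h2 := disjoint_left.1 hIU hy.1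
        by_contra h
        rw [mem_insert] at h
        push Not at h
        exact hy.2 ⟨h2, h.2, h1⟩
      have hbound : (1 / 2) ^ FC.card ≤ (1 / 2) * f ends (insert v B) (U ∪ W2) (I \ W2) FC := by
        have hle : eStar ends FC (insert v B) (U ∪ W2) ≤ FC.card := card_le_card (filter_subset _ _)
        by_cases hw : ∃ w ∈ C, w ≠ v
        · obtain ⟨w, hwC, hwv⟩ := hw
          have h1 := (hpart.2 hIW).2 ⟨w, by
            rw [mem_insert]
            rintro (h | h)
            · exact hwv h
            · exact hCB w hwC h, by
            rw [mem_union]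
            rintro (h | h)
            · exact ((memC w).1 hwC).1 h
            · exact ((memW2 w).1 h).2.2 hwC⟩
          exact (half_pow_le hle).trans h1
        · push Not at hw
          have hvI : v ∉ I := fun h => hIC v h hvC
          have hd2 := H2 v hvB hvU hvI
          have hd1 : 0 < deg ends (F.erase e) v := by
            have := deg_le_erase (ends := ends) (F := F) (e := e) (v := v)
            omega
          obtain ⟨e', he'⟩ := card_pos.1 hd1
          rw [mem_filter] at he'
          obtain ⟨he'1, hve', x, hx, hxv⟩ := he'
          have he'C : e' ∈ FC := (memFC e').2 ⟨he'1, v, hve', hvC⟩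
          have hxU : x ∈ U := by
            rcases fact1 e' he'1 v hve' hvC x hx with h | h
            · exact absurd (hw x h) hxv
            · exact h
          have hlt : eStar ends FC (insert v B) (U ∪ W2) < FC.card := by
            apply card_lt_card
            rw [ssubset_iff_of_subset (filter_subset _ _)]
            refine ⟨e', he'C, ?_⟩
            rw [mem_filter]
            rintro ⟨_, h⟩
            exact h ⟨⟨v, hve', mem_insert_self _ _⟩, x, hx, mem_union_left _ hxU⟩
          have h1 := (hpart.2 hIW).1
          obtain ⟨k, hk⟩ : ∃ k, FC.card = k + 1 := ⟨FC.card - 1, by omega⟩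
          have h2 : (1 / 2 : ℚ) ^ k ≤ (1 / 2) ^ eStar ends FC (insert v B) (U ∪ W2) :=
            half_pow_le (by omega)
          rw [hk, pow_succ]
          linarith
      have hsign : -(1 / 2 : ℚ) ^ FC.card ≤ (-1) ^ C.card * (1 / 2) ^ FC.card := by
        have hp : (0 : ℚ) < (1 / 2) ^ FC.card := by positivity
        rcases neg_one_pow_eq_or ℚ C.card with h | h
        · rw [h]; linarith
        · rw [h]; linarith
      have hfin : (1 / 2) ^ FC.card * f ends B (U ∪ C) (I \ C) FR ≤ f ends B U I F := by
        rw [hdc, hdel, hprod]
        have hp := hrest.1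
        nlinarith [mul_le_mul_of_nonneg_right hsign hp.le,
          mul_le_mul_of_nonneg_right hbound hp.le]
      have hp2 : (0 : ℚ) < (1 / 2) ^ FC.card := by positivity
      apply Good.mk'
      · exact lt_of_lt_of_le (mul_pos hp2 hrest.1) hfin
      · intro hI
        have h1 := (hrest.2 (by rw [hIC']; exact hI)).1
        have hcount : FC.card + eStar ends FR B (U ∪ C) + 1 ≤ eStar ends F B U := by
          rw [hes]
          have hsub : FC ∪ (FR.filter fun e' => ¬ BU ends B (U ∪ C) e') ⊆
              (F.erase e).filter fun e' => ¬ BU ends B U e' := by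
            intro e' he'
            rcases mem_union.1 he' with h | h
            · refine mem_filter.2 ⟨((memFC e').1 h).1, ?_⟩
              rintro ⟨⟨y, hy, hyB⟩, _⟩
              rcases hFCends e' h y hy with h' | h'
              · exact hCB y h' hyB
              · exact disjoint_left.1 hBU hyB h'
            · rw [mem_filter] at h
              refine mem_filter.2 ⟨((memFR e').1 h.1).1, ?_⟩
              rintro ⟨h1, u, hu, huU⟩
              exact h.2 ⟨h1, u, hu, mem_union_left _ huU⟩
          have h2 := card_le_card hsub
          rw [card_union_of_disjoint (disjoint_of_subset_right (filter_subset _ _) hdisj)] at h2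
          unfold eStar
          omega
        have h2 : (1 / 2 : ℚ) ^ eStar ends F B U ≤
            (1 / 2) ^ (FC.card + eStar ends FR B (U ∪ C) + 1) := half_pow_le hcount
        have h3 : (1 / 2 : ℚ) ^ (FC.card + eStar ends FR B (U ∪ C) + 1) =
            (1 / 2) * ((1 / 2) ^ FC.card * (1 / 2) ^ eStar ends FR B (U ∪ C)) := by
          rw [pow_succ, pow_add]
          ring
        have h4 : (1 / 2 : ℚ) ^ FC.card * (1 / 2) ^ eStar ends FR B (U ∪ C) ≤
            (1 / 2) ^ FC.card * f ends B (U ∪ C) (I \ C) FR :=
          mul_le_mul_of_nonneg_left h1 hp2.le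
        linarith

/-- The sum does not vanish as soon as no free vertex is pendant at the root set. -/
theorem nonvanish (n : ℕ) : ∀ (U : Finset V), Fintype.card V - U.card = n → ∀ (F : Finset E)
    (B : Finset V), Disjoint B U →
    (∀ v, v ∉ B → v ∉ U → ¬ (deg ends F v = 1 ∧ ∃ e ∈ F, ∃ b ∈ B, ends e = s(b, v))) →
    f ends B U ∅ F ≠ 0 := by
  induction n using Nat.strong_induction_on with
  | _ n IH =>
  intro U hn F B hBU hcond
  set Rr := R ends B (Avoid ends F U) with hRr
  have hUcard : ∀ W : Finset V, W.card ≤ Fintype.card V := fun W => card_le_univ W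
  by_cases hC : ∃ y, y ∉ U ∧ y ∉ Rr
  · obtain ⟨y, hyU, hyR⟩ := hC
    have hun : ∀ A ⊆ F, Disjoint (R ends B A) U → y ∉ R ends B A := by
      intro A hA hd h
      exact hyR (R_avoid hA hd h)
    rw [(f_unreach (I := ∅) hyU hun).2]
    rw [neg_ne_zero]
    have hyB : y ∉ B := fun h => hyR (sub_R _ _ h)
    apply IH (Fintype.card V - (insert y U).card) ?_ _ rfl
    · rw [disjoint_insert_right]
      exact ⟨hyB, hBU⟩
    · intro v hvB hvU
      exact hcond v hvB (fun h => hvU (mem_insert_of_mem h))
    · have h1 := card_insert_of_notMem hyU
      have h2 := hUcard (insert y U)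
      omega
  · push Not at hC
    by_cases hdeg : ∃ v, v ∉ B ∧ v ∉ U ∧ deg ends F v = 1
    · obtain ⟨v, hvB, hvU, hd⟩ := hdeg
      obtain ⟨e, he, hve, x, hx, hxv⟩ := exists_nonloop (hC v hvU) hvB
      have heF : e ∈ F := (mem_filter.1 he).1
      have hxU : x ∉ U := (mem_filter.1 he).2 x hx
      have hends : ends e = s(v, x) := (Sym2.mem_and_mem_iff hxv.symm).1 ⟨hve, hx⟩
      have hxB : x ∉ B := by
        intro h
        exact hcond v hvB hvU ⟨hd, e, heF, x, h, by rw [hends, Sym2.eq_swap]⟩
      have hl : ∀ e' ∈ F.erase e, v ∈ ends e' → ∀ u ∈ ends e', u = v := by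
        intro e' he' hv' u hu
        by_contra hne
        have hsub : ({e, e'} : Finset E) ⊆ F.filter fun e => v ∈ ends e ∧ ∃ u ∈ ends e, u ≠ v := by
          intro z hz
          rw [mem_insert, mem_singleton] at hz
          rw [mem_filter]
          rcases hz with h | h
          · subst h
            exact ⟨heF, hve, x, hx, hxv⟩
          · subst h
            exact ⟨(mem_erase.1 he').2, hv', u, hu, hne⟩
        have hc2 : ({e, e'} : Finset E).card = 2 :=
          card_pair (mem_erase.1 he').1.symm
        have := card_le_card hsub
        unfold deg at hd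
        omega
      rw [f_leaf heF hends hvB hvU (notMem_empty _) hxU hxv.symm hl]
      apply mul_ne_zero (by norm_num)
      have hvxU : v ∉ insert x U := by
        rw [mem_insert]
        rintro (h | h)
        · exact hxv h.symm
        · exact hvU h
      apply IH (Fintype.card V - (insert v (insert x U)).card) ?_ _ rfl
      · rw [disjoint_insert_right, disjoint_insert_right]
        exact ⟨hvB, hxB, hBU⟩
      · rintro w hwB hwU ⟨hw1, e', he', b, hb, hb'⟩
        rw [mem_insert, mem_insert] at hwU
        push Not at hwU
        apply hcond w hwB hwU.2.2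
        refine ⟨?_, e', (mem_erase.1 he').2, b, hb, hb'⟩
        rw [← hw1, deg_erase_of_not]
        rw [hends, Sym2.mem_iff]
        rintro (h | h)
        · exact hwU.1 h
        · exact hwU.2.1 h
      · have h1 := card_insert_of_notMem hvxU
        have h2 := card_insert_of_notMem hxU
        have h3 := hUcard (insert v (insert x U))
        omega
    · push Not at hdeg
      have hmain := main (ends := ends) F.card F rfl B U ∅ hBU (disjoint_empty_left _) hC ?_
      · exact hmain.1.ne'
      · intro v hvB hvU _
        have h1 := hdeg v hvB hvU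
        obtain ⟨e, he, hve, x, hx, hxv⟩ := exists_nonloop (hC v hvU) hvB
        have h2 : 0 < deg ends F v := card_pos.2 ⟨e, mem_filter.2 ⟨(mem_filter.1 he).1, hve, x, hx, hxv⟩⟩
        omega

end Pool.Agent.Q276.RG
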