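import Mathlib

/-!
# Symmetric matrices of a graph with two distinct eigenvalues

Definitions (the parameters `q(G)`, `MB(G)`, `mr₊(G)`, the multiplicity bipartitions) and the basic
facts on involutions with a given graph.
-/

namespace Pool.Agent.Q276.TwoEig

open Matrix Module

variable {V : Type} [Fintype V] [DecidableEq V]

/-- The real symmetric matrices with graph `G`; the diagonal is free. -/
def IsMatrixOf (G : SimpleGraph V) (A : Matrix V V ℝ) : Prop :=
  A.IsSymm ∧ ∀ i j, i ≠ j → (A i j ≠ 0 ↔ G.Adj i j)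

/-- The number of distinct eigenvalues of a real matrix. -/
noncomputable def numEig (A : Matrix V V ℝ) : ℕ := (spectrum ℝ A).ncard

/-- The multiplicity of `t` as an eigenvalue (the dimension of the eigenspace). -/
noncomputable def mult (A : Matrix V V ℝ) (t : ℝ) : ℕ :=
  finrank ℝ (End.eigenspace (Matrix.toLin' A) t)

/-- `G` achieves the multiplicity bipartition `[n - k, k]`: some symmetric matrix with graph `G` has
exactly two distinct eigenvalues, with multiplicities `n - k` and `k`. -/
def Achieves (G : SimpleGraph V) (k : ℕ) : Prop :=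
  ∃ A : Matrix V V ℝ, IsMatrixOf G A ∧ numEig A = 2 ∧
    ∃ s t : ℝ, s ≠ t ∧ mult A s = Fintype.card V - k ∧ mult A t = k

/-- `q(G)`, the least number of distinct eigenvalues of a symmetric matrix with graph `G`. -/
noncomputable def q (G : SimpleGraph V) : ℕ :=
  sInf {m | ∃ A : Matrix V V ℝ, IsMatrixOf G A ∧ numEig A = m}

/-- `MB(G)`, the minimal multiplicity bipartition. -/
noncomputable def MB (G : SimpleGraph V) : ℕ :=
  sInf {k | 1 ≤ k ∧ k ≤ Fintype.card V / 2 ∧ Achieves G k}

/-- `mr₊(G)`, the least rank of a positive semidefinite matrix with graph `G`. -/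
noncomputable def mrPlus (G : SimpleGraph V) : ℕ :=
  sInf {r | ∃ A : Matrix V V ℝ, IsMatrixOf G A ∧ A.PosSemidef ∧ A.rank = r}

/-! ## Involutions -/

theorem mem_eig (A : Matrix V V ℝ) (t : ℝ) (x : V → ℝ) :
    x ∈ End.eigenspace (Matrix.toLin' A) t ↔ A.mulVec x = t • x := by
  rw [End.mem_eigenspace_iff, Matrix.toLin'_apply]

theorem mult_one (B : Matrix V V ℝ) (hB : B * B = 1) :
    (mult B 1 : ℝ) = (Fintype.card V + B.trace) / 2 := by
  let P : Matrix V V ℝ := (1 / 2 : ℝ) • (1 + B)
  have hP : LinearMap.IsProj (End.eigenspace (Matrix.toLin' B) 1) (Matrix.toLin' P) := by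
    constructor
    · intro x
      rw [mem_eig, one_smul, Matrix.toLin'_apply, Matrix.mulVec_mulVec]
      congr 1
      simp only [P, mul_smul_comm, mul_add, mul_one, hB]
      rw [add_comm]
    · intro x hx
      rw [mem_eig, one_smul] at hx
      rw [Matrix.toLin'_apply]
      simp only [P, Matrix.smul_mulVec, Matrix.add_mulVec, Matrix.one_mulVec, hx]
      funext v
      simp only [Pi.smul_apply, Pi.add_apply, smul_eq_mul]
      ring
  have h := hP.trace
  rw [Matrix.trace_toLin'_eq] at h
  rw [mult, ← h]
  simp only [P, Matrix.trace_smul, Matrix.trace_add, Matrix.trace_one, smul_eq_mul]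
  ring

theorem mult_neg_one (B : Matrix V V ℝ) (hB : B * B = 1) :
    (mult B (-1) : ℝ) = (Fintype.card V - B.trace) / 2 := by
  have h := mult_one (-B) (by rw [neg_mul_neg, hB])
  have he : End.eigenspace (Matrix.toLin' (-B)) 1 = End.eigenspace (Matrix.toLin' B) (-1) := by
    ext x
    rw [mem_eig, mem_eig, Matrix.neg_mulVec, one_smul, neg_one_smul, neg_eq_iff_eq_neg]
  rw [mult, he] at h
  rw [mult, h, Matrix.trace_neg]
  ring

theorem spectrum_sub (B : Matrix V V ℝ) (hB : B * B = 1) : spectrum ℝ B ⊆ {1, -1} := by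
  intro t ht
  rw [← Matrix.spectrum_toLin', ← End.hasEigenvalue_iff_mem_spectrum] at ht
  obtain ⟨x, hx, hx0⟩ := ht.exists_hasEigenvector
  rw [mem_eig] at hx
  have h2 : (t * t) • x = x := by
    have h : B.mulVec (B.mulVec x) = x := by rw [Matrix.mulVec_mulVec, hB, Matrix.one_mulVec]
    rw [hx, Matrix.mulVec_smul, hx, smul_smul] at h
    exact h
  obtain ⟨v, hv⟩ := Function.ne_iff.mp hx0
  have h3 := congrFun h2 v
  rw [Pi.smul_apply, smul_eq_mul] at h3
  have hv' : x v ≠ 0 := hv
  have h4 : (t - 1) * (t + 1) = 0 := by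
    have : (t * t - 1) * x v = 0 := by linarith
    rcases mul_eq_zero.mp this with h | h
    · linarith
    · exact absurd h hv'
  rcases mul_eq_zero.mp h4 with h | h
  · left; linarith
  · right; simp only [Set.mem_singleton_iff]; linarith

theorem mem_spectrum (B : Matrix V V ℝ) (t : ℝ) (h : mult B t ≠ 0) : t ∈ spectrum ℝ B := by
  rw [← Matrix.spectrum_toLin', ← End.hasEigenvalue_iff_mem_spectrum, End.hasEigenvalue_iff]
  intro hbot
  apply h
  rw [mult, hbot]
  simp

/-- An involution with graph `G` gives a multiplicity bipartition. -/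
theorem achieves_of (G : SimpleGraph V) (B : Matrix V V ℝ) (hG : IsMatrixOf G B) (hB : B * B = 1)
    (k : ℕ) (hk0 : 0 < k) (hk : k < Fintype.card V)
    (htr : B.trace = Fintype.card V - 2 * k) : Achieves G k ∧ numEig B = 2 := by
  have h1 : mult B 1 = Fintype.card V - k := by
    have h := mult_one B hB
    rw [htr] at h
    have h' : (mult B 1 : ℝ) = ((Fintype.card V - k : ℕ) : ℝ) := by
      rw [Nat.cast_sub hk.le, h]
      ring
    exact_mod_cast h'
  have h2 : mult B (-1) = k := by
    have h := mult_neg_one B hB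
    rw [htr] at h
    have h' : (mult B (-1) : ℝ) = (k : ℝ) := by
      rw [h]
      ring
    exact_mod_cast h'
  have hs : spectrum ℝ B = {1, -1} := by
    refine Set.Subset.antisymm (spectrum_sub B hB) ?_
    rintro t (rfl | rfl)
    · exact mem_spectrum B 1 (by rw [h1]; omega)
    · exact mem_spectrum B (-1) (by rw [h2]; omega)
  have hn : numEig B = 2 := by
    rw [numEig, hs, Set.ncard_pair (by norm_num)]
  exact ⟨⟨B, hG, hn, 1, -1, by norm_num, h1, h2⟩, hn⟩

/-- A multiplicity bipartition gives an involution with graph `G`. -/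
theorem exists_involution (G : SimpleGraph V) (k : ℕ) (hk : k ≤ Fintype.card V)
    (h : Achieves G k) : ∃ B : Matrix V V ℝ, IsMatrixOf G B ∧ B * B = 1 ∧
      B.trace = Fintype.card V - 2 * k := by
  obtain ⟨A, hA, -, s, t, hst, hs, ht⟩ := h
  have hst' : s - t ≠ 0 := sub_ne_zero.mpr hst
  let B : Matrix V V ℝ := (2 / (s - t)) • A - ((s + t) / (s - t)) • (1 : Matrix V V ℝ)
  have hBv : ∀ x, B.mulVec x = (2 / (s - t)) • A.mulVec x - ((s + t) / (s - t)) • x := by
    intro x
    simp only [B, Matrix.sub_mulVec, Matrix.smul_mulVec, Matrix.one_mulVec]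
  have hes : ∀ x, A.mulVec x = s • x → B.mulVec x = x := by
    intro x hx
    rw [hBv, hx, smul_smul, ← sub_smul]
    have : 2 / (s - t) * s - (s + t) / (s - t) = 1 := by
      field_simp
      ring
    rw [this, one_smul]
  have het : ∀ x, A.mulVec x = t • x → B.mulVec x = - x := by
    intro x hx
    rw [hBv, hx, smul_smul, ← sub_smul]
    have : 2 / (s - t) * t - (s + t) / (s - t) = -1 := by
      field_simp
      ring
    rw [this, neg_one_smul]
  have hdis : Disjoint (End.eigenspace (Matrix.toLin' A) s) (End.eigenspace (Matrix.toLin' A) t) :=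
    by
    rw [Submodule.disjoint_def]
    intro x hx hx'
    rw [mem_eig] at hx hx'
    have h := (hes x hx).symm.trans (het x hx')
    funext v
    have := congrFun h v
    simp only [Pi.neg_apply] at this
    simp only [Pi.zero_apply]
    linarith
  have htop : End.eigenspace (Matrix.toLin' A) s ⊔ End.eigenspace (Matrix.toLin' A) t = ⊤ := by
    apply Submodule.eq_top_of_finrank_eq
    have h := Submodule.finrank_sup_add_finrank_inf_eq (End.eigenspace (Matrix.toLin' A) s)
      (End.eigenspace (Matrix.toLin' A) t)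
    rw [disjoint_iff.mp hdis, finrank_bot, add_zero] at h
    rw [h]
    have h1 : finrank ℝ (End.eigenspace (Matrix.toLin' A) s) = Fintype.card V - k := hs
    have h2 : finrank ℝ (End.eigenspace (Matrix.toLin' A) t) = k := ht
    rw [h1, h2, Module.finrank_fintype_fun_eq_card]
    omega
  have hBB : B * B = 1 := by
    apply Matrix.toLin'.injective
    refine LinearMap.ext fun x => ?_
    rw [Matrix.toLin'_apply, Matrix.toLin'_apply, Matrix.one_mulVec, ← Matrix.mulVec_mulVec]
    have hx : x ∈ End.eigenspace (Matrix.toLin' A) s ⊔ End.eigenspace (Matrix.toLin' A) t := by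
      rw [htop]; trivial
    obtain ⟨u, hu, v, hv, rfl⟩ := Submodule.mem_sup.mp hx
    rw [mem_eig] at hu hv
    rw [Matrix.mulVec_add, hes u hu, het v hv, Matrix.mulVec_add, hes u hu, Matrix.mulVec_neg,
      het v hv, neg_neg]
  have hE1 : End.eigenspace (Matrix.toLin' B) 1 = End.eigenspace (Matrix.toLin' A) s := by
    ext x
    rw [mem_eig, mem_eig, one_smul]
    refine ⟨fun h => ?_, hes x⟩
    rw [hBv] at h
    funext v
    have := congrFun h v
    simp only [Pi.sub_apply, Pi.smul_apply, smul_eq_mul] at this ⊢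
    field_simp at this
    linarith
  have hE2 : End.eigenspace (Matrix.toLin' B) (-1) = End.eigenspace (Matrix.toLin' A) t := by
    ext x
    rw [mem_eig, mem_eig, neg_one_smul]
    refine ⟨fun h => ?_, het x⟩
    rw [hBv] at h
    funext v
    have := congrFun h v
    simp only [Pi.sub_apply, Pi.smul_apply, smul_eq_mul, Pi.neg_apply] at this ⊢
    field_simp at this
    linarith
  refine ⟨B, ⟨?_, ?_⟩, hBB, ?_⟩
  · have h1 : A.IsSymm := hA.1
    simp only [B, Matrix.IsSymm, Matrix.transpose_sub, Matrix.transpose_smul, Matrix.transpose_one,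
      h1.eq]
  · intro i j hij
    have : B i j = 2 / (s - t) * A i j := by
      simp [B, Matrix.one_apply_ne hij]
    rw [this, ← hA.2 i j hij]
    constructor
    · intro h h'
      rw [h', mul_zero] at h
      exact h rfl
    · intro h
      exact mul_ne_zero (div_ne_zero two_ne_zero hst') h
  · have h1 := mult_one B hBB
    have h2 := mult_neg_one B hBB
    rw [mult, hE2] at h2
    have h3 : finrank ℝ (End.eigenspace (Matrix.toLin' A) t) = k := ht
    rw [h3] at h2
    linarith

/-- The entries of an involution at an edge without common neighbours. -/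
theorem rule (G : SimpleGraph V) (B : Matrix V V ℝ) (hG : IsMatrixOf G B) (hB : B * B = 1)
    (i j : V) (hij : G.Adj i j) (hc : ∀ k, ¬ (G.Adj i k ∧ G.Adj k j)) : B i i + B j j = 0 := by
  have hne : i ≠ j := hij.ne
  have h := congrFun (congrFun hB i) j
  rw [Matrix.mul_apply, Matrix.one_apply_ne hne] at h
  have hsum : ∑ k, B i k * B k j = B i i * B i j + B i j * B j j := by
    rw [Finset.sum_eq_add_of_mem i j (Finset.mem_univ _) (Finset.mem_univ _) hne]
    intro k _ hk
    by_cases h1 : B i k = 0
    · rw [h1, zero_mul]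
    · by_cases h2 : B k j = 0
      · rw [h2, mul_zero]
      · exact absurd ⟨(hG.2 i k hk.1.symm).mp h1, (hG.2 k j hk.2).mp h2⟩ (hc k)
  rw [hsum] at h
  have h3 : B i j * (B i i + B j j) = 0 := by linarith
  rcases mul_eq_zero.mp h3 with h4 | h4
  · exact absurd h4 ((hG.2 i j hne).mpr hij)
  · exact h4

/-- The diagonal entries of an involution at a vertex with a neighbour. -/
theorem diag_lt (G : SimpleGraph V) (B : Matrix V V ℝ) (hG : IsMatrixOf G B) (hB : B * B = 1)
    (i j : V) (hij : G.Adj i j) : |B i i| < 1 := by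
  have hne : i ≠ j := hij.ne
  have h := congrFun (congrFun hB i) i
  rw [Matrix.mul_apply, Matrix.one_apply_eq] at h
  have hsq : ∀ k, B i k * B k i = B i k ^ 2 := by
    intro k
    rw [hG.1.apply k i]
    ring
  simp only [hsq] at h
  have h1 : B i i ^ 2 + B i j ^ 2 ≤ ∑ k, B i k ^ 2 := by
    have hsub : ({i, j} : Finset V) ⊆ Finset.univ := Finset.subset_univ _
    have := Finset.sum_le_sum_of_subset_of_nonneg hsub
      (f := fun k => B i k ^ 2) (fun k _ _ => sq_nonneg _)
    rwa [Finset.sum_pair hne] at this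
  have h2 : 0 < B i j ^ 2 := by
    have := (hG.2 i j hne).mpr hij
    positivity
  rw [h] at h1
  rw [← sq_lt_one_iff_abs_lt_one]
  linarith

/-- A symmetric matrix of a graph with an edge has at least two distinct eigenvalues. -/
theorem two_le_numEig (G : SimpleGraph V) (A : Matrix V V ℝ) (hG : IsMatrixOf G A) (i j : V)
    (hij : G.Adj i j) : 2 ≤ numEig A := by
  have hH : A.IsHermitian := by
    rw [Matrix.IsHermitian, Matrix.conjTranspose_eq_transpose_of_trivial]
    exact hG.1
  have hfin : (spectrum ℝ A).Finite := Matrix.finite_real_spectrum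
  have hmem : hH.eigenvalues i ∈ spectrum ℝ A := hH.eigenvalues_mem_spectrum_real i
  set c := hH.eigenvalues i with hc
  have hne : A - c • (1 : Matrix V V ℝ) ≠ 0 := by
    intro h
    have h1 := congrFun (congrFun h i) j
    rw [Matrix.sub_apply, Matrix.smul_apply, Matrix.one_apply_ne hij.ne] at h1
    have h2 : A i j = 0 := by simpa using h1
    exact (hG.2 i j hij.ne).mpr hij h2
  have hH' : (A - c • (1 : Matrix V V ℝ)).IsHermitian := by
    rw [Matrix.IsHermitian, Matrix.conjTranspose_eq_transpose_of_trivial, Matrix.transpose_sub,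
      Matrix.transpose_smul, Matrix.transpose_one, hG.1.eq]
  obtain ⟨v, t, ht, hv, hvt⟩ := hH'.exists_eigenvector_of_ne_zero hne
  have hAv : A.mulVec v = (c + t) • v := by
    rw [Matrix.sub_mulVec, Matrix.smul_mulVec, Matrix.one_mulVec] at hvt
    rw [add_smul, ← hvt]
    abel
  have hmem2 : c + t ∈ spectrum ℝ A := by
    rw [← Matrix.spectrum_toLin', ← End.hasEigenvalue_iff_mem_spectrum]
    exact End.hasEigenvalue_of_hasEigenvector (x := v) ⟨(mem_eig A _ v).mpr hAv, hv⟩
  have hsub : ({c, c + t} : Set ℝ) ⊆ spectrum ℝ A := by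
    rintro x (rfl | rfl)
    · exact hmem
    · exact hmem2
  have h := Set.ncard_le_ncard hsub hfin
  rw [Set.ncard_pair (by intro h; exact ht (by linarith))] at h
  exact h

end Pool.Agent.Q276.TwoEig
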